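import Mathlib

namespace Pool.Agent.P.MP_913bbb_co

/-- Any two distinct neighbours of any vertex have different degrees. -/
def HighlyIrregular {V : Type} (G : SimpleGraph V) : Prop :=
  ∀ v u w, G.Adj v u → G.Adj v w → u ≠ w → (G.neighborSet u).ncard ≠ (G.neighborSet w).ncard

/-- The independence numbers of the highly irregular trees of order `n`. -/
def alphaSet (n : ℕ) : Set ℕ :=
  {a | ∃ G : SimpleGraph (Fin n), G.IsTree ∧ HighlyIrregular G ∧ G.indepNum = a}

/-- The extremal function: `⌊(79 n - 22) / 127⌋`, minus one for the exceptional orders. -/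
def bestBound (n : ℕ) : ℕ :=
  (79 * n - 22) / 127 -
    if (n % 254 ∈ [2, 10, 18, 26, 39, 47, 55, 63, 108, 137, 145, 153, 182, 190, 219, 227, 235] ∧
        n ∉ [2, 10, 26, 47]) ∨
      n ∈ [14, 15, 17, 129, 203, 211, 285, 465, 539, 719, 793, 973, 1047, 1227, 1301]
    then 1 else 0

end Pool.Agent.P.MP_913bbb_co
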