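import Mathlib
import Pool.Agent.P.MP_913bbb_co.Defs

namespace Pool.Agent.P.MP_913bbb_co

open SimpleGraph

/-- A rooted tree under construction: the root has intended degree `d`, status `s`, and children
of degrees `C`. -/
def Part (d : ℕ) (s : Bool) (C : List ℕ) (N A : ℕ) : Prop :=
  ∃ (V : Type) (_ : Finite V) (G : SimpleGraph V) (r : V) (I : Set V) (δ : V → ℕ),
    G.Connected ∧ Nat.card V = N ∧ Nat.card G.edgeSet + 1 = N ∧ I.ncard = A ∧ G.IsIndepSet I ∧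
    (r ∈ I ↔ s = true) ∧ δ r = d ∧ (∀ v ≠ r, δ v = (G.neighborSet v).ncard) ∧
    (G.neighborSet r).ncard = C.length ∧ (∀ u, G.Adj r u → δ u ∈ C) ∧
    (C.Nodup → ∀ u w, G.Adj r u → G.Adj r w → δ u = δ w → u = w) ∧
    (∀ v ≠ r, ∀ u w, G.Adj v u → G.Adj v w → δ u = δ w → u = w)

/-- A finished rooted tree whose root has degree `d` and parent of degree `p` (`0`: no parent). -/
def R (d p : ℕ) (s : Bool) (N A : ℕ) : Prop :=
  ∃ C, Part d s C N A ∧ C.Nodup ∧ p ∉ C ∧ C.length + (if p = 0 then 0 else 1) = d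

theorem P_start (d : ℕ) (s : Bool) : Part d s [] 1 s.toNat := by
  refine ⟨Unit, inferInstance, ⊥, (), {_x | s = true}, fun _ => d, ?_, by simp, by simp, ?_, ?_,
    Iff.rfl, rfl, fun v hv => absurd rfl hv, by simp, by simp, by simp, by simp⟩
  · exact connected_bot_iff.2 ⟨inferInstance, inferInstance⟩
  · cases s <;> simp
  · intro x _ y _ _
    simp

theorem P_attach {d c N A N' A' : ℕ} {s s' : Bool} {C : List ℕ} (hd : d ≠ 0)
    (h : Part d s C N A) (h' : R c d s' N' A') (hs : ¬ (s = true ∧ s' = true)) :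
    Part d s (c :: C) (N + N') (A + A') := by
  obtain ⟨V, _, G, r, I, δ, a1, a2, a3, a4, a5, a6, a7, a8, a9, a10, a11, a12⟩ := h
  obtain ⟨C', ⟨W, _, H, t, J, ε, b1, b2, b3, b4, b5, b6, b7, b8, b9, b10, b11, b12⟩,
    c1, c2, c3⟩ := h'
  rw [if_neg hd] at c3
  let K : SimpleGraph (V ⊕ W) := (G ⊕g H) ⊔ edge (Sum.inl r) (Sum.inr t)
  have ll : ∀ x y, K.Adj (.inl x) (.inl y) ↔ G.Adj x y := by intro x y; simp [K, edge_adj]
  have rr : ∀ x y, K.Adj (.inr x) (.inr y) ↔ H.Adj x y := by intro x y; simp [K, edge_adj]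
  have lr : ∀ x y, K.Adj (.inl x) (.inr y) ↔ x = r ∧ y = t := by intro x y; simp [K, edge_adj]
  have rl : ∀ x y, K.Adj (.inr y) (.inl x) ↔ x = r ∧ y = t := by
    intro x y; rw [K.adj_comm, lr]
  have n1 : ∀ x ≠ r, K.neighborSet (.inl x) = Sum.inl '' G.neighborSet x := by
    intro x hx; ext (y | y) <;> simp [ll, lr, hx]
  have n2 : ∀ y ≠ t, K.neighborSet (.inr y) = Sum.inr '' H.neighborSet y := by
    intro y hy; ext (x | x) <;> simp [rr, rl, hy]
  have n3 : K.neighborSet (.inl r) = insert (.inr t) (Sum.inl '' G.neighborSet r) := by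
    ext (y | y) <;> simp [ll, lr]
  have n4 : K.neighborSet (.inr t) = insert (.inl r) (Sum.inr '' H.neighborSet t) := by
    ext (y | y) <;> simp [rr, rl]
  refine ⟨V ⊕ W, inferInstance, K, .inl r, Sum.inl '' I ∪ Sum.inr '' J, Sum.elim δ ε,
    a1.sum_sup_edge b1, by rw [Nat.card_sum, a2, b2], ?_, ?_, ?_, by simp [a6], a7, ?_, ?_, ?_,
    ?_, ?_⟩
  · have e1 : K.edgeSet = insert s(Sum.inl r, Sum.inr t) (G ⊕g H).edgeSet := by
      simp only [K, edgeSet_sup, edgeSet_edge_of_ne (Sum.inl_ne_inr), Set.union_singleton]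
    have e2 : Nat.card (G ⊕g H).edgeSet = Nat.card G.edgeSet + Nat.card H.edgeSet := by
      rw [Nat.card_congr edgeSetSumEquiv, Nat.card_sum]
    rw [e1, Nat.card_coe_set_eq, Set.ncard_insert_of_notMem (by simp), ← Nat.card_coe_set_eq, e2]
    omega
  · rw [Set.ncard_union_eq (by simp [Set.disjoint_left]),
      Set.ncard_image_of_injective _ Sum.inl_injective,
      Set.ncard_image_of_injective _ Sum.inr_injective, a4, b4]
  · rintro _ (⟨x, hx, rfl⟩ | ⟨x, hx, rfl⟩) _ (⟨y, hy, rfl⟩ | ⟨y, hy, rfl⟩) hne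
    · rw [ll]; exact a5 hx hy fun h => hne (h ▸ rfl)
    · rw [lr]; rintro ⟨rfl, rfl⟩; exact hs ⟨a6.1 hx, b6.1 hy⟩
    · rw [rl]; rintro ⟨rfl, rfl⟩; exact hs ⟨a6.1 hy, b6.1 hx⟩
    · rw [rr]; exact b5 hx hy fun h => hne (h ▸ rfl)
  · rintro (x | y) hv
    · have hx : x ≠ r := fun h => hv (h ▸ rfl)
      rw [n1 x hx, Set.ncard_image_of_injective _ Sum.inl_injective]
      exact a8 x hx
    · by_cases hy : y = t
      · rw [hy, n4, Set.ncard_insert_of_notMem (by simp),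
          Set.ncard_image_of_injective _ Sum.inr_injective, b9, c3]
        exact b7
      · rw [n2 y hy, Set.ncard_image_of_injective _ Sum.inr_injective]
        exact b8 y hy
  · rw [n3, Set.ncard_insert_of_notMem (by simp),
      Set.ncard_image_of_injective _ Sum.inl_injective, a9, List.length_cons]
  · rintro (x | y) hu
    · exact List.mem_cons_of_mem _ (a10 x ((ll _ _).1 hu))
    · rw [((lr _ _).1 hu).2]
      simp [b7]
  · intro hnd
    obtain ⟨d1, d2⟩ := List.nodup_cons.1 hnd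
    rintro (x | x) (y | y) hx hy he
    · rw [a11 d2 x y ((ll _ _).1 hx) ((ll _ _).1 hy) he]
    · rw [((lr _ _).1 hy).2] at he
      have := a10 x ((ll _ _).1 hx)
      simp only [Sum.elim_inl, Sum.elim_inr, b7] at he
      exact absurd (he ▸ this) d1
    · rw [((lr _ _).1 hx).2] at he
      have := a10 y ((ll _ _).1 hy)
      simp only [Sum.elim_inl, Sum.elim_inr, b7] at he
      exact absurd (he ▸ this) d1
    · rw [((lr _ _).1 hx).2, ((lr _ _).1 hy).2]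
  · rintro (v | v) hv (x | x) (y | y) hx hy he
    · rw [a12 v (fun h => hv (h ▸ rfl)) x y ((ll _ _).1 hx) ((ll _ _).1 hy) he]
    · exact absurd (((lr _ _).1 hy).1 ▸ rfl) hv
    · exact absurd (((lr _ _).1 hx).1 ▸ rfl) hv
    · exact absurd (((lr _ _).1 hx).1 ▸ rfl) hv
    · rw [((rl _ _).1 hx).1, ((rl _ _).1 hy).1]
    · obtain ⟨rfl, rfl⟩ := (rl _ _).1 hx
      have := b10 y ((rr _ _).1 hy)
      simp only [Sum.elim_inl, Sum.elim_inr, a7] at he
      exact absurd (he ▸ this) c2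
    · obtain ⟨rfl, rfl⟩ := (rl _ _).1 hy
      have := b10 x ((rr _ _).1 hx)
      simp only [Sum.elim_inl, Sum.elim_inr, a7] at he
      exact absurd (he ▸ this) c2
    · by_cases hvt : v = t
      · subst hvt
        rw [b11 c1 x y ((rr _ _).1 hx) ((rr _ _).1 hy) he]
      · rw [b12 v hvt x y ((rr _ _).1 hx) ((rr _ _).1 hy) he]

/-- There is a highly irregular tree of order `n` with independence number at least `a`. -/
def Ok (n a : ℕ) : Prop :=
  ∃ G : SimpleGraph (Fin n), G.IsTree ∧ HighlyIrregular G ∧ a ≤ G.indepNum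

theorem ok_of_R {d N A : ℕ} {s : Bool} (h : R d 0 s N A) : Ok N A := by
  classical
  obtain ⟨C, ⟨V, _, G, r, I, δ, a1, a2, a3, a4, a5, -, a7, a8, a9, -, a11, a12⟩, c1, -, c3⟩ := h
  have hδ : ∀ v, δ v = (G.neighborSet v).ncard := by
    intro v
    by_cases hv : v = r
    · rw [hv, a7, a9, ← c3]; simp
    · exact a8 v hv
  have hT : G.IsTree := isTree_iff_connected_and_card.2 ⟨a1, by rw [a2, a3]⟩
  let e : Fin N ≃ V := (Finite.equivFinOfCardEq a2).symm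
  have hnb : ∀ x, ((G.comap e).neighborSet x).ncard = (G.neighborSet (e x)).ncard := by
    intro x
    rw [← Set.ncard_image_of_injective _ e.injective]
    congr 1
    ext y
    simp only [Set.mem_image, mem_neighborSet, comap_adj]
    exact ⟨fun ⟨z, h1, h2⟩ => h2 ▸ h1, fun h => ⟨e.symm y, by simpa using h, by simp⟩⟩
  refine ⟨G.comap e, (Iso.comap e G).isTree_iff.2 hT, ?_, ?_⟩
  · intro v u w hu hw hne he
    rw [hnb, hnb, ← hδ, ← hδ] at he
    refine hne (e.injective ?_)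
    by_cases hv : e v = r
    · exact a11 c1 _ _ (hv ▸ hu) (hv ▸ hw) he
    · exact a12 _ hv _ _ hu hw he
  · have h1 : (G.comap e).IsIndepSet (↑((Set.toFinite (e ⁻¹' I)).toFinset) : Set (Fin N)) := by
      rw [Set.Finite.coe_toFinset]
      intro x hx y hy hne
      exact a5 hx hy fun h => hne (e.injective h)
    refine le_trans (le_of_eq ?_) h1.card_le_indepNum
    rw [← Set.ncard_eq_toFinset_card _ _, ← a4,
      Set.ncard_preimage_of_injective_subset_range e.injective (by simp)]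

/-- A tree (`k = false`), or a tree with a hole for a subtree of type `(4, 5, true)`. -/
def Q (k : Bool) (d p : ℕ) (s : Bool) (n a : ℕ) : Prop :=
  ∀ N₀ A₀, (k = true → R 4 5 true N₀ A₀) →
    R d p s (n + k.toNat * N₀) (a + k.toNat * A₀)

theorem Q_hole : Q true 4 5 true 0 0 := fun _ _ h => by simpa using h rfl

def chk (k : Bool) (d p : ℕ) (s : Bool) (n a : ℕ) (l : List (Bool × ℕ × Bool × ℕ × ℕ)) : Bool :=
  decide ((l.map fun x => x.2.1).Nodup) && !(l.map fun x => x.2.1).contains p &&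
  l.length + (if p = 0 then 0 else 1) == d && (l.all fun x => !(s && x.2.2.1)) &&
  n == 1 + (l.map fun x => x.2.2.2.1).sum && a == s.toNat + (l.map fun x => x.2.2.2.2).sum &&
  k.toNat == (l.map fun x => x.1.toNat).sum

theorem node {k : Bool} {d p : ℕ} {s : Bool} {n a : ℕ} (l : List (Bool × ℕ × Bool × ℕ × ℕ))
    (h : ∀ x ∈ l, Q x.1 x.2.1 d x.2.2.1 x.2.2.2.1 x.2.2.2.2)
    (hc : chk k d p s n a l = true) : Q k d p s n a := by
  simp only [chk, Bool.and_eq_true, decide_eq_true_eq, Bool.not_eq_true', beq_iff_eq,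
    List.all_eq_true] at hc
  obtain ⟨⟨⟨⟨⟨⟨c1, c2⟩, c3⟩, c4⟩, c5⟩, c6⟩, c7⟩ := hc
  intro N₀ A₀ h0
  have key : ∀ l' : List (Bool × ℕ × Bool × ℕ × ℕ), (∀ x ∈ l', x ∈ l) →
      Part d s (l'.map fun x => x.2.1)
        (1 + (l'.map fun x => x.2.2.2.1).sum + (l'.map fun x => x.1.toNat).sum * N₀)
        (s.toNat + (l'.map fun x => x.2.2.2.2).sum + (l'.map fun x => x.1.toNat).sum * A₀) := by
    intro l'
    induction l' with
    | nil => intro _; simpa using P_start d s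
    | cons x l' ih =>
      intro hl
      have hx := hl x List.mem_cons_self
      have h1 := ih fun y hy => hl y (List.mem_cons_of_mem _ hy)
      have h2 := h x hx N₀ A₀ (fun hk => h0 (by
        have : x.1.toNat ≤ (l.map fun x => x.1.toNat).sum :=
          List.single_le_sum (fun _ _ => Nat.zero_le _) _ (List.mem_map_of_mem hx)
        rw [← c7, hk] at this
        cases k
        · simp at this
        · rfl))
      have hd : d ≠ 0 := by
        have := List.length_pos_of_mem hx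
        omega
      have h3 := P_attach hd h1 h2 (by have := c4 x hx; simpa using this)
      simp only [List.map_cons, List.sum_cons]
      convert h3 using 1 <;> ring
  refine ⟨_, by rw [c5, c6, c7]; exact key l fun _ h => h, c1, ?_, by simpa using c3⟩
  intro hp
  rw [List.contains_iff_mem.2 hp] at c2
  exact absurd c2 (by simp)

theorem pump (hcyc : Q true 4 5 true 254 158) {d n a n₀ a₀ : ℕ} {s : Bool}
    (h : Q true d 0 s n a) (h₀ : Q false 4 5 true n₀ a₀) (j : ℕ) :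
    Ok (n + n₀ + 254 * j) (a + a₀ + 158 * j) := by
  have key : ∀ j, R 4 5 true (n₀ + 254 * j) (a₀ + 158 * j) := by
    intro j
    induction j with
    | zero => simpa using h₀ 0 0 (by simp)
    | succ j ih =>
      have := hcyc _ _ fun _ => ih
      convert this using 1 <;> simp <;> ring
  have := ok_of_R (h _ _ fun _ => key j)
  convert this using 1 <;> simp <;> ring

theorem exact_ok {d n a : ℕ} {s : Bool} (h : Q false d 0 s n a) : Ok n a := by
  simpa using ok_of_R (h 0 0 (by simp))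

def AllPump (l : List (ℕ × ℕ)) : Prop := ∀ x ∈ l, ∀ j, Ok (x.1 + 254 * j) (x.2 + 158 * j)
def AllOk (l : List (ℕ × ℕ)) : Prop := ∀ x ∈ l, Ok x.1 x.2

theorem AllPump.nil : AllPump [] := fun _ h => absurd h List.not_mem_nil
theorem AllOk.nil : AllOk [] := fun _ h => absurd h List.not_mem_nil

theorem AllPump.cons {n a : ℕ} {l : List (ℕ × ℕ)}
    (h : ∀ j, Ok (n + 254 * j) (a + 158 * j)) (hl : AllPump l) : AllPump ((n, a) :: l) :=
  List.forall_mem_cons.2 ⟨h, hl⟩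

theorem AllOk.cons {n a : ℕ} {l : List (ℕ × ℕ)} (h : Ok n a) (hl : AllOk l) :
    AllOk ((n, a) :: l) := List.forall_mem_cons.2 ⟨h, hl⟩

theorem AllPump.append {l l' : List (ℕ × ℕ)} (h : AllPump l) (h' : AllPump l') :
    AllPump (l ++ l') := List.forall_mem_append.2 ⟨h, h'⟩

theorem node0 {k s : Bool} {d p n a : ℕ} 
    
    (hc : chk k d p s n a [] = true) : Q k d p s n a :=
  node _ (fun _ h => absurd h List.not_mem_nil) hc

theorem node1 {k s : Bool} {d p n a : ℕ} {k0 s0 : Bool} {c0 n0 a0 : ℕ}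
    (h0 : Q k0 c0 d s0 n0 a0)
    (hc : chk k d p s n a [(k0, c0, s0, n0, a0)] = true) : Q k d p s n a :=
  node _ (List.forall_mem_cons.2 ⟨h0, (fun _ h => absurd h List.not_mem_nil)⟩) hc

theorem node2 {k s : Bool} {d p n a : ℕ} {k0 s0 : Bool} {c0 n0 a0 : ℕ} {k1 s1 : Bool} {c1 n1 a1 : ℕ}
    (h0 : Q k0 c0 d s0 n0 a0) (h1 : Q k1 c1 d s1 n1 a1)
    (hc : chk k d p s n a [(k0, c0, s0, n0, a0), (k1, c1, s1, n1, a1)] = true) : Q k d p s n a :=
  node _ (List.forall_mem_cons.2 ⟨h0, (List.forall_mem_cons.2 ⟨h1, (fun _ h => absurd h List.not_mem_nil)⟩)⟩) hc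

theorem node3 {k s : Bool} {d p n a : ℕ} {k0 s0 : Bool} {c0 n0 a0 : ℕ} {k1 s1 : Bool} {c1 n1 a1 : ℕ} {k2 s2 : Bool} {c2 n2 a2 : ℕ}
    (h0 : Q k0 c0 d s0 n0 a0) (h1 : Q k1 c1 d s1 n1 a1) (h2 : Q k2 c2 d s2 n2 a2)
    (hc : chk k d p s n a [(k0, c0, s0, n0, a0), (k1, c1, s1, n1, a1), (k2, c2, s2, n2, a2)] = true) : Q k d p s n a :=
  node _ (List.forall_mem_cons.2 ⟨h0, (List.forall_mem_cons.2 ⟨h1, (List.forall_mem_cons.2 ⟨h2, (fun _ h => absurd h List.not_mem_nil)⟩)⟩)⟩) hc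

theorem node4 {k s : Bool} {d p n a : ℕ} {k0 s0 : Bool} {c0 n0 a0 : ℕ} {k1 s1 : Bool} {c1 n1 a1 : ℕ} {k2 s2 : Bool} {c2 n2 a2 : ℕ} {k3 s3 : Bool} {c3 n3 a3 : ℕ}
    (h0 : Q k0 c0 d s0 n0 a0) (h1 : Q k1 c1 d s1 n1 a1) (h2 : Q k2 c2 d s2 n2 a2) (h3 : Q k3 c3 d s3 n3 a3)
    (hc : chk k d p s n a [(k0, c0, s0, n0, a0), (k1, c1, s1, n1, a1), (k2, c2, s2, n2, a2), (k3, c3, s3, n3, a3)] = true) : Q k d p s n a :=
  node _ (List.forall_mem_cons.2 ⟨h0, (List.forall_mem_cons.2 ⟨h1, (List.forall_mem_cons.2 ⟨h2, (List.forall_mem_cons.2 ⟨h3, (fun _ h => absurd h List.not_mem_nil)⟩)⟩)⟩)⟩) hc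

theorem node5 {k s : Bool} {d p n a : ℕ} {k0 s0 : Bool} {c0 n0 a0 : ℕ} {k1 s1 : Bool} {c1 n1 a1 : ℕ} {k2 s2 : Bool} {c2 n2 a2 : ℕ} {k3 s3 : Bool} {c3 n3 a3 : ℕ} {k4 s4 : Bool} {c4 n4 a4 : ℕ}
    (h0 : Q k0 c0 d s0 n0 a0) (h1 : Q k1 c1 d s1 n1 a1) (h2 : Q k2 c2 d s2 n2 a2) (h3 : Q k3 c3 d s3 n3 a3) (h4 : Q k4 c4 d s4 n4 a4)
    (hc : chk k d p s n a [(k0, c0, s0, n0, a0), (k1, c1, s1, n1, a1), (k2, c2, s2, n2, a2), (k3, c3, s3, n3, a3), (k4, c4, s4, n4, a4)] = true) : Q k d p s n a :=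
  node _ (List.forall_mem_cons.2 ⟨h0, (List.forall_mem_cons.2 ⟨h1, (List.forall_mem_cons.2 ⟨h2, (List.forall_mem_cons.2 ⟨h3, (List.forall_mem_cons.2 ⟨h4, (fun _ h => absurd h List.not_mem_nil)⟩)⟩)⟩)⟩)⟩) hc

theorem node6 {k s : Bool} {d p n a : ℕ} {k0 s0 : Bool} {c0 n0 a0 : ℕ} {k1 s1 : Bool} {c1 n1 a1 : ℕ} {k2 s2 : Bool} {c2 n2 a2 : ℕ} {k3 s3 : Bool} {c3 n3 a3 : ℕ} {k4 s4 : Bool} {c4 n4 a4 : ℕ} {k5 s5 : Bool} {c5 n5 a5 : ℕ}
    (h0 : Q k0 c0 d s0 n0 a0) (h1 : Q k1 c1 d s1 n1 a1) (h2 : Q k2 c2 d s2 n2 a2) (h3 : Q k3 c3 d s3 n3 a3) (h4 : Q k4 c4 d s4 n4 a4) (h5 : Q k5 c5 d s5 n5 a5)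
    (hc : chk k d p s n a [(k0, c0, s0, n0, a0), (k1, c1, s1, n1, a1), (k2, c2, s2, n2, a2), (k3, c3, s3, n3, a3), (k4, c4, s4, n4, a4), (k5, c5, s5, n5, a5)] = true) : Q k d p s n a :=
  node _ (List.forall_mem_cons.2 ⟨h0, (List.forall_mem_cons.2 ⟨h1, (List.forall_mem_cons.2 ⟨h2, (List.forall_mem_cons.2 ⟨h3, (List.forall_mem_cons.2 ⟨h4, (List.forall_mem_cons.2 ⟨h5, (fun _ h => absurd h List.not_mem_nil)⟩)⟩)⟩)⟩)⟩)⟩) hc

theorem node7 {k s : Bool} {d p n a : ℕ} {k0 s0 : Bool} {c0 n0 a0 : ℕ} {k1 s1 : Bool} {c1 n1 a1 : ℕ} {k2 s2 : Bool} {c2 n2 a2 : ℕ} {k3 s3 : Bool} {c3 n3 a3 : ℕ} {k4 s4 : Bool} {c4 n4 a4 : ℕ} {k5 s5 : Bool} {c5 n5 a5 : ℕ} {k6 s6 : Bool} {c6 n6 a6 : ℕ}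
    (h0 : Q k0 c0 d s0 n0 a0) (h1 : Q k1 c1 d s1 n1 a1) (h2 : Q k2 c2 d s2 n2 a2) (h3 : Q k3 c3 d s3 n3 a3) (h4 : Q k4 c4 d s4 n4 a4) (h5 : Q k5 c5 d s5 n5 a5) (h6 : Q k6 c6 d s6 n6 a6)
    (hc : chk k d p s n a [(k0, c0, s0, n0, a0), (k1, c1, s1, n1, a1), (k2, c2, s2, n2, a2), (k3, c3, s3, n3, a3), (k4, c4, s4, n4, a4), (k5, c5, s5, n5, a5), (k6, c6, s6, n6, a6)] = true) : Q k d p s n a :=
  node _ (List.forall_mem_cons.2 ⟨h0, (List.forall_mem_cons.2 ⟨h1, (List.forall_mem_cons.2 ⟨h2, (List.forall_mem_cons.2 ⟨h3, (List.forall_mem_cons.2 ⟨h4, (List.forall_mem_cons.2 ⟨h5, (List.forall_mem_cons.2 ⟨h6, (fun _ h => absurd h List.not_mem_nil)⟩)⟩)⟩)⟩)⟩)⟩)⟩) hc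

end Pool.Agent.P.MP_913bbb_co
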