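import Mathlib
import Pool.Agent.P.MP_913bbb_co.Build

namespace Pool.Agent.P.MP_913bbb_co

theorem q0 : Q true 4 5 true 0 0 := Q_hole
theorem q1 : Q false 1 2 true 1 1 := node0 rfl
theorem q2 : Q false 2 2 false 2 1 := node1 q1 rfl
theorem q3 : Q false 2 3 true 3 2 := node1 q2 rfl
theorem q4 : Q false 1 3 true 1 1 := node0 rfl
theorem q5 : Q false 3 3 false 5 3 := node2 q3 q4 rfl
theorem q6 : Q false 2 3 false 2 1 := node1 q1 rfl
theorem q7 : Q false 3 4 true 8 5 := node2 q5 q6 rfl
theorem q8 : Q false 2 4 true 3 2 := node1 q2 rfl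
theorem q9 : Q false 1 4 true 1 1 := node0 rfl
theorem q10 : Q false 4 4 false 13 8 := node3 q7 q8 q9 rfl
theorem q11 : Q false 4 3 false 18 11 := node3 q10 q8 q9 rfl
theorem q12 : Q false 3 5 true 24 15 := node2 q11 q5 rfl
theorem q13 : Q false 2 5 true 3 2 := node1 q2 rfl
theorem q14 : Q false 1 5 true 1 1 := node0 rfl
theorem q15 : Q true 5 6 false 29 18 := node4 q0 q12 q13 q14 rfl
theorem q16 : Q false 3 4 false 5 3 := node2 q3 q4 rfl
theorem q17 : Q false 2 4 false 2 1 := node1 q1 rfl
theorem q18 : Q false 4 5 true 21 13 := node3 q10 q16 q17 rfl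
theorem q19 : Q false 5 5 false 50 31 := node4 q18 q12 q13 q14 rfl
theorem q20 : Q false 5 4 false 79 49 := node4 q19 q12 q13 q14 rfl
theorem q21 : Q false 4 6 true 98 61 := node3 q20 q10 q16 rfl
theorem q22 : Q false 3 6 true 24 15 := node2 q11 q5 rfl
theorem q23 : Q false 2 6 true 3 2 := node1 q2 rfl
theorem q24 : Q false 1 6 true 1 1 := node0 rfl
theorem q25 : Q true 6 6 false 156 97 := node5 q15 q21 q22 q23 q24 rfl
theorem q26 : Q false 5 6 false 50 31 := node4 q18 q12 q13 q14 rfl
theorem q27 : Q true 6 4 false 235 146 := node5 q25 q26 q22 q23 q24 rfl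
theorem q28 : Q true 4 5 true 254 158 := node3 q27 q10 q16 rfl
theorem q29 : Q false 1 4 false 1 0 := node0 rfl
theorem q30 : Q false 4 5 true 9 5 := node3 q16 q17 q29 rfl
theorem q31 : Q true 5 3 false 55 34 := node4 q19 q0 q13 q14 rfl
theorem q32 : Q true 3 4 true 61 38 := node2 q31 q5 rfl
theorem q33 : Q true 4 4 false 66 41 := node3 q32 q8 q9 rfl
theorem q34 : Q true 4 5 true 74 46 := node3 q33 q16 q17 rfl
theorem q35 : Q true 5 3 false 129 80 := node4 q19 q34 q13 q14 rfl
theorem q36 : Q true 3 4 true 135 84 := node2 q35 q5 rfl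
theorem q37 : Q true 4 5 false 140 87 := node3 q36 q8 q9 rfl
theorem q38 : Q true 5 3 false 195 121 := node4 q19 q37 q13 q14 rfl
theorem q39 : Q true 3 4 true 201 125 := node2 q38 q5 rfl
theorem q40 : Q true 4 2 false 216 134 := node3 q10 q39 q9 rfl
theorem q41 : Q true 2 3 true 217 135 := node1 q40 rfl
theorem q42 : Q true 3 3 false 219 136 := node2 q41 q4 rfl
theorem q43 : Q true 3 4 true 222 138 := node2 q42 q6 rfl
theorem q44 : Q true 4 2 false 237 147 := node3 q10 q43 q9 rfl
theorem q45 : Q true 2 3 true 238 148 := node1 q44 rfl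
theorem q46 : Q true 3 3 false 240 149 := node2 q45 q4 rfl
theorem q47 : Q true 3 2 false 242 150 := node2 q46 q4 rfl
theorem q48 : Q true 2 2 true 243 151 := node1 q47 rfl
theorem q49 : Q true 2 1 false 244 151 := node1 q48 rfl
theorem q50 : Q true 1 0 true 245 152 := node1 q49 rfl
theorem q51 : Q false 4 4 false 10 6 := node3 q16 q8 q9 rfl
theorem q52 : Q false 4 5 true 18 11 := node3 q51 q16 q17 rfl
theorem q53 : Q false 4 5 false 13 8 := node3 q7 q8 q9 rfl
theorem q54 : Q false 5 3 false 68 42 := node4 q19 q53 q13 q14 rfl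
theorem q55 : Q false 3 4 true 74 46 := node2 q54 q5 rfl
theorem q56 : Q false 4 5 false 79 49 := node3 q55 q8 q9 rfl
theorem q57 : Q false 5 3 false 134 83 := node4 q19 q56 q13 q14 rfl
theorem q58 : Q false 3 4 true 140 87 := node2 q57 q5 rfl
theorem q59 : Q false 4 2 false 155 96 := node3 q10 q58 q9 rfl
theorem q60 : Q false 2 3 true 156 97 := node1 q59 rfl
theorem q61 : Q false 3 3 false 158 98 := node2 q60 q4 rfl
theorem q62 : Q false 3 4 true 161 100 := node2 q61 q6 rfl
theorem q63 : Q true 4 2 false 229 142 := node3 q33 q62 q9 rfl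
theorem q64 : Q true 2 3 true 230 143 := node1 q63 rfl
theorem q65 : Q true 3 3 false 232 144 := node2 q64 q4 rfl
theorem q66 : Q true 3 2 false 234 145 := node2 q65 q4 rfl
theorem q67 : Q true 2 2 true 235 146 := node1 q66 rfl
theorem q68 : Q true 2 1 false 236 146 := node1 q67 rfl
theorem q69 : Q true 1 0 true 237 147 := node1 q68 rfl
theorem q70 : Q false 3 4 false 4 2 := node2 q6 q4 rfl
theorem q71 : Q false 4 5 true 8 4 := node3 q70 q17 q29 rfl
theorem q72 : Q false 5 3 false 76 47 := node4 q19 q18 q13 q14 rfl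
theorem q73 : Q false 3 4 true 82 51 := node2 q72 q5 rfl
theorem q74 : Q false 4 4 false 87 54 := node3 q73 q8 q9 rfl
theorem q75 : Q false 4 5 true 95 59 := node3 q74 q16 q17 rfl
theorem q76 : Q false 5 3 false 150 93 := node4 q19 q75 q13 q14 rfl
theorem q77 : Q false 3 4 true 156 97 := node2 q76 q5 rfl
theorem q78 : Q false 4 4 false 161 100 := node3 q77 q8 q9 rfl
theorem q79 : Q false 4 3 false 166 103 := node3 q78 q8 q9 rfl
theorem q80 : Q false 3 3 true 169 105 := node2 q79 q6 rfl
theorem q81 : Q false 3 2 false 171 106 := node2 q80 q4 rfl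
theorem q82 : Q false 2 4 true 172 107 := node1 q81 rfl
theorem q83 : Q true 4 3 false 240 149 := node3 q33 q82 q9 rfl
theorem q84 : Q true 3 3 true 243 151 := node2 q83 q6 rfl
theorem q85 : Q true 3 2 false 245 152 := node2 q84 q4 rfl
theorem q86 : Q true 2 2 true 246 153 := node1 q85 rfl
theorem q87 : Q true 2 1 false 247 153 := node1 q86 rfl
theorem q88 : Q true 1 0 true 248 154 := node1 q87 rfl
theorem q89 : Q false 1 1 true 1 1 := node0 rfl
theorem q90 : Q false 1 0 false 2 1 := node1 q89 rfl
theorem q91 : Q false 4 5 false 87 54 := node3 q73 q8 q9 rfl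
theorem q92 : Q false 5 3 false 142 88 := node4 q19 q91 q13 q14 rfl
theorem q93 : Q false 3 4 true 148 92 := node2 q92 q5 rfl
theorem q94 : Q false 4 4 false 153 95 := node3 q93 q8 q9 rfl
theorem q95 : Q false 4 3 false 158 98 := node3 q94 q8 q9 rfl
theorem q96 : Q false 3 3 true 161 100 := node2 q95 q6 rfl
theorem q97 : Q false 3 2 false 163 101 := node2 q96 q4 rfl
theorem q98 : Q false 2 4 true 164 102 := node1 q97 rfl
theorem q99 : Q true 4 3 false 232 144 := node3 q33 q98 q9 rfl
theorem q100 : Q true 3 3 true 235 146 := node2 q99 q6 rfl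
theorem q101 : Q true 3 2 false 237 147 := node2 q100 q4 rfl
theorem q102 : Q true 2 2 true 238 148 := node1 q101 rfl
theorem q103 : Q true 2 1 false 239 148 := node1 q102 rfl
theorem q104 : Q true 1 0 true 240 149 := node1 q103 rfl
theorem q105 : Q false 2 1 true 3 2 := node1 q2 rfl
theorem q106 : Q false 1 0 false 4 2 := node1 q105 rfl
theorem q107 : Q false 4 2 false 171 106 := node3 q10 q77 q9 rfl
theorem q108 : Q false 2 3 true 172 107 := node1 q107 rfl
theorem q109 : Q false 3 4 false 174 108 := node2 q108 q4 rfl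
theorem q110 : Q true 4 2 false 242 150 := node3 q33 q109 q9 rfl
theorem q111 : Q true 2 3 true 243 151 := node1 q110 rfl
theorem q112 : Q true 3 3 false 245 152 := node2 q111 q4 rfl
theorem q113 : Q true 3 2 false 247 153 := node2 q112 q4 rfl
theorem q114 : Q true 2 2 true 248 154 := node1 q113 rfl
theorem q115 : Q true 2 1 false 249 154 := node1 q114 rfl
theorem q116 : Q true 1 0 true 250 155 := node1 q115 rfl
theorem q117 : Q false 4 2 false 163 101 := node3 q10 q93 q9 rfl
theorem q118 : Q false 2 3 true 164 102 := node1 q117 rfl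
theorem q119 : Q false 3 4 false 166 103 := node2 q118 q4 rfl
theorem q120 : Q true 4 2 false 234 145 := node3 q33 q119 q9 rfl
theorem q121 : Q true 2 3 true 235 146 := node1 q120 rfl
theorem q122 : Q true 3 3 false 237 147 := node2 q121 q4 rfl
theorem q123 : Q true 3 2 false 239 148 := node2 q122 q4 rfl
theorem q124 : Q true 2 2 true 240 149 := node1 q123 rfl
theorem q125 : Q true 2 1 false 241 149 := node1 q124 rfl
theorem q126 : Q true 1 0 true 242 150 := node1 q125 rfl
theorem q127 : Q false 3 3 false 174 108 := node2 q108 q4 rfl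
theorem q128 : Q false 3 4 true 177 110 := node2 q127 q6 rfl
theorem q129 : Q true 4 2 false 245 152 := node3 q33 q128 q9 rfl
theorem q130 : Q true 2 3 true 246 153 := node1 q129 rfl
theorem q131 : Q true 3 3 false 248 154 := node2 q130 q4 rfl
theorem q132 : Q true 3 2 false 250 155 := node2 q131 q4 rfl
theorem q133 : Q true 2 2 true 251 156 := node1 q132 rfl
theorem q134 : Q true 2 1 false 252 156 := node1 q133 rfl
theorem q135 : Q true 1 0 true 253 157 := node1 q134 rfl
theorem q136 : Q false 3 3 false 4 2 := node2 q6 q4 rfl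
theorem q137 : Q false 3 2 false 6 3 := node2 q136 q4 rfl
theorem q138 : Q false 2 1 true 7 4 := node1 q137 rfl
theorem q139 : Q false 1 0 false 8 4 := node1 q138 rfl
theorem q140 : Q false 3 2 false 7 4 := node2 q5 q4 rfl
theorem q141 : Q false 2 1 true 8 5 := node1 q140 rfl
theorem q142 : Q false 1 0 false 9 5 := node1 q141 rfl
theorem q143 : Q false 4 6 true 21 13 := node3 q10 q16 q17 rfl
theorem q144 : Q true 6 6 false 79 49 := node5 q15 q143 q22 q23 q24 rfl
theorem q145 : Q true 6 4 false 158 98 := node5 q144 q26 q22 q23 q24 rfl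
theorem q146 : Q true 4 5 true 177 110 := node3 q145 q10 q16 rfl
theorem q147 : Q true 5 3 false 232 144 := node4 q19 q146 q13 q14 rfl
theorem q148 : Q true 3 4 true 238 148 := node2 q147 q5 rfl
theorem q149 : Q true 4 4 false 243 151 := node3 q148 q8 q9 rfl
theorem q150 : Q true 4 3 false 248 154 := node3 q149 q8 q9 rfl
theorem q151 : Q true 3 3 true 251 156 := node2 q150 q6 rfl
theorem q152 : Q true 3 2 false 253 157 := node2 q151 q4 rfl
theorem q153 : Q true 2 2 true 254 158 := node1 q152 rfl
theorem q154 : Q true 2 1 false 255 158 := node1 q153 rfl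
theorem q155 : Q true 1 0 true 256 159 := node1 q154 rfl
theorem q156 : Q false 2 2 true 8 5 := node1 q140 rfl
theorem q157 : Q false 2 1 false 9 5 := node1 q156 rfl
theorem q158 : Q false 1 0 true 10 6 := node1 q157 rfl
theorem q159 : Q false 4 2 false 176 109 := node3 q10 q62 q9 rfl
theorem q160 : Q false 2 3 true 177 110 := node1 q159 rfl
theorem q161 : Q false 3 3 false 179 111 := node2 q160 q4 rfl
theorem q162 : Q false 3 4 true 182 113 := node2 q161 q6 rfl
theorem q163 : Q true 4 2 false 250 155 := node3 q33 q162 q9 rfl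
theorem q164 : Q true 2 3 true 251 156 := node1 q163 rfl
theorem q165 : Q true 3 3 false 253 157 := node2 q164 q4 rfl
theorem q166 : Q true 3 2 false 255 158 := node2 q165 q4 rfl
theorem q167 : Q true 2 2 true 256 159 := node1 q166 rfl
theorem q168 : Q true 2 1 false 257 159 := node1 q167 rfl
theorem q169 : Q true 1 0 true 258 160 := node1 q168 rfl
theorem q170 : Q false 2 2 true 7 4 := node1 q137 rfl
theorem q171 : Q false 2 3 false 8 4 := node1 q170 rfl
theorem q172 : Q false 3 3 false 10 5 := node2 q171 q4 rfl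
theorem q173 : Q false 3 2 false 12 6 := node2 q172 q4 rfl
theorem q174 : Q false 2 1 true 13 7 := node1 q173 rfl
theorem q175 : Q false 1 0 false 14 7 := node1 q174 rfl
theorem q176 : Q false 2 3 false 9 5 := node1 q156 rfl
theorem q177 : Q false 3 3 false 11 6 := node2 q176 q4 rfl
theorem q178 : Q false 3 2 false 13 7 := node2 q177 q4 rfl
theorem q179 : Q false 2 1 true 14 8 := node1 q178 rfl
theorem q180 : Q false 1 0 false 15 8 := node1 q179 rfl
theorem q181 : Q true 4 2 false 253 157 := node3 q149 q7 q9 rfl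
theorem q182 : Q true 2 3 true 254 158 := node1 q181 rfl
theorem q183 : Q true 3 3 false 256 159 := node2 q182 q4 rfl
theorem q184 : Q true 3 2 false 258 160 := node2 q183 q4 rfl
theorem q185 : Q true 2 2 true 259 161 := node1 q184 rfl
theorem q186 : Q true 2 1 false 260 161 := node1 q185 rfl
theorem q187 : Q true 1 0 true 261 162 := node1 q186 rfl
theorem q188 : Q false 3 1 true 15 9 := node2 q5 q176 rfl
theorem q189 : Q false 1 0 false 16 9 := node1 q188 rfl
theorem q190 : Q false 4 4 false 8 4 := node3 q70 q17 q9 rfl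
theorem q191 : Q false 4 3 false 13 7 := node3 q190 q8 q9 rfl
theorem q192 : Q false 3 2 false 15 8 := node2 q191 q4 rfl
theorem q193 : Q false 2 1 true 16 9 := node1 q192 rfl
theorem q194 : Q false 1 0 false 17 9 := node1 q193 rfl
theorem q195 : Q true 3 2 true 254 158 := node2 q150 q5 rfl
theorem q196 : Q true 2 2 false 255 158 := node1 q195 rfl
theorem q197 : Q true 2 3 true 256 159 := node1 q196 rfl
theorem q198 : Q true 3 3 false 258 160 := node2 q197 q4 rfl
theorem q199 : Q true 3 2 false 260 161 := node2 q198 q4 rfl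
theorem q200 : Q true 2 2 true 261 162 := node1 q199 rfl
theorem q201 : Q true 2 1 false 262 162 := node1 q200 rfl
theorem q202 : Q true 1 0 true 263 163 := node1 q201 rfl
theorem q203 : Q false 4 3 false 14 8 := node3 q51 q17 q9 rfl
theorem q204 : Q false 3 2 false 16 9 := node2 q203 q4 rfl
theorem q205 : Q false 2 1 true 17 10 := node1 q204 rfl
theorem q206 : Q false 1 0 false 18 10 := node1 q205 rfl
theorem q207 : Q false 4 5 true 17 10 := node3 q51 q70 q17 rfl
theorem q208 : Q false 4 3 false 15 9 := node3 q51 q8 q9 rfl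
theorem q209 : Q false 3 2 false 17 10 := node2 q208 q4 rfl
theorem q210 : Q false 2 1 true 18 11 := node1 q209 rfl
theorem q211 : Q false 1 0 false 19 11 := node1 q210 rfl
theorem q212 : Q false 2 2 true 18 11 := node1 q209 rfl
theorem q213 : Q false 2 1 false 19 11 := node1 q212 rfl
theorem q214 : Q false 1 0 true 20 12 := node1 q213 rfl
theorem q215 : Q false 3 3 false 166 103 := node2 q118 q4 rfl
theorem q216 : Q false 3 4 true 169 105 := node2 q215 q6 rfl
theorem q217 : Q false 4 2 false 184 114 := node3 q10 q216 q9 rfl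
theorem q218 : Q false 2 3 true 185 115 := node1 q217 rfl
theorem q219 : Q false 3 3 false 187 116 := node2 q218 q4 rfl
theorem q220 : Q false 3 4 true 190 118 := node2 q219 q6 rfl
theorem q221 : Q true 4 2 false 258 160 := node3 q33 q220 q9 rfl
theorem q222 : Q true 2 3 true 259 161 := node1 q221 rfl
theorem q223 : Q true 3 3 false 261 162 := node2 q222 q4 rfl
theorem q224 : Q true 3 2 false 263 163 := node2 q223 q4 rfl
theorem q225 : Q true 2 2 true 264 164 := node1 q224 rfl
theorem q226 : Q true 2 1 false 265 164 := node1 q225 rfl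
theorem q227 : Q true 1 0 true 266 165 := node1 q226 rfl
theorem q228 : Q false 3 3 false 17 10 := node2 q208 q4 rfl
theorem q229 : Q false 3 2 false 19 11 := node2 q228 q4 rfl
theorem q230 : Q false 2 1 true 20 12 := node1 q229 rfl
theorem q231 : Q false 1 0 false 21 12 := node1 q230 rfl
theorem q232 : Q false 3 3 true 18 11 := node2 q208 q6 rfl
theorem q233 : Q false 3 2 false 20 12 := node2 q232 q4 rfl
theorem q234 : Q false 2 1 true 21 13 := node1 q233 rfl
theorem q235 : Q false 1 0 false 22 13 := node1 q234 rfl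
theorem q236 : Q false 2 2 true 21 13 := node1 q233 rfl
theorem q237 : Q false 2 1 false 22 13 := node1 q236 rfl
theorem q238 : Q false 1 0 true 23 14 := node1 q237 rfl
theorem q239 : Q false 4 3 false 187 116 := node3 q10 q82 q9 rfl
theorem q240 : Q false 3 3 true 190 118 := node2 q239 q6 rfl
theorem q241 : Q false 3 2 false 192 119 := node2 q240 q4 rfl
theorem q242 : Q false 2 4 true 193 120 := node1 q241 rfl
theorem q243 : Q true 4 3 false 261 162 := node3 q33 q242 q9 rfl
theorem q244 : Q true 3 3 true 264 164 := node2 q243 q6 rfl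
theorem q245 : Q true 3 2 false 266 165 := node2 q244 q4 rfl
theorem q246 : Q true 2 2 true 267 166 := node1 q245 rfl
theorem q247 : Q true 2 1 false 268 166 := node1 q246 rfl
theorem q248 : Q true 1 0 true 269 167 := node1 q247 rfl
theorem q249 : Q false 3 2 true 21 13 := node2 q208 q5 rfl
theorem q250 : Q false 2 2 false 22 13 := node1 q249 rfl
theorem q251 : Q false 2 1 true 23 14 := node1 q250 rfl
theorem q252 : Q false 1 0 false 24 14 := node1 q251 rfl
theorem q253 : Q false 3 3 true 21 13 := node2 q11 q6 rfl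
theorem q254 : Q false 3 2 false 23 14 := node2 q253 q4 rfl
theorem q255 : Q false 2 1 true 24 15 := node1 q254 rfl
theorem q256 : Q false 1 0 false 25 15 := node1 q255 rfl
theorem q257 : Q false 4 2 false 192 119 := node3 q10 q128 q9 rfl
theorem q258 : Q false 2 3 true 193 120 := node1 q257 rfl
theorem q259 : Q false 3 4 false 195 121 := node2 q258 q4 rfl
theorem q260 : Q true 4 2 false 263 163 := node3 q33 q259 q9 rfl
theorem q261 : Q true 2 3 true 264 164 := node1 q260 rfl
theorem q262 : Q true 3 3 false 266 165 := node2 q261 q4 rfl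
theorem q263 : Q true 3 2 false 268 166 := node2 q262 q4 rfl
theorem q264 : Q true 2 2 true 269 167 := node1 q263 rfl
theorem q265 : Q true 2 1 false 270 167 := node1 q264 rfl
theorem q266 : Q true 1 0 true 271 168 := node1 q265 rfl
theorem q267 : Q false 2 2 true 24 15 := node1 q254 rfl
theorem q268 : Q false 2 1 false 25 15 := node1 q267 rfl
theorem q269 : Q false 1 0 true 26 16 := node1 q268 rfl
theorem q270 : Q false 3 2 true 24 15 := node2 q11 q5 rfl
theorem q271 : Q false 2 2 false 25 15 := node1 q270 rfl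
theorem q272 : Q false 2 1 true 26 16 := node1 q271 rfl
theorem q273 : Q false 1 0 false 27 16 := node1 q272 rfl
theorem q274 : Q false 4 2 false 20 12 := node3 q51 q7 q9 rfl
theorem q275 : Q false 2 3 true 21 13 := node1 q274 rfl
theorem q276 : Q false 3 3 false 23 14 := node2 q275 q4 rfl
theorem q277 : Q false 3 2 false 25 15 := node2 q276 q4 rfl
theorem q278 : Q false 2 2 true 26 16 := node1 q277 rfl
theorem q279 : Q false 2 1 false 27 16 := node1 q278 rfl
theorem q280 : Q false 1 0 true 28 17 := node1 q279 rfl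
theorem q281 : Q false 3 3 false 195 121 := node2 q258 q4 rfl
theorem q282 : Q false 3 4 true 198 123 := node2 q281 q6 rfl
theorem q283 : Q true 4 2 false 266 165 := node3 q33 q282 q9 rfl
theorem q284 : Q true 2 3 true 267 166 := node1 q283 rfl
theorem q285 : Q true 3 3 false 269 167 := node2 q284 q4 rfl
theorem q286 : Q true 3 2 false 271 168 := node2 q285 q4 rfl
theorem q287 : Q true 2 2 true 272 169 := node1 q286 rfl
theorem q288 : Q true 2 1 false 273 169 := node1 q287 rfl
theorem q289 : Q true 1 0 true 274 170 := node1 q288 rfl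
theorem q290 : Q false 2 4 true 8 5 := node1 q140 rfl
theorem q291 : Q false 4 3 false 20 12 := node3 q51 q290 q9 rfl
theorem q292 : Q false 3 2 true 26 16 := node2 q291 q5 rfl
theorem q293 : Q false 2 2 false 27 16 := node1 q292 rfl
theorem q294 : Q false 2 1 true 28 17 := node1 q293 rfl
theorem q295 : Q false 1 0 false 29 17 := node1 q294 rfl
theorem q296 : Q false 4 2 false 23 14 := node3 q10 q7 q9 rfl
theorem q297 : Q false 2 3 true 24 15 := node1 q296 rfl
theorem q298 : Q false 3 3 false 26 16 := node2 q297 q4 rfl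
theorem q299 : Q false 3 2 false 28 17 := node2 q298 q4 rfl
theorem q300 : Q false 2 1 true 29 18 := node1 q299 rfl
theorem q301 : Q false 1 0 false 30 18 := node1 q300 rfl
theorem q302 : Q false 6 7 false 177 110 := node5 q26 q21 q22 q23 q24 rfl
theorem q303 : Q false 6 6 false 177 110 := node5 q26 q21 q22 q23 q24 rfl
theorem q304 : Q false 6 5 false 304 189 := node5 q303 q21 q22 q23 q24 rfl
theorem q305 : Q false 3 5 false 5 3 := node2 q3 q4 rfl
theorem q306 : Q false 5 7 true 373 232 := node4 q304 q19 q53 q305 rfl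
theorem q307 : Q false 4 7 true 98 61 := node3 q20 q10 q16 rfl
theorem q308 : Q false 3 7 true 24 15 := node2 q11 q5 rfl
theorem q309 : Q false 2 7 true 3 2 := node1 q2 rfl
theorem q310 : Q false 1 7 true 1 1 := node0 rfl
theorem q311 : Q false 7 7 false 677 421 := node6 q302 q306 q307 q308 q309 q310 rfl
theorem q312 : Q false 6 7 false 304 189 := node5 q303 q21 q22 q23 q24 rfl
theorem q313 : Q false 7 5 false 1108 689 := node6 q311 q312 q307 q308 q309 q310 rfl
theorem q314 : Q false 5 6 true 1177 732 := node4 q313 q19 q53 q305 rfl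
theorem q315 : Q true 6 4 false 1362 847 := node5 q25 q314 q22 q23 q24 rfl
theorem q316 : Q true 4 5 true 1381 859 := node3 q315 q10 q16 rfl
theorem q317 : Q true 5 3 false 1436 893 := node4 q19 q316 q13 q14 rfl
theorem q318 : Q true 3 4 true 1442 897 := node2 q317 q5 rfl
theorem q319 : Q true 4 4 false 1447 900 := node3 q318 q8 q9 rfl
theorem q320 : Q true 4 5 true 1455 905 := node3 q319 q16 q17 rfl
theorem q321 : Q true 5 3 false 1510 939 := node4 q19 q320 q13 q14 rfl
theorem q322 : Q true 3 4 true 1516 943 := node2 q321 q5 rfl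
theorem q323 : Q true 4 4 false 1521 946 := node3 q322 q8 q9 rfl
theorem q324 : Q true 4 3 false 1526 949 := node3 q323 q8 q9 rfl
theorem q325 : Q true 3 3 true 1529 951 := node2 q324 q6 rfl
theorem q326 : Q true 3 2 false 1531 952 := node2 q325 q4 rfl
theorem q327 : Q true 2 2 true 1532 953 := node1 q326 rfl
theorem q328 : Q true 2 1 false 1533 953 := node1 q327 rfl
theorem q329 : Q true 1 0 true 1534 954 := node1 q328 rfl
theorem q330 : Q false 2 2 true 29 18 := node1 q299 rfl
theorem q331 : Q false 2 1 false 30 18 := node1 q330 rfl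
theorem q332 : Q false 1 0 true 31 19 := node1 q331 rfl
theorem q333 : Q false 4 5 true 169 105 := node3 q78 q16 q17 rfl
theorem q334 : Q false 5 3 false 224 139 := node4 q19 q333 q13 q14 rfl
theorem q335 : Q false 3 4 true 230 143 := node2 q334 q5 rfl
theorem q336 : Q false 4 2 false 245 152 := node3 q10 q335 q9 rfl
theorem q337 : Q false 2 3 true 246 153 := node1 q336 rfl
theorem q338 : Q false 3 3 false 248 154 := node2 q337 q4 rfl
theorem q339 : Q false 3 4 true 251 156 := node2 q338 q6 rfl
theorem q340 : Q false 4 2 false 263 163 := node3 q51 q339 q9 rfl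
theorem q341 : Q false 2 3 true 264 164 := node1 q340 rfl
theorem q342 : Q false 3 3 false 266 165 := node2 q341 q4 rfl
theorem q343 : Q false 3 2 true 282 175 := node2 q208 q342 rfl
theorem q344 : Q false 2 2 false 283 175 := node1 q343 rfl
theorem q345 : Q false 2 1 true 284 176 := node1 q344 rfl
theorem q346 : Q false 1 0 false 285 176 := node1 q345 rfl
theorem q347 : Q false 6 4 false 256 159 := node5 q303 q26 q22 q23 q24 rfl
theorem q348 : Q false 4 5 true 275 171 := node3 q347 q10 q16 rfl
theorem q349 : Q false 5 3 false 330 205 := node4 q19 q348 q13 q14 rfl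
theorem q350 : Q false 3 4 true 336 209 := node2 q349 q5 rfl
theorem q351 : Q false 4 4 false 341 212 := node3 q350 q8 q9 rfl
theorem q352 : Q false 4 5 true 349 217 := node3 q351 q16 q17 rfl
theorem q353 : Q false 5 3 false 404 251 := node4 q19 q352 q13 q14 rfl
theorem q354 : Q false 3 4 true 410 255 := node2 q353 q5 rfl
theorem q355 : Q false 4 4 false 415 258 := node3 q354 q8 q9 rfl
theorem q356 : Q false 4 5 true 423 263 := node3 q355 q16 q17 rfl
theorem q357 : Q false 5 3 false 478 297 := node4 q19 q356 q13 q14 rfl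
theorem q358 : Q false 3 4 true 484 301 := node2 q357 q5 rfl
theorem q359 : Q false 4 2 false 499 310 := node3 q10 q358 q9 rfl
theorem q360 : Q false 2 3 true 500 311 := node1 q359 rfl
theorem q361 : Q false 3 3 false 502 312 := node2 q360 q4 rfl
theorem q362 : Q false 3 4 true 505 314 := node2 q361 q6 rfl
theorem q363 : Q false 4 2 false 517 321 := node3 q51 q362 q9 rfl
theorem q364 : Q false 2 3 true 518 322 := node1 q363 rfl
theorem q365 : Q false 3 3 false 520 323 := node2 q364 q4 rfl
theorem q366 : Q false 3 2 true 536 333 := node2 q208 q365 rfl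
theorem q367 : Q false 2 2 false 537 333 := node1 q366 rfl
theorem q368 : Q false 2 1 true 538 334 := node1 q367 rfl
theorem q369 : Q false 1 0 false 539 334 := node1 q368 rfl
theorem q370 : Q false 5 6 false 304 189 := node4 q348 q12 q13 q14 rfl
theorem q371 : Q false 6 4 false 510 317 := node5 q303 q370 q22 q23 q24 rfl
theorem q372 : Q false 4 5 true 529 329 := node3 q371 q10 q16 rfl
theorem q373 : Q false 5 3 false 584 363 := node4 q19 q372 q13 q14 rfl
theorem q374 : Q false 3 4 true 590 367 := node2 q373 q5 rfl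
theorem q375 : Q false 4 4 false 595 370 := node3 q374 q8 q9 rfl
theorem q376 : Q false 4 5 true 603 375 := node3 q375 q16 q17 rfl
theorem q377 : Q false 5 3 false 658 409 := node4 q19 q376 q13 q14 rfl
theorem q378 : Q false 3 4 true 664 413 := node2 q377 q5 rfl
theorem q379 : Q false 4 4 false 669 416 := node3 q378 q8 q9 rfl
theorem q380 : Q false 4 5 true 677 421 := node3 q379 q16 q17 rfl
theorem q381 : Q false 5 3 false 732 455 := node4 q19 q380 q13 q14 rfl
theorem q382 : Q false 3 4 true 738 459 := node2 q381 q5 rfl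
theorem q383 : Q false 4 2 false 753 468 := node3 q10 q382 q9 rfl
theorem q384 : Q false 2 3 true 754 469 := node1 q383 rfl
theorem q385 : Q false 3 3 false 756 470 := node2 q384 q4 rfl
theorem q386 : Q false 3 4 true 759 472 := node2 q385 q6 rfl
theorem q387 : Q false 4 2 false 771 479 := node3 q51 q386 q9 rfl
theorem q388 : Q false 2 3 true 772 480 := node1 q387 rfl
theorem q389 : Q false 3 3 false 774 481 := node2 q388 q4 rfl
theorem q390 : Q false 3 2 true 790 491 := node2 q208 q389 rfl
theorem q391 : Q false 2 2 false 791 491 := node1 q390 rfl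
theorem q392 : Q false 2 1 true 792 492 := node1 q391 rfl
theorem q393 : Q false 1 0 false 793 492 := node1 q392 rfl
theorem q394 : Q false 5 6 false 558 347 := node4 q372 q12 q13 q14 rfl
theorem q395 : Q false 6 4 false 764 475 := node5 q303 q394 q22 q23 q24 rfl
theorem q396 : Q false 4 5 true 783 487 := node3 q395 q10 q16 rfl
theorem q397 : Q false 5 3 false 838 521 := node4 q19 q396 q13 q14 rfl
theorem q398 : Q false 3 4 true 844 525 := node2 q397 q5 rfl
theorem q399 : Q false 4 4 false 849 528 := node3 q398 q8 q9 rfl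
theorem q400 : Q false 4 5 true 857 533 := node3 q399 q16 q17 rfl
theorem q401 : Q false 5 3 false 912 567 := node4 q19 q400 q13 q14 rfl
theorem q402 : Q false 3 4 true 918 571 := node2 q401 q5 rfl
theorem q403 : Q false 4 4 false 923 574 := node3 q402 q8 q9 rfl
theorem q404 : Q false 4 5 true 931 579 := node3 q403 q16 q17 rfl
theorem q405 : Q false 5 3 false 986 613 := node4 q19 q404 q13 q14 rfl
theorem q406 : Q false 3 4 true 992 617 := node2 q405 q5 rfl
theorem q407 : Q false 4 2 false 1007 626 := node3 q10 q406 q9 rfl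
theorem q408 : Q false 2 3 true 1008 627 := node1 q407 rfl
theorem q409 : Q false 3 3 false 1010 628 := node2 q408 q4 rfl
theorem q410 : Q false 3 4 true 1013 630 := node2 q409 q6 rfl
theorem q411 : Q false 4 2 false 1025 637 := node3 q51 q410 q9 rfl
theorem q412 : Q false 2 3 true 1026 638 := node1 q411 rfl
theorem q413 : Q false 3 3 false 1028 639 := node2 q412 q4 rfl
theorem q414 : Q false 3 2 true 1044 649 := node2 q208 q413 rfl
theorem q415 : Q false 2 2 false 1045 649 := node1 q414 rfl
theorem q416 : Q false 2 1 true 1046 650 := node1 q415 rfl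
theorem q417 : Q false 1 0 false 1047 650 := node1 q416 rfl
theorem q418 : Q false 5 6 false 812 505 := node4 q396 q12 q13 q14 rfl
theorem q419 : Q false 6 4 false 1018 633 := node5 q303 q418 q22 q23 q24 rfl
theorem q420 : Q false 4 5 true 1037 645 := node3 q419 q10 q16 rfl
theorem q421 : Q false 5 3 false 1092 679 := node4 q19 q420 q13 q14 rfl
theorem q422 : Q false 3 4 true 1098 683 := node2 q421 q5 rfl
theorem q423 : Q false 4 4 false 1103 686 := node3 q422 q8 q9 rfl
theorem q424 : Q false 4 5 true 1111 691 := node3 q423 q16 q17 rfl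
theorem q425 : Q false 5 3 false 1166 725 := node4 q19 q424 q13 q14 rfl
theorem q426 : Q false 3 4 true 1172 729 := node2 q425 q5 rfl
theorem q427 : Q false 4 4 false 1177 732 := node3 q426 q8 q9 rfl
theorem q428 : Q false 4 5 true 1185 737 := node3 q427 q16 q17 rfl
theorem q429 : Q false 5 3 false 1240 771 := node4 q19 q428 q13 q14 rfl
theorem q430 : Q false 3 4 true 1246 775 := node2 q429 q5 rfl
theorem q431 : Q false 4 2 false 1261 784 := node3 q10 q430 q9 rfl
theorem q432 : Q false 2 3 true 1262 785 := node1 q431 rfl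
theorem q433 : Q false 3 3 false 1264 786 := node2 q432 q4 rfl
theorem q434 : Q false 3 4 true 1267 788 := node2 q433 q6 rfl
theorem q435 : Q false 4 2 false 1279 795 := node3 q51 q434 q9 rfl
theorem q436 : Q false 2 3 true 1280 796 := node1 q435 rfl
theorem q437 : Q false 3 3 false 1282 797 := node2 q436 q4 rfl
theorem q438 : Q false 3 2 true 1298 807 := node2 q208 q437 rfl
theorem q439 : Q false 2 2 false 1299 807 := node1 q438 rfl
theorem q440 : Q false 2 1 true 1300 808 := node1 q439 rfl
theorem q441 : Q false 1 0 false 1301 808 := node1 q440 rfl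
theorem q442 : Q false 2 4 true 24 15 := node1 q254 rfl
theorem q443 : Q true 4 3 false 269 167 := node3 q149 q442 q9 rfl
theorem q444 : Q true 3 3 true 272 169 := node2 q443 q6 rfl
theorem q445 : Q true 3 2 false 274 170 := node2 q444 q4 rfl
theorem q446 : Q true 2 2 true 275 171 := node1 q445 rfl
theorem q447 : Q true 2 1 false 276 171 := node1 q446 rfl
theorem q448 : Q true 1 0 true 277 172 := node1 q447 rfl
theorem q449 : Q false 4 3 false 23 14 := node3 q10 q290 q9 rfl
theorem q450 : Q false 3 2 true 29 18 := node2 q449 q5 rfl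
theorem q451 : Q false 2 2 false 30 18 := node1 q450 rfl
theorem q452 : Q false 2 1 true 31 19 := node1 q451 rfl
theorem q453 : Q false 1 0 false 32 19 := node1 q452 rfl
theorem q454 : Q false 2 3 true 26 16 := node1 q271 rfl
theorem q455 : Q false 3 3 false 28 17 := node2 q454 q4 rfl
theorem q456 : Q false 3 2 false 30 18 := node2 q455 q4 rfl
theorem q457 : Q false 2 2 true 31 19 := node1 q456 rfl
theorem q458 : Q false 2 1 false 32 19 := node1 q457 rfl
theorem q459 : Q false 1 0 true 33 20 := node1 q458 rfl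
theorem q460 : Q false 4 2 false 197 122 := node3 q10 q162 q9 rfl
theorem q461 : Q false 2 3 true 198 123 := node1 q460 rfl
theorem q462 : Q false 3 3 false 200 124 := node2 q461 q4 rfl
theorem q463 : Q false 3 4 true 203 126 := node2 q462 q6 rfl
theorem q464 : Q true 4 2 false 271 168 := node3 q33 q463 q9 rfl
theorem q465 : Q true 2 3 true 272 169 := node1 q464 rfl
theorem q466 : Q true 3 3 false 274 170 := node2 q465 q4 rfl
theorem q467 : Q true 3 2 false 276 171 := node2 q466 q4 rfl
theorem q468 : Q true 2 2 true 277 172 := node1 q467 rfl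
theorem q469 : Q true 2 1 false 278 172 := node1 q468 rfl
theorem q470 : Q true 1 0 true 279 173 := node1 q469 rfl
theorem q471 : Q false 4 4 false 15 9 := node3 q16 q290 q9 rfl
theorem q472 : Q false 4 3 false 25 15 := node3 q471 q290 q9 rfl
theorem q473 : Q false 3 2 true 31 19 := node2 q472 q5 rfl
theorem q474 : Q false 2 2 false 32 19 := node1 q473 rfl
theorem q475 : Q false 2 1 true 33 20 := node1 q474 rfl
theorem q476 : Q false 1 0 false 34 20 := node1 q475 rfl
theorem q477 : Q false 4 4 false 18 11 := node3 q7 q290 q9 rfl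
theorem q478 : Q false 4 2 false 28 17 := node3 q477 q7 q9 rfl
theorem q479 : Q false 2 3 true 29 18 := node1 q478 rfl
theorem q480 : Q false 3 3 false 31 19 := node2 q479 q4 rfl
theorem q481 : Q false 3 2 false 33 20 := node2 q480 q4 rfl
theorem q482 : Q false 2 1 true 34 21 := node1 q481 rfl
theorem q483 : Q false 1 0 false 35 21 := node1 q482 rfl
theorem q484 : Q false 2 2 true 34 21 := node1 q481 rfl
theorem q485 : Q false 2 1 false 35 21 := node1 q484 rfl
theorem q486 : Q false 1 0 true 36 22 := node1 q485 rfl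
theorem q487 : Q false 4 5 false 145 90 := node3 q58 q8 q9 rfl
theorem q488 : Q false 5 3 false 200 124 := node4 q19 q487 q13 q14 rfl
theorem q489 : Q false 3 4 true 206 128 := node2 q488 q5 rfl
theorem q490 : Q true 4 2 false 274 170 := node3 q33 q489 q9 rfl
theorem q491 : Q true 2 3 true 275 171 := node1 q490 rfl
theorem q492 : Q true 3 3 false 277 172 := node2 q491 q4 rfl
theorem q493 : Q true 3 2 false 279 173 := node2 q492 q4 rfl
theorem q494 : Q true 2 2 true 280 174 := node1 q493 rfl
theorem q495 : Q true 2 1 false 281 174 := node1 q494 rfl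
theorem q496 : Q true 1 0 true 282 175 := node1 q495 rfl
theorem q497 : Q false 4 3 false 28 17 := node3 q477 q290 q9 rfl
theorem q498 : Q false 3 2 true 34 21 := node2 q497 q5 rfl
theorem q499 : Q false 2 2 false 35 21 := node1 q498 rfl
theorem q500 : Q false 2 1 true 36 22 := node1 q499 rfl
theorem q501 : Q false 1 0 false 37 22 := node1 q500 rfl
theorem q502 : Q false 2 3 true 31 19 := node1 q451 rfl
theorem q503 : Q false 3 3 false 33 20 := node2 q502 q4 rfl
theorem q504 : Q false 3 2 false 35 21 := node2 q503 q4 rfl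
theorem q505 : Q false 2 2 true 36 22 := node1 q504 rfl
theorem q506 : Q false 2 1 false 37 22 := node1 q505 rfl
theorem q507 : Q false 1 0 true 38 23 := node1 q506 rfl
theorem q508 : Q true 5 5 false 10 6 := node4 q0 q305 q13 q14 rfl
theorem q509 : Q true 5 4 false 20 12 := node4 q508 q305 q13 q14 rfl
theorem q510 : Q true 4 3 false 25 15 := node3 q509 q8 q9 rfl
theorem q511 : Q true 3 2 false 27 16 := node2 q510 q4 rfl
theorem q512 : Q true 2 2 true 28 17 := node1 q511 rfl
theorem q513 : Q true 2 1 false 29 17 := node1 q512 rfl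
theorem q514 : Q true 1 0 true 30 18 := node1 q513 rfl
theorem q515 : Q true 4 5 false 206 128 := node3 q39 q8 q9 rfl
theorem q516 : Q true 5 3 false 261 162 := node4 q19 q515 q13 q14 rfl
theorem q517 : Q true 3 4 true 267 166 := node2 q516 q5 rfl
theorem q518 : Q true 4 4 false 272 169 := node3 q517 q8 q9 rfl
theorem q519 : Q true 4 3 false 277 172 := node3 q518 q8 q9 rfl
theorem q520 : Q true 3 3 true 280 174 := node2 q519 q6 rfl
theorem q521 : Q true 3 2 false 282 175 := node2 q520 q4 rfl
theorem q522 : Q true 2 2 true 283 176 := node1 q521 rfl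
theorem q523 : Q true 2 1 false 284 176 := node1 q522 rfl
theorem q524 : Q true 1 0 true 285 177 := node1 q523 rfl
theorem q525 : Q false 2 4 true 21 13 := node1 q233 rfl
theorem q526 : Q false 4 3 false 33 20 := node3 q51 q525 q9 rfl
theorem q527 : Q false 3 3 true 36 22 := node2 q526 q6 rfl
theorem q528 : Q false 3 2 false 38 23 := node2 q527 q4 rfl
theorem q529 : Q false 2 1 true 39 24 := node1 q528 rfl
theorem q530 : Q false 1 0 false 40 24 := node1 q529 rfl
theorem q531 : Q false 2 2 true 39 24 := node1 q528 rfl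
theorem q532 : Q false 2 1 false 40 24 := node1 q531 rfl
theorem q533 : Q false 1 0 true 41 25 := node1 q532 rfl
theorem q534 : Q true 3 3 true 28 17 := node2 q510 q6 rfl
theorem q535 : Q true 3 2 false 30 18 := node2 q534 q4 rfl
theorem q536 : Q true 2 2 true 31 19 := node1 q535 rfl
theorem q537 : Q true 2 1 false 32 19 := node1 q536 rfl
theorem q538 : Q true 1 0 true 33 20 := node1 q537 rfl
theorem q539 : Q false 4 3 false 36 22 := node3 q51 q442 q9 rfl
theorem q540 : Q false 3 3 true 39 24 := node2 q539 q6 rfl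
theorem q541 : Q false 3 2 false 41 25 := node2 q540 q4 rfl
theorem q542 : Q false 2 1 true 42 26 := node1 q541 rfl
theorem q543 : Q false 1 0 false 43 26 := node1 q542 rfl
theorem q544 : Q false 2 2 true 42 26 := node1 q541 rfl
theorem q545 : Q false 2 1 false 43 26 := node1 q544 rfl
theorem q546 : Q false 1 0 true 44 27 := node1 q545 rfl
theorem q547 : Q false 3 5 true 8 5 := node2 q5 q6 rfl
theorem q548 : Q true 5 4 false 23 14 := node4 q508 q547 q13 q14 rfl
theorem q549 : Q true 4 3 false 28 17 := node3 q548 q8 q9 rfl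
theorem q550 : Q true 3 3 true 31 19 := node2 q549 q6 rfl
theorem q551 : Q true 3 2 false 33 20 := node2 q550 q4 rfl
theorem q552 : Q true 2 2 true 34 21 := node1 q551 rfl
theorem q553 : Q true 2 1 false 35 21 := node1 q552 rfl
theorem q554 : Q true 1 0 true 36 22 := node1 q553 rfl
theorem q555 : Q false 4 3 false 39 24 := node3 q10 q442 q9 rfl
theorem q556 : Q false 3 3 true 42 26 := node2 q555 q6 rfl
theorem q557 : Q false 3 2 false 44 27 := node2 q556 q4 rfl
theorem q558 : Q false 2 1 true 45 28 := node1 q557 rfl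
theorem q559 : Q false 1 0 false 46 28 := node1 q558 rfl
theorem q560 : Q true 4 4 false 140 87 := node3 q36 q8 q9 rfl
theorem q561 : Q true 4 5 true 148 92 := node3 q560 q16 q17 rfl
theorem q562 : Q true 5 3 false 203 126 := node4 q19 q561 q13 q14 rfl
theorem q563 : Q true 3 4 true 209 130 := node2 q562 q5 rfl
theorem q564 : Q true 4 5 false 214 133 := node3 q563 q8 q9 rfl
theorem q565 : Q true 5 3 false 269 167 := node4 q19 q564 q13 q14 rfl
theorem q566 : Q true 3 4 true 275 171 := node2 q565 q5 rfl
theorem q567 : Q true 4 4 false 280 174 := node3 q566 q8 q9 rfl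
theorem q568 : Q true 4 3 false 285 177 := node3 q567 q8 q9 rfl
theorem q569 : Q true 3 3 true 288 179 := node2 q568 q6 rfl
theorem q570 : Q true 3 2 false 290 180 := node2 q569 q4 rfl
theorem q571 : Q true 2 2 true 291 181 := node1 q570 rfl
theorem q572 : Q true 2 1 false 292 181 := node1 q571 rfl
theorem q573 : Q true 1 0 true 293 182 := node1 q572 rfl
theorem q574 : Q false 2 2 true 45 28 := node1 q557 rfl
theorem q575 : Q false 2 1 false 46 28 := node1 q574 rfl
theorem q576 : Q false 1 0 true 47 29 := node1 q575 rfl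
theorem q577 : Q true 5 5 false 13 8 := node4 q0 q547 q13 q14 rfl
theorem q578 : Q true 5 4 false 26 16 := node4 q577 q547 q13 q14 rfl
theorem q579 : Q true 4 3 false 31 19 := node3 q578 q8 q9 rfl
theorem q580 : Q true 3 3 true 34 21 := node2 q579 q6 rfl
theorem q581 : Q true 3 2 false 36 22 := node2 q580 q4 rfl
theorem q582 : Q true 2 2 true 37 23 := node1 q581 rfl
theorem q583 : Q true 2 1 false 38 23 := node1 q582 rfl
theorem q584 : Q true 1 0 true 39 24 := node1 q583 rfl
theorem q585 : Q false 3 4 true 29 18 := node2 q298 q6 rfl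
theorem q586 : Q false 4 2 false 41 25 := node3 q51 q585 q9 rfl
theorem q587 : Q false 2 3 true 42 26 := node1 q586 rfl
theorem q588 : Q false 3 3 false 44 27 := node2 q587 q4 rfl
theorem q589 : Q false 3 2 false 46 28 := node2 q588 q4 rfl
theorem q590 : Q false 2 2 true 47 29 := node1 q589 rfl
theorem q591 : Q false 2 1 false 48 29 := node1 q590 rfl
theorem q592 : Q false 1 0 true 49 30 := node1 q591 rfl
theorem q593 : Q true 4 2 false 33 20 := node3 q548 q7 q9 rfl
theorem q594 : Q true 2 3 true 34 21 := node1 q593 rfl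
theorem q595 : Q true 3 3 false 36 22 := node2 q594 q4 rfl
theorem q596 : Q true 3 2 false 38 23 := node2 q595 q4 rfl
theorem q597 : Q true 2 2 true 39 24 := node1 q596 rfl
theorem q598 : Q true 2 1 false 40 24 := node1 q597 rfl
theorem q599 : Q true 1 0 true 41 25 := node1 q598 rfl
theorem q600 : Q false 4 2 false 44 27 := node3 q10 q585 q9 rfl
theorem q601 : Q false 2 3 true 45 28 := node1 q600 rfl
theorem q602 : Q false 3 3 false 47 29 := node2 q601 q4 rfl
theorem q603 : Q false 3 2 false 49 30 := node2 q602 q4 rfl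
theorem q604 : Q false 2 2 true 50 31 := node1 q603 rfl
theorem q605 : Q false 2 1 false 51 31 := node1 q604 rfl
theorem q606 : Q false 1 0 true 52 32 := node1 q605 rfl
theorem q607 : Q true 4 2 false 36 22 := node3 q578 q7 q9 rfl
theorem q608 : Q true 2 3 true 37 23 := node1 q607 rfl
theorem q609 : Q true 3 3 false 39 24 := node2 q608 q4 rfl
theorem q610 : Q true 3 2 false 41 25 := node2 q609 q4 rfl
theorem q611 : Q true 2 2 true 42 26 := node1 q610 rfl
theorem q612 : Q true 2 1 false 43 26 := node1 q611 rfl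
theorem q613 : Q true 1 0 true 44 27 := node1 q612 rfl
theorem q614 : Q true 4 4 true 34 21 := node3 q578 q16 q17 rfl
theorem q615 : Q true 4 3 false 39 24 := node3 q614 q8 q9 rfl
theorem q616 : Q true 3 3 true 42 26 := node2 q615 q6 rfl
theorem q617 : Q true 3 2 false 44 27 := node2 q616 q4 rfl
theorem q618 : Q true 2 2 true 45 28 := node1 q617 rfl
theorem q619 : Q true 2 1 false 46 28 := node1 q618 rfl
theorem q620 : Q true 1 0 true 47 29 := node1 q619 rfl
theorem q621 : Q true 4 2 false 41 25 := node3 q614 q16 q9 rfl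
theorem q622 : Q true 2 3 true 42 26 := node1 q621 rfl
theorem q623 : Q true 3 3 false 44 27 := node2 q622 q4 rfl
theorem q624 : Q true 3 2 false 46 28 := node2 q623 q4 rfl
theorem q625 : Q true 2 2 true 47 29 := node1 q624 rfl
theorem q626 : Q true 2 1 false 48 29 := node1 q625 rfl
theorem q627 : Q true 1 0 true 49 30 := node1 q626 rfl
theorem q628 : Q true 4 2 false 44 27 := node3 q614 q7 q9 rfl
theorem q629 : Q true 2 3 true 45 28 := node1 q628 rfl
theorem q630 : Q true 3 3 false 47 29 := node2 q629 q4 rfl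
theorem q631 : Q true 3 2 false 49 30 := node2 q630 q4 rfl
theorem q632 : Q true 2 2 true 50 31 := node1 q631 rfl
theorem q633 : Q true 2 1 false 51 31 := node1 q632 rfl
theorem q634 : Q true 1 0 true 52 32 := node1 q633 rfl
theorem q635 : Q true 5 3 false 31 19 := node4 q577 q53 q13 q14 rfl
theorem q636 : Q true 3 4 true 37 23 := node2 q635 q5 rfl
theorem q637 : Q true 4 4 false 42 26 := node3 q636 q8 q9 rfl
theorem q638 : Q true 4 3 false 47 29 := node3 q637 q8 q9 rfl
theorem q639 : Q true 3 3 true 50 31 := node2 q638 q6 rfl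
theorem q640 : Q true 3 2 false 52 32 := node2 q639 q4 rfl
theorem q641 : Q true 2 2 true 53 33 := node1 q640 rfl
theorem q642 : Q true 2 1 false 54 33 := node1 q641 rfl
theorem q643 : Q true 1 0 true 55 34 := node1 q642 rfl
theorem q644 : Q true 4 2 false 49 30 := node3 q637 q16 q9 rfl
theorem q645 : Q true 2 3 true 50 31 := node1 q644 rfl
theorem q646 : Q true 3 3 false 52 32 := node2 q645 q4 rfl
theorem q647 : Q true 3 2 false 54 33 := node2 q646 q4 rfl
theorem q648 : Q true 2 2 true 55 34 := node1 q647 rfl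
theorem q649 : Q true 2 1 false 56 34 := node1 q648 rfl
theorem q650 : Q true 1 0 true 57 35 := node1 q649 rfl
theorem q651 : Q true 4 2 false 52 32 := node3 q637 q7 q9 rfl
theorem q652 : Q true 2 3 true 53 33 := node1 q651 rfl
theorem q653 : Q true 3 3 false 55 34 := node2 q652 q4 rfl
theorem q654 : Q true 3 2 false 57 35 := node2 q653 q4 rfl
theorem q655 : Q true 2 2 true 58 36 := node1 q654 rfl
theorem q656 : Q true 2 1 false 59 36 := node1 q655 rfl
theorem q657 : Q true 1 0 true 60 37 := node1 q656 rfl
theorem q658 : Q true 5 3 false 39 24 := node4 q577 q18 q13 q14 rfl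
theorem q659 : Q true 3 4 true 45 28 := node2 q658 q5 rfl
theorem q660 : Q true 4 4 false 50 31 := node3 q659 q8 q9 rfl
theorem q661 : Q true 4 3 false 55 34 := node3 q660 q8 q9 rfl
theorem q662 : Q true 3 3 true 58 36 := node2 q661 q6 rfl
theorem q663 : Q true 3 2 false 60 37 := node2 q662 q4 rfl
theorem q664 : Q true 2 2 true 61 38 := node1 q663 rfl
theorem q665 : Q true 2 1 false 62 38 := node1 q664 rfl
theorem q666 : Q true 1 0 true 63 39 := node1 q665 rfl
theorem q667 : Q true 4 2 false 57 35 := node3 q660 q16 q9 rfl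
theorem q668 : Q true 2 3 true 58 36 := node1 q667 rfl
theorem q669 : Q true 3 3 false 60 37 := node2 q668 q4 rfl
theorem q670 : Q true 3 2 false 62 38 := node2 q669 q4 rfl
theorem q671 : Q true 2 2 true 63 39 := node1 q670 rfl
theorem q672 : Q true 2 1 false 64 39 := node1 q671 rfl
theorem q673 : Q true 1 0 true 65 40 := node1 q672 rfl
theorem q674 : Q true 4 2 false 60 37 := node3 q660 q7 q9 rfl
theorem q675 : Q true 2 3 true 61 38 := node1 q674 rfl
theorem q676 : Q true 3 3 false 63 39 := node2 q675 q4 rfl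
theorem q677 : Q true 3 2 false 65 40 := node2 q676 q4 rfl
theorem q678 : Q true 2 2 true 66 41 := node1 q677 rfl
theorem q679 : Q true 2 1 false 67 41 := node1 q678 rfl
theorem q680 : Q true 1 0 true 68 42 := node1 q679 rfl
theorem q681 : Q true 5 5 false 29 18 := node4 q0 q12 q13 q14 rfl
theorem q682 : Q true 5 3 false 47 29 := node4 q681 q53 q13 q14 rfl
theorem q683 : Q true 3 4 true 53 33 := node2 q682 q5 rfl
theorem q684 : Q true 4 4 false 58 36 := node3 q683 q8 q9 rfl
theorem q685 : Q true 4 3 false 63 39 := node3 q684 q8 q9 rfl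
theorem q686 : Q true 3 3 true 66 41 := node2 q685 q6 rfl
theorem q687 : Q true 3 2 false 68 42 := node2 q686 q4 rfl
theorem q688 : Q true 2 2 true 69 43 := node1 q687 rfl
theorem q689 : Q true 2 1 false 70 43 := node1 q688 rfl
theorem q690 : Q true 1 0 true 71 44 := node1 q689 rfl
theorem q691 : Q true 4 2 false 65 40 := node3 q614 q585 q9 rfl
theorem q692 : Q true 2 3 true 66 41 := node1 q691 rfl
theorem q693 : Q true 3 3 false 68 42 := node2 q692 q4 rfl
theorem q694 : Q true 3 2 false 70 43 := node2 q693 q4 rfl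
theorem q695 : Q true 2 2 true 71 44 := node1 q694 rfl
theorem q696 : Q true 2 1 false 72 44 := node1 q695 rfl
theorem q697 : Q true 1 0 true 73 45 := node1 q696 rfl
theorem q698 : Q true 4 2 false 68 42 := node3 q684 q7 q9 rfl
theorem q699 : Q true 2 3 true 69 43 := node1 q698 rfl
theorem q700 : Q true 3 3 false 71 44 := node2 q699 q4 rfl
theorem q701 : Q true 3 2 false 73 45 := node2 q700 q4 rfl
theorem q702 : Q true 2 2 true 74 46 := node1 q701 rfl
theorem q703 : Q true 2 1 false 75 46 := node1 q702 rfl
theorem q704 : Q true 1 0 true 76 47 := node1 q703 rfl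
theorem q705 : Q true 4 3 false 71 44 := node3 q33 q8 q9 rfl
theorem q706 : Q true 3 3 true 74 46 := node2 q705 q6 rfl
theorem q707 : Q true 3 2 false 76 47 := node2 q706 q4 rfl
theorem q708 : Q true 2 2 true 77 48 := node1 q707 rfl
theorem q709 : Q true 2 1 false 78 48 := node1 q708 rfl
theorem q710 : Q true 1 0 true 79 49 := node1 q709 rfl
theorem q711 : Q true 4 2 false 73 45 := node3 q637 q585 q9 rfl
theorem q712 : Q true 2 3 true 74 46 := node1 q711 rfl
theorem q713 : Q true 3 3 false 76 47 := node2 q712 q4 rfl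
theorem q714 : Q true 3 2 false 78 48 := node2 q713 q4 rfl
theorem q715 : Q true 2 2 true 79 49 := node1 q714 rfl
theorem q716 : Q true 2 1 false 80 49 := node1 q715 rfl
theorem q717 : Q true 1 0 true 81 50 := node1 q716 rfl
theorem q718 : Q true 4 2 false 76 47 := node3 q33 q7 q9 rfl
theorem q719 : Q true 2 3 true 77 48 := node1 q718 rfl
theorem q720 : Q true 3 3 false 79 49 := node2 q719 q4 rfl
theorem q721 : Q true 3 2 false 81 50 := node2 q720 q4 rfl
theorem q722 : Q true 2 2 true 82 51 := node1 q721 rfl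
theorem q723 : Q true 2 1 false 83 51 := node1 q722 rfl
theorem q724 : Q true 1 0 true 84 52 := node1 q723 rfl
theorem q725 : Q true 3 2 true 77 48 := node2 q705 q5 rfl
theorem q726 : Q true 2 2 false 78 48 := node1 q725 rfl
theorem q727 : Q true 2 3 true 79 49 := node1 q726 rfl
theorem q728 : Q true 3 3 false 81 50 := node2 q727 q4 rfl
theorem q729 : Q true 3 2 false 83 51 := node2 q728 q4 rfl
theorem q730 : Q true 2 2 true 84 52 := node1 q729 rfl
theorem q731 : Q true 2 1 false 85 52 := node1 q730 rfl
theorem q732 : Q true 1 0 true 86 53 := node1 q731 rfl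
theorem q733 : Q true 4 2 false 81 50 := node3 q660 q585 q9 rfl
theorem q734 : Q true 2 3 true 82 51 := node1 q733 rfl
theorem q735 : Q true 3 3 false 84 52 := node2 q734 q4 rfl
theorem q736 : Q true 3 2 false 86 53 := node2 q735 q4 rfl
theorem q737 : Q true 2 2 true 87 54 := node1 q736 rfl
theorem q738 : Q true 2 1 false 88 54 := node1 q737 rfl
theorem q739 : Q true 1 0 true 89 55 := node1 q738 rfl
theorem q740 : Q true 4 3 false 84 52 := node3 q684 q442 q9 rfl
theorem q741 : Q true 3 3 true 87 54 := node2 q740 q6 rfl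
theorem q742 : Q true 3 2 false 89 55 := node2 q741 q4 rfl
theorem q743 : Q true 2 2 true 90 56 := node1 q742 rfl
theorem q744 : Q true 2 1 false 91 56 := node1 q743 rfl
theorem q745 : Q true 1 0 true 92 57 := node1 q744 rfl
theorem q746 : Q false 3 4 true 50 31 := node2 q602 q6 rfl
theorem q747 : Q true 4 2 false 86 53 := node3 q614 q746 q9 rfl
theorem q748 : Q true 2 3 true 87 54 := node1 q747 rfl
theorem q749 : Q true 3 3 false 89 55 := node2 q748 q4 rfl
theorem q750 : Q true 3 2 false 91 56 := node2 q749 q4 rfl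
theorem q751 : Q true 2 2 true 92 57 := node1 q750 rfl
theorem q752 : Q true 2 1 false 93 57 := node1 q751 rfl
theorem q753 : Q true 1 0 true 94 58 := node1 q752 rfl
theorem q754 : Q true 4 2 false 89 55 := node3 q684 q585 q9 rfl
theorem q755 : Q true 2 3 true 90 56 := node1 q754 rfl
theorem q756 : Q true 3 3 false 92 57 := node2 q755 q4 rfl
theorem q757 : Q true 3 2 false 94 58 := node2 q756 q4 rfl
theorem q758 : Q true 2 2 true 95 59 := node1 q757 rfl
theorem q759 : Q true 2 1 false 96 59 := node1 q758 rfl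
theorem q760 : Q true 1 0 true 97 60 := node1 q759 rfl
theorem q761 : Q true 4 3 false 92 57 := node3 q33 q442 q9 rfl
theorem q762 : Q true 3 3 true 95 59 := node2 q761 q6 rfl
theorem q763 : Q true 3 2 false 97 60 := node2 q762 q4 rfl
theorem q764 : Q true 2 2 true 98 61 := node1 q763 rfl
theorem q765 : Q true 2 1 false 99 61 := node1 q764 rfl
theorem q766 : Q true 1 0 true 100 62 := node1 q765 rfl
theorem q767 : Q false 5 5 false 26 16 := node4 q53 q547 q13 q14 rfl
theorem q768 : Q false 5 3 false 52 32 := node4 q767 q18 q13 q14 rfl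
theorem q769 : Q false 3 4 true 58 36 := node2 q768 q5 rfl
theorem q770 : Q true 4 2 false 94 58 := node3 q614 q769 q9 rfl
theorem q771 : Q true 2 3 true 95 59 := node1 q770 rfl
theorem q772 : Q true 3 3 false 97 60 := node2 q771 q4 rfl
theorem q773 : Q true 3 2 false 99 61 := node2 q772 q4 rfl
theorem q774 : Q true 2 2 true 100 62 := node1 q773 rfl
theorem q775 : Q true 2 1 false 101 62 := node1 q774 rfl
theorem q776 : Q true 1 0 true 102 63 := node1 q775 rfl
theorem q777 : Q true 4 2 false 97 60 := node3 q33 q585 q9 rfl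
theorem q778 : Q true 2 3 true 98 61 := node1 q777 rfl
theorem q779 : Q true 3 3 false 100 62 := node2 q778 q4 rfl
theorem q780 : Q true 3 2 false 102 63 := node2 q779 q4 rfl
theorem q781 : Q true 2 2 true 103 64 := node1 q780 rfl
theorem q782 : Q true 2 1 false 104 64 := node1 q781 rfl
theorem q783 : Q true 1 0 true 105 65 := node1 q782 rfl
theorem q784 : Q true 3 2 true 98 61 := node2 q705 q298 rfl
theorem q785 : Q true 2 2 false 99 61 := node1 q784 rfl
theorem q786 : Q true 2 3 true 100 62 := node1 q785 rfl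
theorem q787 : Q true 3 3 false 102 63 := node2 q786 q4 rfl
theorem q788 : Q true 3 2 false 104 64 := node2 q787 q4 rfl
theorem q789 : Q true 2 2 true 105 65 := node1 q788 rfl
theorem q790 : Q true 2 1 false 106 65 := node1 q789 rfl
theorem q791 : Q true 1 0 true 107 66 := node1 q790 rfl
theorem q792 : Q false 5 5 false 34 21 := node4 q18 q547 q13 q14 rfl
theorem q793 : Q false 5 3 false 60 37 := node4 q792 q18 q13 q14 rfl
theorem q794 : Q false 3 4 true 66 41 := node2 q793 q5 rfl
theorem q795 : Q true 4 2 false 102 63 := node3 q614 q794 q9 rfl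
theorem q796 : Q true 2 3 true 103 64 := node1 q795 rfl
theorem q797 : Q true 3 3 false 105 65 := node2 q796 q4 rfl
theorem q798 : Q true 3 2 false 107 66 := node2 q797 q4 rfl
theorem q799 : Q true 2 2 true 108 67 := node1 q798 rfl
theorem q800 : Q true 2 1 false 109 67 := node1 q799 rfl
theorem q801 : Q true 1 0 true 110 68 := node1 q800 rfl
theorem q802 : Q false 2 4 true 45 28 := node1 q557 rfl
theorem q803 : Q true 4 3 false 105 65 := node3 q684 q802 q9 rfl
theorem q804 : Q true 3 3 true 108 67 := node2 q803 q6 rfl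
theorem q805 : Q true 3 2 false 110 68 := node2 q804 q4 rfl
theorem q806 : Q true 2 2 true 111 69 := node1 q805 rfl
theorem q807 : Q true 2 1 false 112 69 := node1 q806 rfl
theorem q808 : Q true 1 0 true 113 70 := node1 q807 rfl
theorem q809 : Q false 4 2 false 65 40 := node3 q10 q746 q9 rfl
theorem q810 : Q false 2 3 true 66 41 := node1 q809 rfl
theorem q811 : Q false 3 3 false 68 42 := node2 q810 q4 rfl
theorem q812 : Q false 3 4 true 71 44 := node2 q811 q6 rfl
theorem q813 : Q true 4 2 false 107 66 := node3 q614 q812 q9 rfl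
theorem q814 : Q true 2 3 true 108 67 := node1 q813 rfl
theorem q815 : Q true 3 3 false 110 68 := node2 q814 q4 rfl
theorem q816 : Q true 3 2 false 112 69 := node2 q815 q4 rfl
theorem q817 : Q true 2 2 true 113 70 := node1 q816 rfl
theorem q818 : Q true 2 1 false 114 70 := node1 q817 rfl
theorem q819 : Q true 1 0 true 115 71 := node1 q818 rfl
theorem q820 : Q true 4 2 false 110 68 := node3 q614 q55 q9 rfl
theorem q821 : Q true 2 3 true 111 69 := node1 q820 rfl
theorem q822 : Q true 3 3 false 113 70 := node2 q821 q4 rfl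
theorem q823 : Q true 3 2 false 115 71 := node2 q822 q4 rfl
theorem q824 : Q true 2 2 true 116 72 := node1 q823 rfl
theorem q825 : Q true 2 1 false 117 72 := node1 q824 rfl
theorem q826 : Q true 1 0 true 118 73 := node1 q825 rfl
theorem q827 : Q false 5 6 false 79 49 := node4 q19 q12 q13 q14 rfl
theorem q828 : Q false 6 4 false 285 177 := node5 q303 q827 q22 q23 q24 rfl
theorem q829 : Q false 4 5 true 304 189 := node3 q828 q10 q16 rfl
theorem q830 : Q true 5 3 false 338 210 := node4 q681 q829 q13 q14 rfl
theorem q831 : Q true 3 4 true 344 214 := node2 q830 q5 rfl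
theorem q832 : Q true 4 4 false 349 217 := node3 q831 q8 q9 rfl
theorem q833 : Q true 4 3 false 354 220 := node3 q832 q8 q9 rfl
theorem q834 : Q true 3 3 true 357 222 := node2 q833 q6 rfl
theorem q835 : Q true 3 2 false 359 223 := node2 q834 q4 rfl
theorem q836 : Q true 2 2 true 360 224 := node1 q835 rfl
theorem q837 : Q true 2 1 false 361 224 := node1 q836 rfl
theorem q838 : Q true 1 0 true 362 225 := node1 q837 rfl
theorem q839 : Q false 4 2 false 89 55 := node3 q10 q55 q9 rfl
theorem q840 : Q false 2 3 true 90 56 := node1 q839 rfl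
theorem q841 : Q false 3 3 false 92 57 := node2 q840 q4 rfl
theorem q842 : Q false 3 4 true 95 59 := node2 q841 q6 rfl
theorem q843 : Q false 4 2 false 107 66 := node3 q51 q842 q9 rfl
theorem q844 : Q false 2 3 true 108 67 := node1 q843 rfl
theorem q845 : Q false 3 3 false 110 68 := node2 q844 q4 rfl
theorem q846 : Q false 3 2 true 126 78 := node2 q208 q845 rfl
theorem q847 : Q false 2 2 false 127 78 := node1 q846 rfl
theorem q848 : Q false 2 1 true 128 79 := node1 q847 rfl
theorem q849 : Q false 1 0 false 129 79 := node1 q848 rfl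
theorem q850 : Q true 4 3 false 113 70 := node3 q33 q802 q9 rfl
theorem q851 : Q true 3 3 true 116 72 := node2 q850 q6 rfl
theorem q852 : Q true 3 2 false 118 73 := node2 q851 q4 rfl
theorem q853 : Q true 2 2 true 119 74 := node1 q852 rfl
theorem q854 : Q true 2 1 false 120 74 := node1 q853 rfl
theorem q855 : Q true 1 0 true 121 75 := node1 q854 rfl
theorem q856 : Q false 4 2 false 73 45 := node3 q10 q769 q9 rfl
theorem q857 : Q false 2 3 true 74 46 := node1 q856 rfl
theorem q858 : Q false 3 3 false 76 47 := node2 q857 q4 rfl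
theorem q859 : Q false 3 4 true 79 49 := node2 q858 q6 rfl
theorem q860 : Q true 4 2 false 115 71 := node3 q614 q859 q9 rfl
theorem q861 : Q true 2 3 true 116 72 := node1 q860 rfl
theorem q862 : Q true 3 3 false 118 73 := node2 q861 q4 rfl
theorem q863 : Q true 3 2 false 120 74 := node2 q862 q4 rfl
theorem q864 : Q true 2 2 true 121 75 := node1 q863 rfl
theorem q865 : Q true 2 1 false 122 75 := node1 q864 rfl
theorem q866 : Q true 1 0 true 123 76 := node1 q865 rfl
theorem q867 : Q true 4 2 false 118 73 := node3 q614 q73 q9 rfl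
theorem q868 : Q true 2 3 true 119 74 := node1 q867 rfl
theorem q869 : Q true 3 3 false 121 75 := node2 q868 q4 rfl
theorem q870 : Q true 3 2 false 123 76 := node2 q869 q4 rfl
theorem q871 : Q true 2 2 true 124 77 := node1 q870 rfl
theorem q872 : Q true 2 1 false 125 77 := node1 q871 rfl
theorem q873 : Q true 1 0 true 126 78 := node1 q872 rfl
theorem q874 : Q true 5 3 false 105 65 := node4 q577 q91 q13 q14 rfl
theorem q875 : Q true 3 4 true 111 69 := node2 q874 q5 rfl
theorem q876 : Q true 4 4 false 116 72 := node3 q875 q8 q9 rfl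
theorem q877 : Q true 4 3 false 121 75 := node3 q876 q8 q9 rfl
theorem q878 : Q true 3 3 true 124 77 := node2 q877 q6 rfl
theorem q879 : Q true 3 2 false 126 78 := node2 q878 q4 rfl
theorem q880 : Q true 2 2 true 127 79 := node1 q879 rfl
theorem q881 : Q true 2 1 false 128 79 := node1 q880 rfl
theorem q882 : Q true 1 0 true 129 80 := node1 q881 rfl
theorem q883 : Q false 4 2 false 81 50 := node3 q10 q794 q9 rfl
theorem q884 : Q false 2 3 true 82 51 := node1 q883 rfl
theorem q885 : Q false 3 3 false 84 52 := node2 q884 q4 rfl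
theorem q886 : Q false 3 4 true 87 54 := node2 q885 q6 rfl
theorem q887 : Q true 4 2 false 123 76 := node3 q614 q886 q9 rfl
theorem q888 : Q true 2 3 true 124 77 := node1 q887 rfl
theorem q889 : Q true 3 3 false 126 78 := node2 q888 q4 rfl
theorem q890 : Q true 3 2 false 128 79 := node2 q889 q4 rfl
theorem q891 : Q true 2 2 true 129 80 := node1 q890 rfl
theorem q892 : Q true 2 1 false 130 80 := node1 q891 rfl
theorem q893 : Q true 1 0 true 131 81 := node1 q892 rfl
theorem q894 : Q true 4 2 false 126 78 := node3 q637 q73 q9 rfl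
theorem q895 : Q true 2 3 true 127 79 := node1 q894 rfl
theorem q896 : Q true 3 3 false 129 80 := node2 q895 q4 rfl
theorem q897 : Q true 3 2 false 131 81 := node2 q896 q4 rfl
theorem q898 : Q true 2 2 true 132 82 := node1 q897 rfl
theorem q899 : Q true 2 1 false 133 82 := node1 q898 rfl
theorem q900 : Q true 1 0 true 134 83 := node1 q899 rfl
theorem q901 : Q true 5 3 false 113 70 := node4 q577 q75 q13 q14 rfl
theorem q902 : Q true 3 4 true 119 74 := node2 q901 q5 rfl
theorem q903 : Q true 4 4 false 124 77 := node3 q902 q8 q9 rfl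
theorem q904 : Q true 4 3 false 129 80 := node3 q903 q8 q9 rfl
theorem q905 : Q true 3 3 true 132 82 := node2 q904 q6 rfl
theorem q906 : Q true 3 2 false 134 83 := node2 q905 q4 rfl
theorem q907 : Q true 2 2 true 135 84 := node1 q906 rfl
theorem q908 : Q true 2 1 false 136 84 := node1 q907 rfl
theorem q909 : Q true 1 0 true 137 85 := node1 q908 rfl
theorem q910 : Q true 4 2 false 131 81 := node3 q614 q842 q9 rfl
theorem q911 : Q true 2 3 true 132 82 := node1 q910 rfl
theorem q912 : Q true 3 3 false 134 83 := node2 q911 q4 rfl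
theorem q913 : Q true 3 2 false 136 84 := node2 q912 q4 rfl
theorem q914 : Q true 2 2 true 137 85 := node1 q913 rfl
theorem q915 : Q true 2 1 false 138 85 := node1 q914 rfl
theorem q916 : Q true 1 0 true 139 86 := node1 q915 rfl
theorem q917 : Q true 4 2 false 134 83 := node3 q660 q73 q9 rfl
theorem q918 : Q true 2 3 true 135 84 := node1 q917 rfl
theorem q919 : Q true 3 3 false 137 85 := node2 q918 q4 rfl
theorem q920 : Q true 3 2 false 139 86 := node2 q919 q4 rfl
theorem q921 : Q true 2 2 true 140 87 := node1 q920 rfl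
theorem q922 : Q true 2 1 false 141 87 := node1 q921 rfl
theorem q923 : Q true 1 0 true 142 88 := node1 q922 rfl
theorem q924 : Q true 5 3 false 121 75 := node4 q681 q91 q13 q14 rfl
theorem q925 : Q true 3 4 true 127 79 := node2 q924 q5 rfl
theorem q926 : Q true 4 4 false 132 82 := node3 q925 q8 q9 rfl
theorem q927 : Q true 4 3 false 137 85 := node3 q926 q8 q9 rfl
theorem q928 : Q true 3 3 true 140 87 := node2 q927 q6 rfl
theorem q929 : Q true 3 2 false 142 88 := node2 q928 q4 rfl
theorem q930 : Q true 2 2 true 143 89 := node1 q929 rfl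
theorem q931 : Q true 2 1 false 144 89 := node1 q930 rfl
theorem q932 : Q true 1 0 true 145 90 := node1 q931 rfl
theorem q933 : Q false 4 2 false 97 60 := node3 q10 q73 q9 rfl
theorem q934 : Q false 2 3 true 98 61 := node1 q933 rfl
theorem q935 : Q false 3 3 false 100 62 := node2 q934 q4 rfl
theorem q936 : Q false 3 4 true 103 64 := node2 q935 q6 rfl
theorem q937 : Q true 4 2 false 139 86 := node3 q614 q936 q9 rfl
theorem q938 : Q true 2 3 true 140 87 := node1 q937 rfl
theorem q939 : Q true 3 3 false 142 88 := node2 q938 q4 rfl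
theorem q940 : Q true 3 2 false 144 89 := node2 q939 q4 rfl
theorem q941 : Q true 2 2 true 145 90 := node1 q940 rfl
theorem q942 : Q true 2 1 false 146 90 := node1 q941 rfl
theorem q943 : Q true 1 0 true 147 91 := node1 q942 rfl
theorem q944 : Q true 4 2 false 142 88 := node3 q684 q73 q9 rfl
theorem q945 : Q true 2 3 true 143 89 := node1 q944 rfl
theorem q946 : Q true 3 3 false 145 90 := node2 q945 q4 rfl
theorem q947 : Q true 3 2 false 147 91 := node2 q946 q4 rfl
theorem q948 : Q true 2 2 true 148 92 := node1 q947 rfl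
theorem q949 : Q true 2 1 false 149 92 := node1 q948 rfl
theorem q950 : Q true 1 0 true 150 93 := node1 q949 rfl
theorem q951 : Q true 4 3 false 145 90 := node3 q560 q8 q9 rfl
theorem q952 : Q true 3 3 true 148 92 := node2 q951 q6 rfl
theorem q953 : Q true 3 2 false 150 93 := node2 q952 q4 rfl
theorem q954 : Q true 2 2 true 151 94 := node1 q953 rfl
theorem q955 : Q true 2 1 false 152 94 := node1 q954 rfl
theorem q956 : Q true 1 0 true 153 95 := node1 q955 rfl
theorem q957 : Q true 4 2 false 147 91 := node3 q637 q936 q9 rfl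
theorem q958 : Q true 2 3 true 148 92 := node1 q957 rfl
theorem q959 : Q true 3 3 false 150 93 := node2 q958 q4 rfl
theorem q960 : Q true 3 2 false 152 94 := node2 q959 q4 rfl
theorem q961 : Q true 2 2 true 153 95 := node1 q960 rfl
theorem q962 : Q true 2 1 false 154 95 := node1 q961 rfl
theorem q963 : Q true 1 0 true 155 96 := node1 q962 rfl
theorem q964 : Q true 4 2 false 150 93 := node3 q33 q73 q9 rfl
theorem q965 : Q true 2 3 true 151 94 := node1 q964 rfl
theorem q966 : Q true 3 3 false 153 95 := node2 q965 q4 rfl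
theorem q967 : Q true 3 2 false 155 96 := node2 q966 q4 rfl
theorem q968 : Q true 2 2 true 156 97 := node1 q967 rfl
theorem q969 : Q true 2 1 false 157 97 := node1 q968 rfl
theorem q970 : Q true 1 0 true 158 98 := node1 q969 rfl
theorem q971 : Q true 3 2 true 151 94 := node2 q951 q5 rfl
theorem q972 : Q true 2 2 false 152 94 := node1 q971 rfl
theorem q973 : Q true 2 3 true 153 95 := node1 q972 rfl
theorem q974 : Q true 3 3 false 155 96 := node2 q973 q4 rfl
theorem q975 : Q true 3 2 false 157 97 := node2 q974 q4 rfl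
theorem q976 : Q true 2 2 true 158 98 := node1 q975 rfl
theorem q977 : Q true 2 1 false 159 98 := node1 q976 rfl
theorem q978 : Q true 1 0 true 160 99 := node1 q977 rfl
theorem q979 : Q true 4 2 false 155 96 := node3 q660 q936 q9 rfl
theorem q980 : Q true 2 3 true 156 97 := node1 q979 rfl
theorem q981 : Q true 3 3 false 158 98 := node2 q980 q4 rfl
theorem q982 : Q true 3 2 false 160 99 := node2 q981 q4 rfl
theorem q983 : Q true 2 2 true 161 100 := node1 q982 rfl
theorem q984 : Q true 2 1 false 162 100 := node1 q983 rfl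
theorem q985 : Q true 1 0 true 163 101 := node1 q984 rfl
theorem q986 : Q false 4 3 false 92 57 := node3 q74 q8 q9 rfl
theorem q987 : Q false 3 3 true 95 59 := node2 q986 q6 rfl
theorem q988 : Q false 3 2 false 97 60 := node2 q987 q4 rfl
theorem q989 : Q false 2 4 true 98 61 := node1 q988 rfl
theorem q990 : Q true 4 3 false 158 98 := node3 q684 q989 q9 rfl
theorem q991 : Q true 3 3 true 161 100 := node2 q990 q6 rfl
theorem q992 : Q true 3 2 false 163 101 := node2 q991 q4 rfl
theorem q993 : Q true 2 2 true 164 102 := node1 q992 rfl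
theorem q994 : Q true 2 1 false 165 102 := node1 q993 rfl
theorem q995 : Q true 1 0 true 166 103 := node1 q994 rfl
theorem q996 : Q false 4 2 false 118 73 := node3 q10 q936 q9 rfl
theorem q997 : Q false 2 3 true 119 74 := node1 q996 rfl
theorem q998 : Q false 3 3 false 121 75 := node2 q997 q4 rfl
theorem q999 : Q false 3 4 true 124 77 := node2 q998 q6 rfl
theorem q1000 : Q true 4 2 false 160 99 := node3 q614 q999 q9 rfl
theorem q1001 : Q true 2 3 true 161 100 := node1 q1000 rfl
theorem q1002 : Q true 3 3 false 163 101 := node2 q1001 q4 rfl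
theorem q1003 : Q true 3 2 false 165 102 := node2 q1002 q4 rfl
theorem q1004 : Q true 2 2 true 166 103 := node1 q1003 rfl
theorem q1005 : Q true 2 1 false 167 103 := node1 q1004 rfl
theorem q1006 : Q true 1 0 true 168 104 := node1 q1005 rfl
theorem q1007 : Q true 4 2 false 163 101 := node3 q684 q936 q9 rfl
theorem q1008 : Q true 2 3 true 164 102 := node1 q1007 rfl
theorem q1009 : Q true 3 3 false 166 103 := node2 q1008 q4 rfl
theorem q1010 : Q true 3 2 false 168 104 := node2 q1009 q4 rfl
theorem q1011 : Q true 2 2 true 169 105 := node1 q1010 rfl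
theorem q1012 : Q true 2 1 false 170 105 := node1 q1011 rfl
theorem q1013 : Q true 1 0 true 171 106 := node1 q1012 rfl
theorem q1014 : Q true 4 3 false 166 103 := node3 q33 q989 q9 rfl
theorem q1015 : Q true 3 3 true 169 105 := node2 q1014 q6 rfl
theorem q1016 : Q true 3 2 false 171 106 := node2 q1015 q4 rfl
theorem q1017 : Q true 2 2 true 172 107 := node1 q1016 rfl
theorem q1018 : Q true 2 1 false 173 107 := node1 q1017 rfl
theorem q1019 : Q true 1 0 true 174 108 := node1 q1018 rfl
theorem q1020 : Q false 5 3 false 126 78 := node4 q767 q75 q13 q14 rfl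
theorem q1021 : Q false 3 4 true 132 82 := node2 q1020 q5 rfl
theorem q1022 : Q true 4 2 false 168 104 := node3 q614 q1021 q9 rfl
theorem q1023 : Q true 2 3 true 169 105 := node1 q1022 rfl
theorem q1024 : Q true 3 3 false 171 106 := node2 q1023 q4 rfl
theorem q1025 : Q true 3 2 false 173 107 := node2 q1024 q4 rfl
theorem q1026 : Q true 2 2 true 174 108 := node1 q1025 rfl
theorem q1027 : Q true 2 1 false 175 108 := node1 q1026 rfl
theorem q1028 : Q true 1 0 true 176 109 := node1 q1027 rfl
theorem q1029 : Q true 4 2 false 171 106 := node3 q33 q936 q9 rfl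
theorem q1030 : Q true 2 3 true 172 107 := node1 q1029 rfl
theorem q1031 : Q true 3 3 false 174 108 := node2 q1030 q4 rfl
theorem q1032 : Q true 3 2 false 176 109 := node2 q1031 q4 rfl
theorem q1033 : Q true 2 2 true 177 110 := node1 q1032 rfl
theorem q1034 : Q true 2 1 false 178 110 := node1 q1033 rfl
theorem q1035 : Q true 1 0 true 179 111 := node1 q1034 rfl
theorem q1036 : Q true 3 2 true 172 107 := node2 q705 q935 rfl
theorem q1037 : Q true 2 2 false 173 107 := node1 q1036 rfl
theorem q1038 : Q true 2 3 true 174 108 := node1 q1037 rfl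
theorem q1039 : Q true 3 3 false 176 109 := node2 q1038 q4 rfl
theorem q1040 : Q true 3 2 false 178 110 := node2 q1039 q4 rfl
theorem q1041 : Q true 2 2 true 179 111 := node1 q1040 rfl
theorem q1042 : Q true 2 1 false 180 111 := node1 q1041 rfl
theorem q1043 : Q true 1 0 true 181 112 := node1 q1042 rfl
theorem q1044 : Q true 4 2 false 176 109 := node3 q614 q58 q9 rfl
theorem q1045 : Q true 2 3 true 177 110 := node1 q1044 rfl
theorem q1046 : Q true 3 3 false 179 111 := node2 q1045 q4 rfl
theorem q1047 : Q true 3 2 false 181 112 := node2 q1046 q4 rfl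
theorem q1048 : Q true 2 2 true 182 113 := node1 q1047 rfl
theorem q1049 : Q true 2 1 false 183 113 := node1 q1048 rfl
theorem q1050 : Q true 1 0 true 184 114 := node1 q1049 rfl
theorem q1051 : Q false 4 3 false 113 70 := node3 q10 q989 q9 rfl
theorem q1052 : Q false 3 3 true 116 72 := node2 q1051 q6 rfl
theorem q1053 : Q false 3 2 false 118 73 := node2 q1052 q4 rfl
theorem q1054 : Q false 2 4 true 119 74 := node1 q1053 rfl
theorem q1055 : Q true 4 3 false 179 111 := node3 q684 q1054 q9 rfl
theorem q1056 : Q true 3 3 true 182 113 := node2 q1055 q6 rfl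
theorem q1057 : Q true 3 2 false 184 114 := node2 q1056 q4 rfl
theorem q1058 : Q true 2 2 true 185 115 := node1 q1057 rfl
theorem q1059 : Q true 2 1 false 186 115 := node1 q1058 rfl
theorem q1060 : Q true 1 0 true 187 116 := node1 q1059 rfl
theorem q1061 : Q false 4 2 false 139 86 := node3 q10 q999 q9 rfl
theorem q1062 : Q false 2 3 true 140 87 := node1 q1061 rfl
theorem q1063 : Q false 3 3 false 142 88 := node2 q1062 q4 rfl
theorem q1064 : Q false 3 4 true 145 90 := node2 q1063 q6 rfl
theorem q1065 : Q true 4 2 false 181 112 := node3 q614 q1064 q9 rfl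
theorem q1066 : Q true 2 3 true 182 113 := node1 q1065 rfl
theorem q1067 : Q true 3 3 false 184 114 := node2 q1066 q4 rfl
theorem q1068 : Q true 3 2 false 186 115 := node2 q1067 q4 rfl
theorem q1069 : Q true 2 2 true 187 116 := node1 q1068 rfl
theorem q1070 : Q true 2 1 false 188 116 := node1 q1069 rfl
theorem q1071 : Q true 1 0 true 189 117 := node1 q1070 rfl
theorem q1072 : Q true 4 2 false 184 114 := node3 q614 q93 q9 rfl
theorem q1073 : Q true 2 3 true 185 115 := node1 q1072 rfl
theorem q1074 : Q true 3 3 false 187 116 := node2 q1073 q4 rfl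
theorem q1075 : Q true 3 2 false 189 117 := node2 q1074 q4 rfl
theorem q1076 : Q true 2 2 true 190 118 := node1 q1075 rfl
theorem q1077 : Q true 2 1 false 191 118 := node1 q1076 rfl
theorem q1078 : Q true 1 0 true 192 119 := node1 q1077 rfl
theorem q1079 : Q false 5 3 false 359 223 := node4 q19 q829 q13 q14 rfl
theorem q1080 : Q false 3 4 true 365 227 := node2 q1079 q5 rfl
theorem q1081 : Q false 4 4 false 370 230 := node3 q1080 q8 q9 rfl
theorem q1082 : Q false 4 5 true 378 235 := node3 q1081 q16 q17 rfl
theorem q1083 : Q true 5 3 false 412 256 := node4 q681 q1082 q13 q14 rfl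
theorem q1084 : Q true 3 4 true 418 260 := node2 q1083 q5 rfl
theorem q1085 : Q true 4 4 false 423 263 := node3 q1084 q8 q9 rfl
theorem q1086 : Q true 4 3 false 428 266 := node3 q1085 q8 q9 rfl
theorem q1087 : Q true 3 3 true 431 268 := node2 q1086 q6 rfl
theorem q1088 : Q true 3 2 false 433 269 := node2 q1087 q4 rfl
theorem q1089 : Q true 2 2 true 434 270 := node1 q1088 rfl
theorem q1090 : Q true 2 1 false 435 270 := node1 q1089 rfl
theorem q1091 : Q true 1 0 true 436 271 := node1 q1090 rfl
theorem q1092 : Q false 4 2 false 181 112 := node3 q51 q216 q9 rfl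
theorem q1093 : Q false 2 3 true 182 113 := node1 q1092 rfl
theorem q1094 : Q false 3 3 false 184 114 := node2 q1093 q4 rfl
theorem q1095 : Q false 3 2 true 200 124 := node2 q208 q1094 rfl
theorem q1096 : Q false 2 2 false 201 124 := node1 q1095 rfl
theorem q1097 : Q false 2 1 true 202 125 := node1 q1096 rfl
theorem q1098 : Q false 1 0 false 203 125 := node1 q1097 rfl
theorem q1099 : Q true 4 3 false 187 116 := node3 q33 q1054 q9 rfl
theorem q1100 : Q true 3 3 true 190 118 := node2 q1099 q6 rfl
theorem q1101 : Q true 3 2 false 192 119 := node2 q1100 q4 rfl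
theorem q1102 : Q true 2 2 true 193 120 := node1 q1101 rfl
theorem q1103 : Q true 2 1 false 194 120 := node1 q1102 rfl
theorem q1104 : Q true 1 0 true 195 121 := node1 q1103 rfl
theorem q1105 : Q false 4 2 false 147 91 := node3 q10 q1021 q9 rfl
theorem q1106 : Q false 2 3 true 148 92 := node1 q1105 rfl
theorem q1107 : Q false 3 3 false 150 93 := node2 q1106 q4 rfl
theorem q1108 : Q false 3 4 true 153 95 := node2 q1107 q6 rfl
theorem q1109 : Q true 4 2 false 189 117 := node3 q614 q1108 q9 rfl
theorem q1110 : Q true 2 3 true 190 118 := node1 q1109 rfl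
theorem q1111 : Q true 3 3 false 192 119 := node2 q1110 q4 rfl
theorem q1112 : Q true 3 2 false 194 120 := node2 q1111 q4 rfl
theorem q1113 : Q true 2 2 true 195 121 := node1 q1112 rfl
theorem q1114 : Q true 2 1 false 196 121 := node1 q1113 rfl
theorem q1115 : Q true 1 0 true 197 122 := node1 q1114 rfl
theorem q1116 : Q true 4 2 false 192 119 := node3 q614 q77 q9 rfl
theorem q1117 : Q true 2 3 true 193 120 := node1 q1116 rfl
theorem q1118 : Q true 3 3 false 195 121 := node2 q1117 q4 rfl
theorem q1119 : Q true 3 2 false 197 122 := node2 q1118 q4 rfl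
theorem q1120 : Q true 2 2 true 198 123 := node1 q1119 rfl
theorem q1121 : Q true 2 1 false 199 123 := node1 q1120 rfl
theorem q1122 : Q true 1 0 true 200 124 := node1 q1121 rfl
theorem q1123 : Q true 4 3 false 1452 903 := node3 q319 q8 q9 rfl
theorem q1124 : Q true 3 3 true 1455 905 := node2 q1123 q6 rfl
theorem q1125 : Q true 3 2 false 1457 906 := node2 q1124 q4 rfl
theorem q1126 : Q true 2 2 true 1458 907 := node1 q1125 rfl
theorem q1127 : Q true 2 1 false 1459 907 := node1 q1126 rfl
theorem q1128 : Q true 1 0 true 1460 908 := node1 q1127 rfl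
theorem q1129 : Q false 4 2 false 189 117 := node3 q51 q128 q9 rfl
theorem q1130 : Q false 2 3 true 190 118 := node1 q1129 rfl
theorem q1131 : Q false 3 3 false 192 119 := node2 q1130 q4 rfl
theorem q1132 : Q false 3 2 true 208 129 := node2 q208 q1131 rfl
theorem q1133 : Q false 2 2 false 209 129 := node1 q1132 rfl
theorem q1134 : Q false 2 1 true 210 130 := node1 q1133 rfl
theorem q1135 : Q false 1 0 false 211 130 := node1 q1134 rfl
theorem q1136 : Q false 4 2 false 425 264 := node3 q10 q354 q9 rfl
theorem q1137 : Q false 2 3 true 426 265 := node1 q1136 rfl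
theorem q1138 : Q false 3 3 false 428 266 := node2 q1137 q4 rfl
theorem q1139 : Q false 3 4 true 431 268 := node2 q1138 q6 rfl
theorem q1140 : Q false 4 2 false 443 275 := node3 q51 q1139 q9 rfl
theorem q1141 : Q false 2 3 true 444 276 := node1 q1140 rfl
theorem q1142 : Q false 3 3 false 446 277 := node2 q1141 q4 rfl
theorem q1143 : Q false 3 2 true 462 287 := node2 q208 q1142 rfl
theorem q1144 : Q false 2 2 false 463 287 := node1 q1143 rfl
theorem q1145 : Q false 2 1 true 464 288 := node1 q1144 rfl
theorem q1146 : Q false 1 0 false 465 288 := node1 q1145 rfl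
theorem q1147 : Q false 4 2 false 679 422 := node3 q10 q378 q9 rfl
theorem q1148 : Q false 2 3 true 680 423 := node1 q1147 rfl
theorem q1149 : Q false 3 3 false 682 424 := node2 q1148 q4 rfl
theorem q1150 : Q false 3 4 true 685 426 := node2 q1149 q6 rfl
theorem q1151 : Q false 4 2 false 697 433 := node3 q51 q1150 q9 rfl
theorem q1152 : Q false 2 3 true 698 434 := node1 q1151 rfl
theorem q1153 : Q false 3 3 false 700 435 := node2 q1152 q4 rfl
theorem q1154 : Q false 3 2 true 716 445 := node2 q208 q1153 rfl
theorem q1155 : Q false 2 2 false 717 445 := node1 q1154 rfl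
theorem q1156 : Q false 2 1 true 718 446 := node1 q1155 rfl
theorem q1157 : Q false 1 0 false 719 446 := node1 q1156 rfl
theorem q1158 : Q false 4 2 false 933 580 := node3 q10 q402 q9 rfl
theorem q1159 : Q false 2 3 true 934 581 := node1 q1158 rfl
theorem q1160 : Q false 3 3 false 936 582 := node2 q1159 q4 rfl
theorem q1161 : Q false 3 4 true 939 584 := node2 q1160 q6 rfl
theorem q1162 : Q false 4 2 false 951 591 := node3 q51 q1161 q9 rfl
theorem q1163 : Q false 2 3 true 952 592 := node1 q1162 rfl
theorem q1164 : Q false 3 3 false 954 593 := node2 q1163 q4 rfl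
theorem q1165 : Q false 3 2 true 970 603 := node2 q208 q1164 rfl
theorem q1166 : Q false 2 2 false 971 603 := node1 q1165 rfl
theorem q1167 : Q false 2 1 true 972 604 := node1 q1166 rfl
theorem q1168 : Q false 1 0 false 973 604 := node1 q1167 rfl
theorem q1169 : Q false 4 2 false 1187 738 := node3 q10 q426 q9 rfl
theorem q1170 : Q false 2 3 true 1188 739 := node1 q1169 rfl
theorem q1171 : Q false 3 3 false 1190 740 := node2 q1170 q4 rfl
theorem q1172 : Q false 3 4 true 1193 742 := node2 q1171 q6 rfl
theorem q1173 : Q false 4 2 false 1205 749 := node3 q51 q1172 q9 rfl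
theorem q1174 : Q false 2 3 true 1206 750 := node1 q1173 rfl
theorem q1175 : Q false 3 3 false 1208 751 := node2 q1174 q4 rfl
theorem q1176 : Q false 3 2 true 1224 761 := node2 q208 q1175 rfl
theorem q1177 : Q false 2 2 false 1225 761 := node1 q1176 rfl
theorem q1178 : Q false 2 1 true 1226 762 := node1 q1177 rfl
theorem q1179 : Q false 1 0 false 1227 762 := node1 q1178 rfl
theorem q1180 : Q false 4 5 false 161 100 := node3 q77 q8 q9 rfl
theorem q1181 : Q true 5 3 false 179 111 := node4 q577 q1180 q13 q14 rfl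
theorem q1182 : Q true 3 4 true 185 115 := node2 q1181 q5 rfl
theorem q1183 : Q true 4 4 false 190 118 := node3 q1182 q8 q9 rfl
theorem q1184 : Q true 4 3 false 195 121 := node3 q1183 q8 q9 rfl
theorem q1185 : Q true 3 3 true 198 123 := node2 q1184 q6 rfl
theorem q1186 : Q true 3 2 false 200 124 := node2 q1185 q4 rfl
theorem q1187 : Q true 2 2 true 201 125 := node1 q1186 rfl
theorem q1188 : Q true 2 1 false 202 125 := node1 q1187 rfl
theorem q1189 : Q true 1 0 true 203 126 := node1 q1188 rfl
theorem q1190 : Q true 4 2 false 197 122 := node3 q614 q62 q9 rfl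
theorem q1191 : Q true 2 3 true 198 123 := node1 q1190 rfl
theorem q1192 : Q true 3 3 false 200 124 := node2 q1191 q4 rfl
theorem q1193 : Q true 3 2 false 202 125 := node2 q1192 q4 rfl
theorem q1194 : Q true 2 2 true 203 126 := node1 q1193 rfl
theorem q1195 : Q true 2 1 false 204 126 := node1 q1194 rfl
theorem q1196 : Q true 1 0 true 205 127 := node1 q1195 rfl
theorem q1197 : Q true 4 2 false 200 124 := node3 q637 q77 q9 rfl
theorem q1198 : Q true 2 3 true 201 125 := node1 q1197 rfl
theorem q1199 : Q true 3 3 false 203 126 := node2 q1198 q4 rfl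
theorem q1200 : Q true 3 2 false 205 127 := node2 q1199 q4 rfl
theorem q1201 : Q true 2 2 true 206 128 := node1 q1200 rfl
theorem q1202 : Q true 2 1 false 207 128 := node1 q1201 rfl
theorem q1203 : Q true 1 0 true 208 129 := node1 q1202 rfl
theorem q1204 : Q true 5 3 false 187 116 := node4 q577 q333 q13 q14 rfl
theorem q1205 : Q true 3 4 true 193 120 := node2 q1204 q5 rfl
theorem q1206 : Q true 4 4 false 198 123 := node3 q1205 q8 q9 rfl
theorem q1207 : Q true 4 3 false 203 126 := node3 q1206 q8 q9 rfl
theorem q1208 : Q true 3 3 true 206 128 := node2 q1207 q6 rfl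
theorem q1209 : Q true 3 2 false 208 129 := node2 q1208 q4 rfl
theorem q1210 : Q true 2 2 true 209 130 := node1 q1209 rfl
theorem q1211 : Q true 2 1 false 210 130 := node1 q1210 rfl
theorem q1212 : Q true 1 0 true 211 131 := node1 q1211 rfl
theorem q1213 : Q true 4 2 false 205 127 := node3 q614 q216 q9 rfl
theorem q1214 : Q true 2 3 true 206 128 := node1 q1213 rfl
theorem q1215 : Q true 3 3 false 208 129 := node2 q1214 q4 rfl
theorem q1216 : Q true 3 2 false 210 130 := node2 q1215 q4 rfl
theorem q1217 : Q true 2 2 true 211 131 := node1 q1216 rfl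
theorem q1218 : Q true 2 1 false 212 131 := node1 q1217 rfl
theorem q1219 : Q true 1 0 true 213 132 := node1 q1218 rfl
theorem q1220 : Q true 4 2 false 208 129 := node3 q660 q77 q9 rfl
theorem q1221 : Q true 2 3 true 209 130 := node1 q1220 rfl
theorem q1222 : Q true 3 3 false 211 131 := node2 q1221 q4 rfl
theorem q1223 : Q true 3 2 false 213 132 := node2 q1222 q4 rfl
theorem q1224 : Q true 2 2 true 214 133 := node1 q1223 rfl
theorem q1225 : Q true 2 1 false 215 133 := node1 q1224 rfl
theorem q1226 : Q true 1 0 true 216 134 := node1 q1225 rfl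
theorem q1227 : Q true 4 4 false 206 128 := node3 q39 q8 q9 rfl
theorem q1228 : Q true 4 3 false 211 131 := node3 q1227 q8 q9 rfl
theorem q1229 : Q true 3 3 true 214 133 := node2 q1228 q6 rfl
theorem q1230 : Q true 3 2 false 216 134 := node2 q1229 q4 rfl
theorem q1231 : Q true 2 2 true 217 135 := node1 q1230 rfl
theorem q1232 : Q true 2 1 false 218 135 := node1 q1231 rfl
theorem q1233 : Q true 1 0 true 219 136 := node1 q1232 rfl
theorem q1234 : Q true 4 2 false 213 132 := node3 q614 q128 q9 rfl
theorem q1235 : Q true 2 3 true 214 133 := node1 q1234 rfl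
theorem q1236 : Q true 3 3 false 216 134 := node2 q1235 q4 rfl
theorem q1237 : Q true 3 2 false 218 135 := node2 q1236 q4 rfl
theorem q1238 : Q true 2 2 true 219 136 := node1 q1237 rfl
theorem q1239 : Q true 2 1 false 220 136 := node1 q1238 rfl
theorem q1240 : Q true 1 0 true 221 137 := node1 q1239 rfl
theorem q1241 : Q true 3 2 false 221 137 := node2 q42 q4 rfl
theorem q1242 : Q true 2 2 true 222 138 := node1 q1241 rfl
theorem q1243 : Q true 2 1 false 223 138 := node1 q1242 rfl
theorem q1244 : Q true 1 0 true 224 139 := node1 q1243 rfl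
theorem q1245 : Q true 4 4 false 214 133 := node3 q563 q8 q9 rfl
theorem q1246 : Q true 4 3 false 219 136 := node3 q1245 q8 q9 rfl
theorem q1247 : Q true 3 3 true 222 138 := node2 q1246 q6 rfl
theorem q1248 : Q true 3 2 false 224 139 := node2 q1247 q4 rfl
theorem q1249 : Q true 2 2 true 225 140 := node1 q1248 rfl
theorem q1250 : Q true 2 1 false 226 140 := node1 q1249 rfl
theorem q1251 : Q true 1 0 true 227 141 := node1 q1250 rfl
theorem q1252 : Q true 4 2 false 221 137 := node3 q637 q128 q9 rfl
theorem q1253 : Q true 2 3 true 222 138 := node1 q1252 rfl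
theorem q1254 : Q true 3 3 false 224 139 := node2 q1253 q4 rfl
theorem q1255 : Q true 3 2 false 226 140 := node2 q1254 q4 rfl
theorem q1256 : Q true 2 2 true 227 141 := node1 q1255 rfl
theorem q1257 : Q true 2 1 false 228 141 := node1 q1256 rfl
theorem q1258 : Q true 1 0 true 229 142 := node1 q1257 rfl
theorem q1259 : Q true 4 2 false 224 139 := node3 q33 q77 q9 rfl
theorem q1260 : Q true 2 3 true 225 140 := node1 q1259 rfl
theorem q1261 : Q true 3 3 false 227 141 := node2 q1260 q4 rfl
theorem q1262 : Q true 3 2 false 229 142 := node2 q1261 q4 rfl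
theorem q1263 : Q true 2 2 true 230 143 := node1 q1262 rfl
theorem q1264 : Q true 2 1 false 231 143 := node1 q1263 rfl
theorem q1265 : Q true 1 0 true 232 144 := node1 q1264 rfl
theorem q1266 : Q true 3 2 true 225 140 := node2 q1246 q5 rfl
theorem q1267 : Q true 2 2 false 226 140 := node1 q1266 rfl
theorem q1268 : Q true 2 3 true 227 141 := node1 q1267 rfl
theorem q1269 : Q true 3 3 false 229 142 := node2 q1268 q4 rfl
theorem q1270 : Q true 3 2 false 231 143 := node2 q1269 q4 rfl
theorem q1271 : Q true 2 2 true 232 144 := node1 q1270 rfl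
theorem q1272 : Q true 2 1 false 233 144 := node1 q1271 rfl
theorem q1273 : Q true 1 0 true 234 145 := node1 q1272 rfl

def pl0 : List (ℕ × ℕ) :=
  [(254, 157), (255, 158), (256, 158), (257, 159), (258, 160), (259, 160), (260, 161), (261, 162), (262, 162), (263, 163), (264, 163), (265, 164), (266, 165), (267, 165), (268, 166), (269, 167), (270, 167), (271, 168), (272, 168), (273, 169), (274, 170), (275, 170), (276, 171), (277, 172), (278, 172), (279, 173), (280, 173), (281, 174), (282, 175), (283, 175), (284, 176), (1555, 967)]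
theorem hpl0 : AllPump pl0 :=
  AllPump.cons (pump q28 q50 q30) <|
  AllPump.cons (pump q28 q69 q52) <|
  AllPump.cons (pump q28 q88 q71) <|
  AllPump.cons (pump q28 q88 q30) <|
  AllPump.cons (pump q28 q104 q52) <|
  AllPump.cons (pump q28 q116 q30) <|
  AllPump.cons (pump q28 q126 q52) <|
  AllPump.cons (pump q28 q104 q18) <|
  AllPump.cons (pump q28 q135 q30) <|
  AllPump.cons (pump q28 q50 q52) <|
  AllPump.cons (pump q28 q155 q71) <|
  AllPump.cons (pump q28 q155 q30) <|
  AllPump.cons (pump q28 q88 q52) <|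
  AllPump.cons (pump q28 q169 q30) <|
  AllPump.cons (pump q28 q116 q52) <|
  AllPump.cons (pump q28 q88 q18) <|
  AllPump.cons (pump q28 q187 q30) <|
  AllPump.cons (pump q28 q135 q52) <|
  AllPump.cons (pump q28 q202 q30) <|
  AllPump.cons (pump q28 q155 q207) <|
  AllPump.cons (pump q28 q155 q52) <|
  AllPump.cons (pump q28 q227 q30) <|
  AllPump.cons (pump q28 q169 q52) <|
  AllPump.cons (pump q28 q155 q18) <|
  AllPump.cons (pump q28 q248 q30) <|
  AllPump.cons (pump q28 q187 q52) <|
  AllPump.cons (pump q28 q266 q30) <|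
  AllPump.cons (pump q28 q202 q52) <|
  AllPump.cons (pump q28 q187 q18) <|
  AllPump.cons (pump q28 q289 q30) <|
  AllPump.cons (pump q28 q227 q52) <|
  AllPump.cons (pump q28 q329 q18) <|
  AllPump.nil

def pl1 : List (ℕ × ℕ) :=
  [(286, 177), (287, 178), (288, 178), (289, 179), (290, 180), (291, 180), (292, 181), (39, 23), (294, 182), (295, 183), (42, 25), (297, 184), (298, 185), (45, 27), (300, 186), (301, 186), (48, 29), (303, 188), (50, 30), (51, 31), (306, 190), (53, 32), (54, 33), (55, 33), (56, 34), (57, 35), (58, 35), (59, 36), (60, 37), (61, 37), (62, 38), (63, 38)]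
theorem hpl1 : AllPump pl1 :=
  AllPump.cons (pump q28 q448 q30) <|
  AllPump.cons (pump q28 q248 q52) <|
  AllPump.cons (pump q28 q470 q30) <|
  AllPump.cons (pump q28 q266 q52) <|
  AllPump.cons (pump q28 q248 q18) <|
  AllPump.cons (pump q28 q496 q30) <|
  AllPump.cons (pump q28 q289 q52) <|
  AllPump.cons (pump q28 q514 q30) <|
  AllPump.cons (pump q28 q524 q30) <|
  AllPump.cons (pump q28 q448 q52) <|
  AllPump.cons (pump q28 q538 q30) <|
  AllPump.cons (pump q28 q470 q52) <|
  AllPump.cons (pump q28 q448 q18) <|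
  AllPump.cons (pump q28 q554 q30) <|
  AllPump.cons (pump q28 q496 q52) <|
  AllPump.cons (pump q28 q573 q71) <|
  AllPump.cons (pump q28 q584 q30) <|
  AllPump.cons (pump q28 q524 q52) <|
  AllPump.cons (pump q28 q599 q30) <|
  AllPump.cons (pump q28 q538 q52) <|
  AllPump.cons (pump q28 q524 q18) <|
  AllPump.cons (pump q28 q613 q30) <|
  AllPump.cons (pump q28 q554 q52) <|
  AllPump.cons (pump q28 q620 q71) <|
  AllPump.cons (pump q28 q620 q30) <|
  AllPump.cons (pump q28 q584 q52) <|
  AllPump.cons (pump q28 q627 q30) <|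
  AllPump.cons (pump q28 q599 q52) <|
  AllPump.cons (pump q28 q584 q18) <|
  AllPump.cons (pump q28 q634 q30) <|
  AllPump.cons (pump q28 q613 q52) <|
  AllPump.cons (pump q28 q643 q71) <|
  AllPump.nil

def pl2 : List (ℕ × ℕ) :=
  [(64, 39), (65, 40), (66, 40), (67, 41), (68, 42), (69, 42), (70, 43), (71, 43), (72, 44), (73, 45), (74, 45), (75, 46), (76, 47), (77, 47), (78, 48), (79, 48), (80, 49), (81, 50), (82, 50), (83, 51), (84, 52), (85, 52), (86, 53), (87, 53), (88, 54), (89, 55), (90, 55), (91, 56), (92, 57), (93, 57), (94, 58), (95, 58)]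
theorem hpl2 : AllPump pl2 :=
  AllPump.cons (pump q28 q643 q30) <|
  AllPump.cons (pump q28 q620 q52) <|
  AllPump.cons (pump q28 q650 q30) <|
  AllPump.cons (pump q28 q627 q52) <|
  AllPump.cons (pump q28 q620 q18) <|
  AllPump.cons (pump q28 q657 q30) <|
  AllPump.cons (pump q28 q634 q52) <|
  AllPump.cons (pump q28 q666 q71) <|
  AllPump.cons (pump q28 q666 q30) <|
  AllPump.cons (pump q28 q643 q52) <|
  AllPump.cons (pump q28 q673 q30) <|
  AllPump.cons (pump q28 q650 q52) <|
  AllPump.cons (pump q28 q643 q18) <|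
  AllPump.cons (pump q28 q680 q30) <|
  AllPump.cons (pump q28 q657 q52) <|
  AllPump.cons (pump q28 q690 q71) <|
  AllPump.cons (pump q28 q690 q30) <|
  AllPump.cons (pump q28 q666 q52) <|
  AllPump.cons (pump q28 q697 q30) <|
  AllPump.cons (pump q28 q673 q52) <|
  AllPump.cons (pump q28 q666 q18) <|
  AllPump.cons (pump q28 q704 q30) <|
  AllPump.cons (pump q28 q680 q52) <|
  AllPump.cons (pump q28 q710 q71) <|
  AllPump.cons (pump q28 q710 q30) <|
  AllPump.cons (pump q28 q690 q52) <|
  AllPump.cons (pump q28 q717 q30) <|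
  AllPump.cons (pump q28 q697 q52) <|
  AllPump.cons (pump q28 q690 q18) <|
  AllPump.cons (pump q28 q724 q30) <|
  AllPump.cons (pump q28 q704 q52) <|
  AllPump.cons (pump q28 q732 q30) <|
  AllPump.nil

def pl3 : List (ℕ × ℕ) :=
  [(96, 59), (97, 60), (98, 60), (99, 61), (100, 62), (101, 62), (102, 63), (103, 63), (104, 64), (105, 65), (106, 65), (107, 66), (108, 66), (109, 67), (110, 68), (111, 68), (112, 69), (113, 70), (114, 70), (115, 71), (116, 71), (117, 72), (118, 73), (119, 73), (120, 74), (121, 75), (122, 75), (123, 76), (124, 76), (125, 77), (126, 78), (127, 78)]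
theorem hpl3 : AllPump pl3 :=
  AllPump.cons (pump q28 q710 q207) <|
  AllPump.cons (pump q28 q710 q52) <|
  AllPump.cons (pump q28 q739 q30) <|
  AllPump.cons (pump q28 q717 q52) <|
  AllPump.cons (pump q28 q710 q18) <|
  AllPump.cons (pump q28 q745 q30) <|
  AllPump.cons (pump q28 q724 q52) <|
  AllPump.cons (pump q28 q753 q30) <|
  AllPump.cons (pump q28 q732 q52) <|
  AllPump.cons (pump q28 q724 q18) <|
  AllPump.cons (pump q28 q760 q30) <|
  AllPump.cons (pump q28 q739 q52) <|
  AllPump.cons (pump q28 q766 q71) <|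
  AllPump.cons (pump q28 q766 q30) <|
  AllPump.cons (pump q28 q745 q52) <|
  AllPump.cons (pump q28 q776 q30) <|
  AllPump.cons (pump q28 q753 q52) <|
  AllPump.cons (pump q28 q745 q18) <|
  AllPump.cons (pump q28 q783 q30) <|
  AllPump.cons (pump q28 q760 q52) <|
  AllPump.cons (pump q28 q791 q30) <|
  AllPump.cons (pump q28 q766 q207) <|
  AllPump.cons (pump q28 q766 q52) <|
  AllPump.cons (pump q28 q801 q30) <|
  AllPump.cons (pump q28 q776 q52) <|
  AllPump.cons (pump q28 q766 q18) <|
  AllPump.cons (pump q28 q808 q30) <|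
  AllPump.cons (pump q28 q783 q52) <|
  AllPump.cons (pump q28 q819 q30) <|
  AllPump.cons (pump q28 q791 q52) <|
  AllPump.cons (pump q28 q783 q18) <|
  AllPump.cons (pump q28 q826 q30) <|
  AllPump.nil

def pl4 : List (ℕ × ℕ) :=
  [(128, 79), (383, 238), (130, 80), (131, 81), (132, 81), (133, 82), (134, 83), (135, 83), (136, 84), (137, 84), (138, 85), (139, 86), (140, 86), (141, 87), (142, 88), (143, 88), (144, 89), (145, 89), (146, 90), (147, 91), (148, 91), (149, 92), (150, 93), (151, 93), (152, 94), (153, 94), (154, 95), (155, 96), (156, 96), (157, 97), (158, 98), (159, 98)]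
theorem hpl4 : AllPump pl4 :=
  AllPump.cons (pump q28 q801 q52) <|
  AllPump.cons (pump q28 q838 q18) <|
  AllPump.cons (pump q28 q855 q30) <|
  AllPump.cons (pump q28 q808 q52) <|
  AllPump.cons (pump q28 q866 q30) <|
  AllPump.cons (pump q28 q819 q52) <|
  AllPump.cons (pump q28 q808 q18) <|
  AllPump.cons (pump q28 q873 q30) <|
  AllPump.cons (pump q28 q826 q52) <|
  AllPump.cons (pump q28 q882 q71) <|
  AllPump.cons (pump q28 q882 q30) <|
  AllPump.cons (pump q28 q855 q52) <|
  AllPump.cons (pump q28 q893 q30) <|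
  AllPump.cons (pump q28 q866 q52) <|
  AllPump.cons (pump q28 q855 q18) <|
  AllPump.cons (pump q28 q900 q30) <|
  AllPump.cons (pump q28 q873 q52) <|
  AllPump.cons (pump q28 q909 q71) <|
  AllPump.cons (pump q28 q909 q30) <|
  AllPump.cons (pump q28 q882 q52) <|
  AllPump.cons (pump q28 q916 q30) <|
  AllPump.cons (pump q28 q893 q52) <|
  AllPump.cons (pump q28 q882 q18) <|
  AllPump.cons (pump q28 q923 q30) <|
  AllPump.cons (pump q28 q900 q52) <|
  AllPump.cons (pump q28 q932 q71) <|
  AllPump.cons (pump q28 q932 q30) <|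
  AllPump.cons (pump q28 q909 q52) <|
  AllPump.cons (pump q28 q943 q30) <|
  AllPump.cons (pump q28 q916 q52) <|
  AllPump.cons (pump q28 q909 q18) <|
  AllPump.cons (pump q28 q950 q30) <|
  AllPump.nil

def pl5 : List (ℕ × ℕ) :=
  [(160, 99), (161, 99), (162, 100), (163, 101), (164, 101), (165, 102), (166, 103), (167, 103), (168, 104), (169, 104), (170, 105), (171, 106), (172, 106), (173, 107), (174, 108), (175, 108), (176, 109), (177, 109), (178, 110), (179, 111), (180, 111), (181, 112), (182, 112), (183, 113), (184, 114), (185, 114), (186, 115), (187, 116), (188, 116), (189, 117), (190, 117), (191, 118)]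
theorem hpl5 : AllPump pl5 :=
  AllPump.cons (pump q28 q923 q52) <|
  AllPump.cons (pump q28 q956 q71) <|
  AllPump.cons (pump q28 q956 q30) <|
  AllPump.cons (pump q28 q932 q52) <|
  AllPump.cons (pump q28 q963 q30) <|
  AllPump.cons (pump q28 q943 q52) <|
  AllPump.cons (pump q28 q932 q18) <|
  AllPump.cons (pump q28 q970 q30) <|
  AllPump.cons (pump q28 q950 q52) <|
  AllPump.cons (pump q28 q978 q30) <|
  AllPump.cons (pump q28 q956 q207) <|
  AllPump.cons (pump q28 q956 q52) <|
  AllPump.cons (pump q28 q985 q30) <|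
  AllPump.cons (pump q28 q963 q52) <|
  AllPump.cons (pump q28 q956 q18) <|
  AllPump.cons (pump q28 q995 q30) <|
  AllPump.cons (pump q28 q970 q52) <|
  AllPump.cons (pump q28 q1006 q30) <|
  AllPump.cons (pump q28 q978 q52) <|
  AllPump.cons (pump q28 q970 q18) <|
  AllPump.cons (pump q28 q1013 q30) <|
  AllPump.cons (pump q28 q985 q52) <|
  AllPump.cons (pump q28 q1019 q71) <|
  AllPump.cons (pump q28 q1019 q30) <|
  AllPump.cons (pump q28 q995 q52) <|
  AllPump.cons (pump q28 q1028 q30) <|
  AllPump.cons (pump q28 q1006 q52) <|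
  AllPump.cons (pump q28 q995 q18) <|
  AllPump.cons (pump q28 q1035 q30) <|
  AllPump.cons (pump q28 q1013 q52) <|
  AllPump.cons (pump q28 q1043 q30) <|
  AllPump.cons (pump q28 q1019 q207) <|
  AllPump.nil

def pl6 : List (ℕ × ℕ) :=
  [(192, 119), (193, 119), (194, 120), (195, 121), (196, 121), (197, 122), (198, 122), (199, 123), (200, 124), (201, 124), (202, 125), (457, 284), (204, 126), (205, 127), (206, 127), (207, 128), (208, 129), (209, 129), (210, 130), (1481, 921), (212, 131), (213, 132), (214, 132), (215, 133), (216, 134), (217, 134), (218, 135), (219, 135), (220, 136), (221, 137), (222, 137), (223, 138)]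
theorem hpl6 : AllPump pl6 :=
  AllPump.cons (pump q28 q1019 q52) <|
  AllPump.cons (pump q28 q1050 q30) <|
  AllPump.cons (pump q28 q1028 q52) <|
  AllPump.cons (pump q28 q1019 q18) <|
  AllPump.cons (pump q28 q1060 q30) <|
  AllPump.cons (pump q28 q1035 q52) <|
  AllPump.cons (pump q28 q1071 q30) <|
  AllPump.cons (pump q28 q1043 q52) <|
  AllPump.cons (pump q28 q1035 q18) <|
  AllPump.cons (pump q28 q1078 q30) <|
  AllPump.cons (pump q28 q1050 q52) <|
  AllPump.cons (pump q28 q1091 q18) <|
  AllPump.cons (pump q28 q1104 q30) <|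
  AllPump.cons (pump q28 q1060 q52) <|
  AllPump.cons (pump q28 q1115 q30) <|
  AllPump.cons (pump q28 q1071 q52) <|
  AllPump.cons (pump q28 q1060 q18) <|
  AllPump.cons (pump q28 q1122 q30) <|
  AllPump.cons (pump q28 q1078 q52) <|
  AllPump.cons (pump q28 q1128 q18) <|
  AllPump.cons (pump q28 q1189 q30) <|
  AllPump.cons (pump q28 q1104 q52) <|
  AllPump.cons (pump q28 q1196 q30) <|
  AllPump.cons (pump q28 q1115 q52) <|
  AllPump.cons (pump q28 q1104 q18) <|
  AllPump.cons (pump q28 q1203 q30) <|
  AllPump.cons (pump q28 q1122 q52) <|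
  AllPump.cons (pump q28 q1212 q71) <|
  AllPump.cons (pump q28 q1212 q30) <|
  AllPump.cons (pump q28 q1189 q52) <|
  AllPump.cons (pump q28 q1219 q30) <|
  AllPump.cons (pump q28 q1196 q52) <|
  AllPump.nil

def pl7 : List (ℕ × ℕ) :=
  [(224, 139), (225, 139), (226, 140), (227, 140), (228, 141), (229, 142), (230, 142), (231, 143), (232, 144), (233, 144), (234, 145), (235, 145), (236, 146), (237, 147), (238, 147), (239, 148), (240, 149), (241, 149), (242, 150), (243, 150), (244, 151), (245, 152), (246, 152), (247, 153), (248, 154), (249, 154), (250, 155), (251, 155), (252, 156), (253, 157)]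
theorem hpl7 : AllPump pl7 :=
  AllPump.cons (pump q28 q1189 q18) <|
  AllPump.cons (pump q28 q1226 q30) <|
  AllPump.cons (pump q28 q1203 q52) <|
  AllPump.cons (pump q28 q1233 q71) <|
  AllPump.cons (pump q28 q1233 q30) <|
  AllPump.cons (pump q28 q1212 q52) <|
  AllPump.cons (pump q28 q1240 q30) <|
  AllPump.cons (pump q28 q1219 q52) <|
  AllPump.cons (pump q28 q1212 q18) <|
  AllPump.cons (pump q28 q1244 q30) <|
  AllPump.cons (pump q28 q1226 q52) <|
  AllPump.cons (pump q28 q1251 q71) <|
  AllPump.cons (pump q28 q1251 q30) <|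
  AllPump.cons (pump q28 q1233 q52) <|
  AllPump.cons (pump q28 q1258 q30) <|
  AllPump.cons (pump q28 q1240 q52) <|
  AllPump.cons (pump q28 q1233 q18) <|
  AllPump.cons (pump q28 q1265 q30) <|
  AllPump.cons (pump q28 q1244 q52) <|
  AllPump.cons (pump q28 q1273 q30) <|
  AllPump.cons (pump q28 q1251 q207) <|
  AllPump.cons (pump q28 q1251 q52) <|
  AllPump.cons (pump q28 q69 q30) <|
  AllPump.cons (pump q28 q1258 q52) <|
  AllPump.cons (pump q28 q1251 q18) <|
  AllPump.cons (pump q28 q104 q30) <|
  AllPump.cons (pump q28 q1265 q52) <|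
  AllPump.cons (pump q28 q126 q30) <|
  AllPump.cons (pump q28 q1273 q52) <|
  AllPump.cons (pump q28 q1265 q18) <|
  AllPump.nil

def pumpList : List (ℕ × ℕ) := pl0 ++ pl1 ++ pl2 ++ pl3 ++ pl4 ++ pl5 ++ pl6 ++ pl7
theorem hpumpList : AllPump pumpList := (((((((hpl0.append hpl1).append hpl2).append hpl3).append hpl4).append hpl5).append hpl6).append hpl7)

def exactList : List (ℕ × ℕ) :=
  [(2, 1), (4, 2), (8, 4), (9, 5), (10, 6), (14, 7), (15, 8), (16, 9), (17, 9), (18, 10), (19, 11), (20, 12), (21, 12), (22, 13), (23, 14), (24, 14), (25, 15), (26, 16), (27, 16), (28, 17), (29, 17), (30, 18), (31, 19), (285, 176), (539, 334), (793, 492), (1047, 650), (1301, 808), (32, 19), (33, 20), (34, 20), (35, 21), (36, 22), (37, 22), (38, 23), (40, 24), (41, 25), (43, 26), (44, 27), (46, 28), (47, 29), (49, 30), (52, 32), (129, 79), (203, 125), (211, 130), (465, 288), (719, 446), (973, 604), (1227, 762)]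
theorem hexactList : AllOk exactList :=
  AllOk.cons (exact_ok q90) <|
  AllOk.cons (exact_ok q106) <|
  AllOk.cons (exact_ok q139) <|
  AllOk.cons (exact_ok q142) <|
  AllOk.cons (exact_ok q158) <|
  AllOk.cons (exact_ok q175) <|
  AllOk.cons (exact_ok q180) <|
  AllOk.cons (exact_ok q189) <|
  AllOk.cons (exact_ok q194) <|
  AllOk.cons (exact_ok q206) <|
  AllOk.cons (exact_ok q211) <|
  AllOk.cons (exact_ok q214) <|
  AllOk.cons (exact_ok q231) <|
  AllOk.cons (exact_ok q235) <|
  AllOk.cons (exact_ok q238) <|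
  AllOk.cons (exact_ok q252) <|
  AllOk.cons (exact_ok q256) <|
  AllOk.cons (exact_ok q269) <|
  AllOk.cons (exact_ok q273) <|
  AllOk.cons (exact_ok q280) <|
  AllOk.cons (exact_ok q295) <|
  AllOk.cons (exact_ok q301) <|
  AllOk.cons (exact_ok q332) <|
  AllOk.cons (exact_ok q346) <|
  AllOk.cons (exact_ok q369) <|
  AllOk.cons (exact_ok q393) <|
  AllOk.cons (exact_ok q417) <|
  AllOk.cons (exact_ok q441) <|
  AllOk.cons (exact_ok q453) <|
  AllOk.cons (exact_ok q459) <|
  AllOk.cons (exact_ok q476) <|
  AllOk.cons (exact_ok q483) <|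
  AllOk.cons (exact_ok q486) <|
  AllOk.cons (exact_ok q501) <|
  AllOk.cons (exact_ok q507) <|
  AllOk.cons (exact_ok q530) <|
  AllOk.cons (exact_ok q533) <|
  AllOk.cons (exact_ok q543) <|
  AllOk.cons (exact_ok q546) <|
  AllOk.cons (exact_ok q559) <|
  AllOk.cons (exact_ok q576) <|
  AllOk.cons (exact_ok q592) <|
  AllOk.cons (exact_ok q606) <|
  AllOk.cons (exact_ok q849) <|
  AllOk.cons (exact_ok q1098) <|
  AllOk.cons (exact_ok q1135) <|
  AllOk.cons (exact_ok q1146) <|
  AllOk.cons (exact_ok q1157) <|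
  AllOk.cons (exact_ok q1168) <|
  AllOk.cons (exact_ok q1179) <|
  AllOk.nil

end Pool.Agent.P.MP_913bbb_co
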