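import Mathlib

namespace Pool.Agent.P.MP_913bbb_co

def tabF0 : List (List ℤ) :=
  [[-64, -64, -64, -64, -64, -64, -64, -64, -64, -64],
   [-31, -79, -79, -79, -79, -79, -79, -79, -79, -79],
   [-22, -70, -31, -31, -31, -31, -31, -31, -31, -31],
   [-22, -70, -39, -14, -14, -14, -14, -14, -14, -14],
   [-22, -70, -39, -25, -11, -11, -11, -11, -11, -11],
   [-26, -74, -43, -35, -18, -13, -13, -13, -13, -13],
   [-26, -74, -43, -35, -31, -13, -13, -13, -13, -13],
   [-32, -80, -49, -41, -37, -29, -19, -16, -16, -16],
   [-64, -112, -81, -73, -69, -61, -51, -48, -32, -32],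
   [-64, -64, -64, -64, -64, -64, -64, -64, -64, -64]]

def tabF1 : List (List ℤ) :=
  [[-64, -64, -64, -64, -64, -64, -64, -64, -64, -64],
   [-1, 48, 48, 48, 48, 48, 48, 48, 48, 48],
   [-22, 17, 9, 17, 17, 17, 17, 17, 17, 17],
   [-22, 9, 9, -8, 3, 9, 9, 9, 9, 9],
   [-26, 5, 5, -12, -15, -8, 5, 5, 5, 5],
   [-32, -3, -3, -18, -21, -19, -19, -3, -3, -3],
   [-53, -22, -22, -39, -42, -40, -40, -34, -22, -22],
   [-98, -50, -67, -84, -87, -85, -85, -82, -50, -50],
   [-131, -82, -100, -117, -120, -118, -118, -115, -99, -82],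
   [-64, -64, -64, -64, -64, -64, -64, -64, -64, -64]]

def tabB0 : List (List ℕ) :=
  [[0, 0, 0, 0, 0, 0, 0, 0, 0, 0],
   [6, 0, 0, 0, 0, 0, 0, 0, 0, 0],
   [15, 0, 15, 15, 11, 3, 0, 0, 0, 0],
   [15, 0, 15, 15, 11, 5, 0, 0, 0, 0],
   [15, 0, 15, 15, 15, 8, 0, 0, 0, 0],
   [11, 0, 11, 11, 11, 11, 11, 0, 0, 0],
   [11, 0, 11, 11, 11, 11, 11, 5, 0, 0],
   [5, 0, 5, 5, 5, 5, 5, 5, 0, 0],
   [0, 0, 0, 0, 0, 0, 0, 0, 0, 0],
   [0, 0, 0, 0, 0, 0, 0, 0, 0, 0]]

def tabB1 : List (List ℕ) :=
  [[0, 0, 0, 0, 0, 0, 0, 0, 0, 0],
   [0, 6, 15, 15, 15, 11, 11, 5, 0, 0],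
   [0, 0, 15, 15, 15, 11, 11, 5, 0, 0],
   [0, 0, 15, 15, 15, 11, 11, 5, 0, 0],
   [0, 0, 11, 11, 11, 11, 11, 5, 0, 0],
   [0, 0, 3, 5, 5, 5, 5, 5, 0, 0],
   [0, 0, 0, 0, 0, 0, 0, 0, 0, 0],
   [0, 0, 0, 0, 0, 0, 0, 0, 0, 0],
   [0, 0, 0, 0, 0, 0, 0, 0, 0, 0],
   [0, 0, 0, 0, 0, 0, 0, 0, 0, 0]]

def tabT0 : List (List (List (ℕ × ℕ × Bool))) :=
  [[[], [], [], [], [], [], [], [], [], []],
   [[(0, 2, false)], [], [], [], [], [], [], [], [], []],
   [[(0, 26, false), (4, 100, true), (6, 10, false), (7, 92, true), (8, 174, true), (8, 47, false), (9, 383, true), (10, 84, true), (10, 1481, true), (11, 166, true), (12, 248, true), (12, 121, true), (13, 76, true), (13, 457, true), (14, 158, true), (14, 1555, true), (14, 31, false)], [], [(0, 2, false)], [(0, 2, false)], [(0, 2, false)], [(0, 2, false)], [], [], [], []],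
   [[(0, 26, false), (4, 100, true), (6, 10, false), (7, 92, true), (8, 174, true), (8, 47, false), (9, 383, true), (10, 84, true), (10, 1481, true), (11, 166, true), (12, 248, true), (12, 121, true), (13, 76, true), (13, 457, true), (14, 158, true), (14, 1555, true), (14, 31, false)], [], [(0, 23, false), (4, 97, true), (6, 7, false), (7, 89, true), (8, 44, false), (8, 171, true), (9, 380, true), (10, 1478, true), (10, 81, true), (11, 163, true), (12, 118, true), (12, 245, true), (13, 454, true), (13, 73, true), (14, 1552, true), (14, 28, false), (14, 155, true)], [(0, 5, false), (8, 26, false), (12, 100, true)], [(0, 5, false), (8, 26, false)], [(0, 5, false)], [], [], [], []],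
   [[(0, 26, false), (4, 100, true), (7, 92, true), (8, 174, true), (8, 47, false), (9, 383, true), (10, 84, true), (10, 1481, true), (11, 166, true), (12, 248, true), (12, 121, true), (13, 76, true), (13, 457, true), (14, 158, true), (14, 1555, true), (14, 31, false)], [], [(0, 23, false), (4, 97, true), (7, 89, true), (8, 44, false), (8, 171, true), (9, 380, true), (10, 1478, true), (10, 81, true), (11, 163, true), (12, 118, true), (12, 245, true), (13, 454, true), (13, 73, true), (14, 1552, true), (14, 28, false), (14, 155, true)], [(0, 18, false), (4, 92, true), (7, 84, true), (8, 166, true), (8, 39, false), (9, 375, true), (10, 76, true), (10, 1473, true), (11, 158, true), (12, 240, true), (12, 113, true), (13, 68, true), (13, 449, true), (14, 150, true), (14, 1547, true), (14, 23, false)], [(0, 13, false), (4, 87, true), (7, 79, true), (8, 34, false), (8, 161, true), (9, 370, true), (10, 1468, true), (10, 71, true), (11, 153, true), (12, 108, true), (12, 235, true), (13, 444, true), (13, 63, true), (14, 1542, true), (14, 18, false),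 (14, 145, true)], [(0, 13, false), (4, 87, true), (7, 79, true)], [], [], [], []],
   [[(0, 100, true), (3, 92, true), (4, 174, true), (5, 383, true), (6, 84, true), (6, 1481, true), (7, 166, true), (8, 248, true), (8, 121, true), (9, 76, true), (9, 457, true), (10, 158, true), (10, 1555, true)], [], [(0, 97, true), (3, 89, true), (4, 171, true), (5, 380, true), (6, 1478, true), (6, 81, true), (7, 163, true), (8, 118, true), (8, 245, true), (9, 454, true), (9, 73, true), (10, 1552, true), (10, 155, true)], [(0, 76, true), (3, 68, true), (4, 150, true), (5, 359, true), (6, 60, true), (6, 1457, true), (7, 142, true), (8, 224, true), (8, 97, true), (9, 52, true), (9, 433, true), (10, 134, true), (10, 1531, true)], [(0, 79, true), (3, 71, true), (4, 153, true), (5, 362, true), (6, 1460, true), (6, 63, true), (7, 145, true), (8, 100, true), (8, 227, true), (9, 436, true), (9, 55, true), (10, 1534, true), (10, 137, true)], [(0, 50, true), (3, 42, true), (4, 124, true), (5, 333, true), (6, 34, true), (6, 1431, true), (7, 116, true), (8, 198,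 true), (8, 71, true), (9, 26, true), (9, 407, true), (10, 108, true), (10, 1505, true)], [(0, 50, true), (3, 42, true), (4, 124, true), (5, 79, true), (6, 34, true), (6, 1431, true), (7, 116, true), (8, 198, true), (8, 71, true), (9, 26, true), (9, 153, true), (10, 108, true), (10, 1505, true)], [], [], []],
   [[(0, 354, true), (3, 346, true), (4, 428, true), (5, 383, true), (6, 338, true), (6, 1481, true), (7, 420, true), (8, 502, true), (8, 375, true), (9, 330, true), (9, 457, true), (10, 412, true), (10, 1555, true)], [], [(0, 351, true), (3, 343, true), (4, 425, true), (5, 380, true), (6, 1478, true), (6, 335, true), (7, 417, true), (8, 372, true), (8, 499, true), (9, 454, true), (9, 327, true), (10, 1552, true), (10, 409, true)], [(0, 330, true), (3, 322, true), (4, 404, true), (5, 359, true), (6, 314, true), (6, 1457, true), (7, 396, true), (8, 478, true), (8, 351, true), (9, 306, true), (9, 433, true), (10, 388, true), (10, 1531, true)], [(0, 256, true), (3, 248, true), (4, 330, true), (5, 285, true), (6, 240, true), (6, 1383,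 true), (7, 322, true), (8, 404, true), (8, 277, true), (9, 232, true), (9, 359, true), (10, 314, true), (10, 1457, true)], [(0, 304, true), (3, 296, true), (4, 378, true), (5, 333, true), (6, 288, true), (6, 1431, true), (7, 370, true), (8, 452, true), (8, 325, true), (9, 280, true), (9, 407, true), (10, 362, true), (10, 1505, true)], [(0, 177, true), (3, 169, true), (4, 251, true), (5, 206, true), (6, 1304, true), (6, 161, true), (7, 243, true), (8, 198, true), (8, 325, true), (9, 280, true), (9, 153, true), (10, 1378, true), (10, 235, true)], [(0, 304, true), (0, 177, true), (3, 296, true), (3, 169, true), (4, 378, true), (4, 251, true)], [], []],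
   [[(0, 1354, true), (0, 1481, true), (3, 1346, true), (3, 1473, true), (4, 1428, true), (4, 1555, true)], [], [(0, 1478, true), (0, 1351, true), (3, 1470, true), (3, 1343, true), (4, 1552, true), (4, 1425, true)], [(0, 1330, true), (0, 1457, true), (3, 1322, true), (3, 1449, true), (4, 1404, true), (4, 1531, true)], [(0, 1256, true), (0, 1383, true), (3, 1248, true), (3, 1375, true), (4, 1330, true), (4, 1457, true)], [(0, 1108, true), (0, 981, true), (3, 1100, true), (3, 973, true), (4, 1182, true), (4, 1055, true)], [(0, 1304, true), (0, 1177, true), (3, 1296, true), (3, 1169, true), (4, 1378, true), (4, 1251, true)], [(0, 804, true), (0, 677, true), (3, 796, true), (3, 669, true), (4, 878, true), (4, 751, true)], [], []],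
   [[], [], [], [], [], [], [], [], [], []],
   [[], [], [], [], [], [], [], [], [], []]]

def tabT1 : List (List (List (ℕ × ℕ × Bool))) :=
  [[[], [], [], [], [], [], [], [], [], []],
   [[], [(0, 1, false)], [(0, 1, false)], [(0, 1, false)], [(0, 1, false)], [(0, 1, false)], [(0, 1, false)], [(0, 1, false)], [], []],
   [[], [], [(0, 24, false), (4, 98, true), (6, 8, false), (7, 90, true), (8, 172, true), (8, 45, false), (9, 381, true), (10, 82, true), (10, 1479, true), (11, 164, true), (12, 246, true), (12, 119, true), (13, 74, true), (13, 455, true), (14, 156, true), (14, 1553, true), (14, 29, false)], [(0, 3, false), (8, 24, false), (12, 98, true)], [(0, 3, false), (8, 24, false), (12, 98, true), (14, 8, false)], [(0, 3, false), (8, 24, false)], [(0, 3, false), (8, 24, false)], [(0, 3, false)], [], []],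
   [[], [], [(0, 24, false), (4, 98, true), (7, 90, true), (8, 172, true), (8, 45, false), (9, 381, true), (10, 82, true), (10, 1479, true), (11, 164, true), (12, 246, true), (12, 119, true), (13, 74, true), (13, 455, true), (14, 156, true), (14, 1553, true), (14, 29, false)], [(0, 21, false), (4, 95, true), (7, 87, true), (8, 42, false), (8, 169, true), (9, 378, true), (10, 1476, true), (10, 79, true), (11, 161, true), (12, 116, true), (12, 243, true), (13, 452, true), (13, 71, true), (14, 1550, true), (14, 26, false), (14, 153, true)], [(0, 8, false), (4, 82, true), (7, 74, true), (8, 156, true), (8, 29, false), (9, 365, true), (10, 66, true), (10, 1463, true), (11, 148, true), (12, 230, true), (12, 103, true), (13, 58, true), (13, 439, true), (14, 140, true), (14, 1537, true)], [(0, 24, false), (4, 98, true), (6, 8, false), (7, 90, true), (8, 172, true), (8, 45, false), (9, 381, true), (10, 82, true), (10, 1479, true)], [(0, 24, false), (4, 98, true), (6, 8, false), (7, 90, true), (8, 172, true), (8, 45, false), (9, 381, true), (10,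 82, true), (10, 1479, true)], [(0, 24, false), (4, 98, true)], [], []],
   [[], [], [(0, 98, true), (3, 90, true), (4, 172, true), (5, 381, true), (6, 82, true), (6, 1479, true), (7, 164, true), (8, 246, true), (8, 119, true), (9, 74, true), (9, 455, true), (10, 156, true), (10, 1553, true)], [(0, 95, true), (3, 87, true), (4, 169, true), (5, 378, true), (6, 1476, true), (6, 79, true), (7, 161, true), (8, 116, true), (8, 243, true), (9, 452, true), (9, 71, true), (10, 1550, true), (10, 153, true)], [(0, 87, true), (3, 79, true), (4, 161, true), (5, 370, true), (6, 1468, true), (6, 71, true), (7, 153, true), (8, 108, true), (8, 235, true), (9, 444, true), (9, 63, true), (10, 1542, true), (10, 145, true)], [(0, 21, true), (3, 267, true), (4, 95, true), (5, 304, true), (6, 1402, true), (6, 259, true), (7, 87, true), (8, 42, true), (8, 169, true), (9, 378, true), (9, 251, true), (10, 1476, true), (10, 79, true)], [(0, 98, true), (3, 90, true), (4, 172, true), (5, 381, true), (6, 82, true), (6, 1479, true), (7, 164, true), (8, 246, true),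 (8, 119, true), (9, 74, true), (9, 455, true), (10, 156, true), (10, 1553, true)], [(0, 98, true), (3, 90, true), (4, 172, true)], [], []],
   [[], [], [(0, 373, true)], [(0, 1476, true), (0, 1349, true), (2, 370, true), (3, 1468, true), (3, 1341, true), (4, 1550, true), (4, 1423, true)], [(0, 1468, true), (0, 1341, true), (2, 362, true), (3, 1460, true), (3, 1333, true), (4, 1542, true), (4, 1415, true)], [(0, 1304, true), (0, 1431, true), (2, 325, true), (3, 1296, true), (3, 1423, true), (4, 1378, true), (4, 1505, true)], [(0, 1050, true), (0, 1177, true), (2, 71, true), (3, 1042, true), (3, 1169, true), (4, 1124, true), (4, 1251, true)], [(0, 373, true), (3, 365, true), (4, 447, true)], [], []],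
   [[], [], [], [], [], [], [], [], [], []],
   [[], [], [], [], [], [], [], [], [], []],
   [[], [], [], [], [], [], [], [], [], []],
   [[], [], [], [], [], [], [], [], [], []]]

def tabS0 : List (List (List (ℕ × ℕ))) :=
  [[[], [], [], [], [], [], [], [], [], []],
   [[(0, 2), (31, 4), (93, 8), (45, 9), (124, 10), (186, 14), (138, 15), (90, 16), (169, 17)], [(0, 1)], [(0, 1)], [(0, 1)], [(0, 1)], [(0, 1)], [(0, 1)], [(0, 1)], [(0, 1)], [(0, 1)]],
   [[(40, 4), (102, 8), (54, 9), (6, 10), (195, 14), (147, 15), (99, 16), (178, 17)], [(40, 3), (102, 7), (54, 8), (6, 9), (195, 13), (147, 14), (99, 15), (178, 16), (130, 17)], [(0, 2), (141, 7), (93, 8), (234, 13), (186, 14), (265, 15), (217, 16), (169, 17)], [(0, 2), (79, 3), (93, 8), (45, 9), (186, 14), (138, 15), (217, 16), (169, 17)], [(0, 2), (79, 3), (141, 7), (93, 8), (45, 9), (234, 13), (186, 14), (138, 15), (217, 16), (169, 17)], [(0, 2), (79, 3), (141, 7), (93, 8), (45, 9), (234, 13), (186, 14), (138, 15), (217, 16), (169, 17)], [(0, 2), (79, 3), (141, 7), (93, 8), (45, 9), (234,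 13), (186, 14), (138, 15), (217, 16), (169, 17)], [(0, 2), (79, 3), (141, 7), (93, 8), (45, 9), (234, 13), (186, 14), (138, 15), (217, 16), (169, 17)], [(0, 2), (79, 3), (141, 7), (93, 8), (45, 9), (234, 13), (186, 14), (138, 15), (217, 16), (169, 17)], [(0, 2), (79, 3), (141, 7), (93, 8), (45, 9), (234, 13), (186, 14), (138, 15), (217, 16), (169, 17)]],
   [[(102, 8), (54, 9), (6, 10), (195, 14), (147, 15), (99, 16), (178, 17)], [(102, 7), (54, 8), (6, 9), (195, 13), (147, 14), (99, 15), (178, 16), (130, 17)], [(54, 6), (6, 7), (147, 12), (99, 13), (178, 14), (130, 15), (82, 16), (34, 17)], [(48, 4), (0, 5), (141, 10), (93, 11), (203, 14), (155, 15), (107, 16), (59, 17)], [(48, 4), (0, 5), (79, 6), (31, 7), (110, 8), (62, 9), (141, 10), (93, 11), (172, 12), (124, 13), (203, 14), (155, 15), (234, 16), (186, 17)], [(48, 4), (0, 5), (79, 6), (31, 7), (110, 8), (62, 9), (141, 10), (93, 11), (172, 12), (124, 13), (203, 14), (155, 15), (107, 16), (59, 17)], [(48, 4), (0, 5), (79, 6), (31, 7), (110, 8), (62, 9), (141, 10), (93, 11), (172,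 12), (124, 13), (203, 14), (155, 15), (107, 16), (59, 17)], [(48, 4), (0, 5), (79, 6), (31, 7), (110, 8), (62, 9), (141, 10), (93, 11), (172, 12), (124, 13), (203, 14), (155, 15), (107, 16), (59, 17)], [(48, 4), (0, 5), (79, 6), (31, 7), (110, 8), (62, 9), (141, 10), (93, 11), (172, 12), (124, 13), (203, 14), (155, 15), (107, 16), (59, 17)], [(48, 4), (0, 5), (79, 6), (31, 7), (110, 8), (62, 9), (141, 10), (93, 11), (172, 12), (124, 13), (203, 14), (155, 15), (107, 16), (59, 17)]],
   [[(226, 16), (178, 17)], [(226, 15), (178, 16), (130, 17)], [(178, 14), (130, 15), (82, 16), (34, 17)], [(161, 12), (113, 13), (65, 14), (17, 15), (96, 16), (48, 17)], [(113, 8), (65, 9), (17, 10), (96, 11), (48, 12), (0, 13), (79, 14), (31, 15), (110, 16), (62, 17)], [(113, 8), (65, 9), (17, 10), (96, 11), (48, 12), (0, 13), (79, 14), (31, 15), (110, 16), (62, 17)], [(113, 8), (65, 9), (17, 10), (96, 11), (48, 12), (0, 13), (79, 14), (31, 15), (110, 16), (62, 17)], [(113, 8), (65, 9), (17, 10), (96, 11), (48, 12), (0, 13), (79, 14), (31, 15), (110, 16),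 (62, 17)], [(113, 8), (65, 9), (17, 10), (96, 11), (48, 12), (0, 13), (79, 14), (31, 15), (110, 16), (62, 17)], [(113, 8), (65, 9), (17, 10), (96, 11), (48, 12), (0, 13), (79, 14), (31, 15), (110, 16), (62, 17)]],
   [[], [], [], [], [], [(235, 16), (187, 17)], [(235, 16), (187, 17)], [(235, 16), (187, 17)], [(235, 16), (187, 17)], [(235, 16), (187, 17)]],
   [[], [], [], [], [], [], [], [], [], []],
   [[], [], [], [], [], [], [], [], [], []],
   [[], [], [], [], [], [], [], [], [], []],
   [[], [], [], [], [], [], [], [], [], []]]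

def tabS1 : List (List (List (ℕ × ℕ))) :=
  [[[], [], [], [], [], [], [], [], [], []],
   [[], [(0, 1)], [(0, 1)], [(0, 1)], [(0, 1)], [(0, 1)], [(0, 1)], [(0, 1)], [(0, 1)], [(0, 1)]],
   [[], [(0, 3), (62, 7), (14, 8), (93, 9), (155, 13), (107, 14), (186, 15), (138, 16), (90, 17)], [(40, 2), (54, 7), (6, 8), (147, 13), (99, 14), (178, 15), (130, 16), (82, 17)], [(48, 2), (0, 3), (141, 8), (93, 9), (234, 14), (186, 15), (138, 16), (90, 17)], [(48, 2), (0, 3), (62, 7), (14, 8), (93, 9), (155, 13), (107, 14), (186, 15), (138, 16), (90, 17)], [(48, 2), (0, 3), (62, 7), (14, 8), (93, 9), (155, 13), (107, 14), (186, 15), (138, 16), (90, 17)], [(48, 2), (0, 3), (62, 7), (14, 8), (93, 9), (155, 13), (107, 14), (186, 15), (138, 16), (90, 17)], [(48, 2), (0, 3), (62, 7), (14, 8), (93, 9), (155, 13), (107, 14), (186, 15), (138, 16), (90, 17)], [(48, 2), (0, 3), (62, 7), (14, 8), (93, 9), (155, 13), (107, 14), (186, 15), (138, 16), (90, 17)], [(48, 2), (0, 3), (62, 7), (14, 8), (93, 9), (155, 13), (107, 14), (186, 15), (138, 16), (90, 17)]],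
   [[], [(54, 7), (6, 8), (85, 9), (147, 13), (99, 14), (51, 15), (130, 16), (82, 17)], [(102, 6), (54, 7), (195, 12), (147, 13), (226, 14), (178, 15), (130, 16), (82, 17)], [(54, 4), (133, 5), (147, 10), (99, 11), (209, 14), (161, 15), (113, 16), (65, 17)], [(65, 4), (144, 5), (96, 6), (48, 7), (0, 8), (79, 9), (158, 10), (110, 11), (189, 12), (141, 13), (93, 14), (45, 15), (251, 16), (203, 17)], [(71, 4), (150, 5), (102, 6), (54, 7), (6, 8), (85, 9), (164, 10), (116, 11), (195, 12), (147, 13), (99, 14), (51, 15), (130, 16), (82, 17)], [(71, 4), (150, 5), (102, 6), (54, 7), (6, 8), (85, 9), (164, 10), (116, 11), (195, 12), (147, 13), (99, 14), (51, 15), (130, 16), (82, 17)], [(71, 4), (150, 5), (102, 6), (54, 7), (6, 8), (85, 9), (164, 10), (116, 11), (195, 12), (147, 13), (99, 14), (51, 15), (130, 16), (82, 17)], [(71, 4), (150, 5), (102, 6), (54, 7), (6, 8), (85, 9), (164, 10), (116, 11), (195, 12), (147, 13), (99, 14), (51, 15), (130, 16), (82, 17)], [(71, 4), (150, 5), (102, 6), (54, 7), (6, 8), (85, 9), (164, 10), (116, 11), (195,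 12), (147, 13), (99, 14), (51, 15), (130, 16), (82, 17)]],
   [[], [(174, 15), (126, 16), (78, 17)], [(222, 14), (174, 15), (126, 16), (78, 17)], [(174, 12), (126, 13), (78, 14), (157, 15), (109, 16), (61, 17)], [(109, 8), (61, 9), (140, 10), (92, 11), (171, 12), (123, 13), (202, 14), (154, 15), (106, 16), (185, 17)], [(116, 8), (68, 9), (147, 10), (99, 11), (178, 12), (130, 13), (82, 14), (161, 15), (113, 16), (65, 17)], [(129, 8), (81, 9), (160, 10), (112, 11), (191, 12), (143, 13), (95, 14), (174, 15), (126, 16), (78, 17)], [(129, 8), (81, 9), (160, 10), (112, 11), (191, 12), (143, 13), (95, 14), (174, 15), (126, 16), (78, 17)], [(129, 8), (81, 9), (160, 10), (112, 11), (191, 12), (143, 13), (95, 14), (174, 15), (126, 16), (78, 17)], [(129, 8), (81, 9), (160, 10), (112, 11), (191, 12), (143, 13), (95, 14), (174, 15), (126, 16), (78, 17)]],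
   [[], [], [], [], [], [(229, 16), (181, 17)], [(229, 16), (181, 17)], [(245, 16), (197, 17)], [(245, 16), (197, 17)], [(245, 16), (197, 17)]],
   [[], [], [], [], [], [], [], [], [], []],
   [[], [], [], [], [], [], [], [], [], []],
   [[], [], [], [], [], [], [], [], [], []],
   [[], [], [], [], [], [], [], [], [], []]]

def look {α : Type} (dflt : α) (t0 t1 : List (List α)) (d p : ℕ) (s : Bool) : α :=
  ((if s then t1 else t0).getD d []).getD p dflt

/-- Potential. -/
def pF (d p : ℕ) (s : Bool) : ℤ := look (-64) tabF0 tabF1 d p s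
/-- Budget. -/
def pB (d p : ℕ) (s : Bool) : ℕ := look 0 tabB0 tabB1 d p s
/-- Near-extremal subtrees. -/
def pT (d p : ℕ) (s : Bool) : List (ℕ × ℕ × Bool) := look [] tabT0 tabT1 d p s
/-- Small subtrees. -/
def pS (d p : ℕ) (s : Bool) : List (ℕ × ℕ) := look [] tabS0 tabS1 d p s

/-- Best value of a child of degree `c`. -/
def pG (c d : ℕ) (s : Bool) : ℤ := if s then pF c d false else max (pF c d false) (pF c d true)

def wt (s : Bool) : ℤ := if s then 48 else -79

def gap (c d : ℕ) (s s' : Bool) : ℕ := (pG c d s - pF c d s').toNat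

def dfs {τ : Type} (opts : ℕ → List τ) (add : τ → τ → τ) (pr fin : τ → Bool) :
    List ℕ → τ → Bool
  | [], t => fin t
  | c :: cs, t => (opts c).all fun t' => pr (add t t') || dfs opts add pr fin cs (add t t')

def opts1 (d : ℕ) (s : Bool) (c : ℕ) : List (ℕ × ℕ × Bool) :=
  (pT c d false).map (fun t => (gap c d s false + t.1, t.2)) ++
    if s then [] else (pT c d true).map (fun t => (gap c d s true + t.1, t.2))

def opts2 (d : ℕ) (s : Bool) (c : ℕ) : List (ℕ × ℕ) :=
  (pS c d false).map (fun t => (gap c d s false + t.1, t.2)) ++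
    if s then [] else (pS c d true).map (fun t => (gap c d s true + t.1, t.2))

def add1 (t t' : ℕ × ℕ × Bool) : ℕ × ℕ × Bool := (t.1 + t'.1, t.2.1 + t'.2.1, t.2.2 || t'.2.2)
def add2 (t t' : ℕ × ℕ) : ℕ × ℕ := (t.1 + t'.1, t.2 + t'.2)

def fin1 (l : List (ℕ × ℕ × Bool)) (t : ℕ × ℕ × Bool) : Bool :=
  l.any fun u => u.1 == t.1 &&
    (if u.2.2 then decide (u.2.1 ≤ t.2.1) && u.2.1 % 2 == t.2.1 % 2
      else !t.2.2 && u.2.1 == t.2.1)

def fin2 (l : List (ℕ × ℕ)) (t : ℕ × ℕ) : Bool :=
  l.any fun u => decide (u.1 ≤ t.1) && u.2 == t.2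

def checkC (d p : ℕ) (s : Bool) (C : List ℕ) : Bool :=
  let k := d - (if p = 0 then 0 else 1)
  let g := wt s + (C.map fun c => pG c d s).sum
  if C.length < k then decide (g - 64 * ((k - C.length : ℕ) : ℤ) + pB d p s ≤ pF d p s)
  else if C.length = k then
    let σ := (pF d p s - g).toNat
    decide (g ≤ pF d p s) &&
    (C.all fun c => decide (pB d p s ≤ σ + gap c d s false + pB c d false) &&
      (s || decide (pB d p s ≤ σ + gap c d s true + pB c d true))) &&
    (decide (pB d p s ≤ σ) ||
      dfs (opts1 d s) add1 (fun t => decide (pB d p s ≤ t.1)) (fin1 (pT d p s)) C (σ, 1, false)) &&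
    dfs (opts2 d s) add2 (fun t => decide (17 < t.2)) (fin2 (pS d p s)) C (σ, 1)
  else true

def cand (p : ℕ) : List ℕ := [8, 7, 6, 5, 4, 3, 2, 1].filter (· != p)

def checkD (d : ℕ) : Bool :=
  (List.range 10).all fun p => [false, true].all fun s =>
    (p == 0 && s) || (cand p).sublists.all (checkC d p s)

def checkBig : Bool :=
  [false, true].all fun s => (cand 0).sublists.all fun C =>
    decide (wt s + (C.map fun c => pG c 9 s).sum - 64 * ((8 - C.length : ℕ) : ℤ) ≤ -64) &&
    (decide (C.length < 8) || C.contains 8)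

theorem check1 : checkD 1 = true := by decide +kernel
theorem check2 : checkD 2 = true := by decide +kernel
theorem check3 : checkD 3 = true := by decide +kernel
theorem check4 : checkD 4 = true := by decide +kernel
theorem check5 : checkD 5 = true := by decide +kernel
theorem check6 : checkD 6 = true := by decide +kernel
theorem check7 : checkD 7 = true := by decide +kernel
theorem check8 : checkD 8 = true := by decide +kernel
theorem check9 : checkBig = true := by decide +kernel

end Pool.Agent.P.MP_913bbb_co
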