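import Mathlib
import Pool.Agent.P.MP_913bbb_co.Cert

namespace Pool.Agent.P.MP_913bbb_co

def pumped (n : ℕ) : Bool :=
  pumpList.any fun x => (n - x.1) % 254 == 0 && decide (x.1 ≤ n) &&
    bestBound n == x.2 + 158 * ((n - x.1) / 254)

theorem check_low : (List.range 1556).all (fun n => decide (n < 2) ||
    [3, 5, 6, 7, 11, 12, 13].contains n || pumped n || exactList.contains (n, bestBound n)) =
    true := by decide +kernel

theorem check_high : (List.range 254).all (fun i => pumped (1556 + i)) = true := by
  decide +kernel

end Pool.Agent.P.MP_913bbb_co
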