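import Mathlib
import Pool.Agent.P.MP_913bbb_co.Check

namespace Pool.Agent.P.MP_913bbb_co

theorem dfs_sound {τ : Type} (opts : ℕ → List τ) (add : τ → τ → τ) (pr fin : τ → Bool)
    (m : τ → ℕ → ℕ → Prop) (goal cov : ℕ → ℕ → Prop)
    (hadd : ∀ t t' e e' N N', m t e N → m t' e' N' → m (add t t') (e + e') (N + N'))
    (hpr : ∀ t e N, pr t = true → m t e N → ∀ e' N', e ≤ e' → N ≤ N' → ¬ goal e' N')
    (hfin : ∀ t e N, fin t = true → m t e N → cov e N) (ee nn : ℕ → ℕ) :
    ∀ (C : List ℕ) (t : τ) (e N : ℕ), dfs opts add pr fin C t = true → m t e N →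
      (∀ c ∈ C, ∃ t' ∈ opts c, m t' (ee c) (nn c)) →
      goal (e + (C.map ee).sum) (N + (C.map nn).sum) →
      cov (e + (C.map ee).sum) (N + (C.map nn).sum) := by
  intro C
  induction C with
  | nil =>
    intro t e N h hm _ _
    simpa using hfin t e N h hm
  | cons c cs ih =>
    intro t e N h hm hC hg
    obtain ⟨t', ht', hm'⟩ := hC c List.mem_cons_self
    have h1 := List.all_eq_true.1 h t' ht'
    simp only [List.map_cons, List.sum_cons, ← add_assoc] at hg ⊢
    have h2 := hadd _ _ _ _ _ _ hm hm'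
    rcases Bool.or_eq_true_iff.1 h1 with h1 | h1
    · exact absurd hg (hpr _ _ _ h1 h2 _ _ (Nat.le_add_right _ _) (Nat.le_add_right _ _))
    · exact ih _ _ _ h1 h2 (fun c' hc' => hC c' (List.mem_cons_of_mem _ hc')) hg

def m1 (u : ℕ × ℕ × Bool) (e N : ℕ) : Prop :=
  u.1 = e ∧ (if u.2.2 then u.2.1 ≤ N ∧ u.2.1 % 2 = N % 2 else u.2.1 = N)

def m2 (u : ℕ × ℕ) (e N : ℕ) : Prop := u.1 ≤ e ∧ u.2 = N

/-- The invariant of a rooted subtree with `N` vertices, `A` of them in the independent set. -/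
def Inv (d p : ℕ) (s : Bool) (A N : ℕ) : Prop :=
  ∃ e : ℕ, (127 * A - 79 * N : ℤ) + e = pF d p s ∧ (e < pB d p s → ∃ u ∈ pT d p s, m1 u e N) ∧
    (N ≤ 17 → ∃ u ∈ pS d p s, m2 u e N)

theorem pF_le_pG (c d : ℕ) (s s' : Bool) (h : ¬ (s = true ∧ s' = true)) :
    pF c d s' ≤ pG c d s := by
  cases s <;> cases s' <;> simp [pG] at h ⊢

theorem sum_eq (C : List ℕ) (g : ℕ → ℤ) (aa nn ll : ℕ → ℕ)
    (h : ∀ c ∈ C, (127 * aa c - 79 * nn c : ℤ) + ll c = g c) :
    (127 * ((C.map aa).sum : ℕ) - 79 * ((C.map nn).sum : ℕ) : ℤ) + ((C.map ll).sum : ℕ) =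
      (C.map g).sum := by
  induction C with
  | nil => simp
  | cons c cs ih =>
    have h1 := h c List.mem_cons_self
    have h2 := ih fun c' hc' => h c' (List.mem_cons_of_mem _ hc')
    simp only [List.map_cons, List.sum_cons, Nat.cast_add] at h2 ⊢
    linarith

theorem wt_eq (s : Bool) : wt s = 127 * (s.toNat : ℤ) - 79 := by cases s <;> simp [wt]

theorem children_loss (d : ℕ) (s : Bool) (C : List ℕ) (aa nn : ℕ → ℕ) (ss : ℕ → Bool)
    (hI : ∀ c ∈ C, Inv c d (ss c) (aa c) (nn c)) (hs : ∀ c ∈ C, ¬ (s = true ∧ ss c = true)) :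
    ∃ ee : ℕ → ℕ, (∀ c ∈ C, (127 * aa c - 79 * nn c : ℤ) + (gap c d s (ss c) + ee c : ℕ) =
        pG c d s) ∧
      (∀ c ∈ C, ee c < pB c d (ss c) → ∃ u ∈ pT c d (ss c), m1 u (ee c) (nn c)) ∧
      (∀ c ∈ C, nn c ≤ 17 → ∃ u ∈ pS c d (ss c), m2 u (ee c) (nn c)) := by
  have : ∀ c, ∃ e : ℕ, c ∈ C → (127 * aa c - 79 * nn c : ℤ) + e = pF c d (ss c) ∧
      (e < pB c d (ss c) → ∃ u ∈ pT c d (ss c), m1 u e (nn c)) ∧
      (nn c ≤ 17 → ∃ u ∈ pS c d (ss c), m2 u e (nn c)) := by
    intro c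
    by_cases hc : c ∈ C
    · obtain ⟨e, he⟩ := hI c hc
      exact ⟨e, fun _ => he⟩
    · exact ⟨0, fun h => absurd h hc⟩
  choose ee hee using this
  refine ⟨ee, fun c hc => ?_, fun c hc => (hee c hc).2.1, fun c hc => (hee c hc).2.2⟩
  have h1 := (hee c hc).1
  have h2 := pF_le_pG c d s (ss c) (hs c hc)
  have h3 : ((gap c d s (ss c) : ℕ) : ℤ) = pG c d s - pF c d (ss c) :=
    Int.toNat_of_nonneg (by linarith)
  push_cast
  linarith

theorem checkD_of (d : ℕ) (h1 : 1 ≤ d) (h8 : d ≤ 8) : checkD d = true := by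
  interval_cases d
  exacts [check1, check2, check3, check4, check5, check6, check7, check8]

theorem local_small (d p : ℕ) (s : Bool) (h1 : 1 ≤ d) (h8 : d ≤ 8) (hp : p < 10)
    (hps : p = 0 → s = false) (C : List ℕ) (hC : C.Sublist (cand p)) (aa nn : ℕ → ℕ)
    (ss : ℕ → Bool) (hI : ∀ c ∈ C, Inv c d (ss c) (aa c) (nn c))
    (hs : ∀ c ∈ C, ¬ (s = true ∧ ss c = true)) (j A' N' : ℕ)
    (hbig : (127 * A' - 79 * N' : ℤ) ≤ -64 * j) (hbig' : 18 * j ≤ N')
    (h0 : j = 0 → A' = 0 ∧ N' = 0)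
    (hk : C.length + j + (if p = 0 then 0 else 1) = d) :
    Inv d p s (s.toNat + (C.map aa).sum + A') (1 + (C.map nn).sum + N') := by
  have hc : checkC d p s C = true := by
    have h2 := List.all_eq_true.1 (checkD_of d h1 h8) p (List.mem_range.2 hp)
    have h3 := List.all_eq_true.1 h2 s (by cases s <;> simp)
    rcases Bool.or_eq_true_iff.1 h3 with h3 | h3
    · simp only [Bool.and_eq_true, beq_iff_eq] at h3
      rw [hps h3.1] at h3
      exact absurd h3.2 (by simp)
    · exact List.all_eq_true.1 h3 C (List.mem_sublists.2 hC)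
  obtain ⟨ee, e1, e2, e3⟩ := children_loss d s C aa nn ss hI hs
  have hsum := sum_eq C (fun c => pG c d s) aa nn (fun c => gap c d s (ss c) + ee c) e1
  have hw := wt_eq s
  have hk' : d - (if p = 0 then 0 else 1) = C.length + j := by omega
  unfold checkC at hc
  simp only [hk'] at hc
  rcases Nat.eq_zero_or_pos j with rfl | hj
  · obtain ⟨rfl, rfl⟩ := h0 rfl
    simp only [add_zero, lt_irrefl, if_false, if_true, Bool.and_eq_true, decide_eq_true_eq,
      Bool.or_eq_true] at hc ⊢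
    obtain ⟨⟨⟨c1, c2⟩, c3⟩, c4⟩ := hc
    set σ := (pF d p s - (wt s + (C.map fun c => pG c d s).sum)).toNat with hσ
    have hσ' : (σ : ℤ) = pF d p s - (wt s + (C.map fun c => pG c d s).sum) :=
      Int.toNat_of_nonneg (by linarith)
    refine ⟨σ + (C.map fun c => gap c d s (ss c) + ee c).sum, ?_, fun hb => ?_, fun hN => ?_⟩
    · push_cast at hsum ⊢
      linarith
    · rcases c3 with c3 | c3
      · omega
      refine dfs_sound (opts1 d s) add1 _ _ m1 (fun e _ => e < pB d p s)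
        (fun e N => ∃ u ∈ pT d p s, m1 u e N) ?_ ?_ ?_ (fun c => gap c d s (ss c) + ee c) nn C
        (σ, 1, false) σ 1 c3 ⟨rfl, by simp⟩ ?_ hb
      · rintro ⟨a, b, f⟩ ⟨a', b', f'⟩ e e' N N' ⟨h2, h3⟩ ⟨h4, h5⟩
        refine ⟨by simp only [add1] at h2 h4 ⊢; omega, ?_⟩
        cases f <;> cases f' <;> simp [add1] at h3 h5 ⊢ <;> omega
      · intro t e N h2 h3 e' N' h4 _
        have := h3.1
        simp only [decide_eq_true_eq] at h2
        omega
      · rintro ⟨a, b, f⟩ e N h2 ⟨h3, h4⟩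
        obtain ⟨⟨a', b', f'⟩, hu, h5⟩ := List.any_eq_true.1 h2
        refine ⟨_, hu, ?_⟩
        cases f <;> cases f' <;> simp [m1] at h3 h4 h5 ⊢ <;> omega
      · intro c hc
        have h2 := List.all_eq_true.1 c2 c hc
        simp only [Bool.and_eq_true, decide_eq_true_eq, Bool.or_eq_true] at h2
        have h3 : gap c d s (ss c) + ee c ≤ (C.map fun c => gap c d s (ss c) + ee c).sum :=
          List.single_le_sum (fun _ _ => Nat.zero_le _) _ (List.mem_map_of_mem hc)
        have h4 := hs c hc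
        have h5 := e2 c hc
        cases hsc : ss c
        · rw [hsc] at h3 h5
          obtain ⟨u, hu, hm⟩ := h5 (by omega)
          refine ⟨(gap c d s false + u.1, u.2), List.mem_append_left _
            (List.mem_map.2 ⟨u, hu, rfl⟩), ?_, hm.2⟩
          simp [hm.1]
        · have hs' : s = false := by cases s <;> simp_all
          rw [hsc] at h3 h5
          have h6 : pB d p s ≤ σ + gap c d s true + pB c d true := by
            rcases h2.2 with h6 | h6
            · rw [hs'] at h6; exact absurd h6 (by simp)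
            · exact h6
          obtain ⟨u, hu, hm⟩ := h5 (by omega)
          refine ⟨(gap c d s true + u.1, u.2), List.mem_append_right _ ?_, ?_, hm.2⟩
          · simp only [hs', Bool.false_eq_true, if_false]
            exact List.mem_map.2 ⟨u, hu, rfl⟩
          · simp [hm.1]
    · refine dfs_sound (opts2 d s) add2 _ _ m2 (fun _ N => N ≤ 17)
        (fun e N => ∃ u ∈ pS d p s, m2 u e N) ?_ ?_ ?_ (fun c => gap c d s (ss c) + ee c) nn C
        (σ, 1) σ 1 c4 ⟨le_rfl, rfl⟩ ?_ hN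
      · rintro ⟨a, b⟩ ⟨a', b'⟩ e e' N N' ⟨h2, h3⟩ ⟨h4, h5⟩
        simp only [add2, m2] at h2 h3 h4 h5 ⊢
        omega
      · intro t e N h2 h3 e' N' _ h4
        have := h3.2
        simp only [decide_eq_true_eq] at h2
        omega
      · rintro ⟨a, b⟩ e N h2 ⟨h3, h4⟩
        obtain ⟨⟨a', b'⟩, hu, h5⟩ := List.any_eq_true.1 h2
        refine ⟨_, hu, ?_⟩
        simp [m2] at h3 h4 h5 ⊢
        omega
      · intro c hc
        have h3 : nn c ≤ (C.map nn).sum :=
          List.single_le_sum (fun _ _ => Nat.zero_le _) _ (List.mem_map_of_mem hc)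
        obtain ⟨u, hu, hm⟩ := e3 c hc (by omega)
        have h4 := hs c hc
        cases hsc : ss c
        · rw [hsc] at hu
          refine ⟨(gap c d s false + u.1, u.2), List.mem_append_left _
            (List.mem_map.2 ⟨u, hu, rfl⟩), ?_, hm.2⟩
          have := hm.1
          simp only
          omega
        · have hs' : s = false := by cases s <;> simp_all
          rw [hsc] at hu
          refine ⟨(gap c d s true + u.1, u.2), List.mem_append_right _ ?_, ?_, hm.2⟩
          · simp only [hs', Bool.false_eq_true, if_false]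
            exact List.mem_map.2 ⟨u, hu, rfl⟩
          · have := hm.1
            simp only
            omega
  · rw [if_pos (by omega), decide_eq_true_eq, Nat.add_sub_cancel_left] at hc
    obtain ⟨e, he⟩ := Int.eq_ofNat_of_zero_le (a := pF d p s -
      (127 * ((s.toNat + (C.map aa).sum + A' : ℕ) : ℤ) -
        79 * ((1 + (C.map nn).sum + N' : ℕ) : ℤ))) (by
      push_cast at hsum ⊢
      have : (0 : ℤ) ≤ (List.map Nat.cast (C.map fun c => gap c d s (ss c) + ee c)).sum := by
        rw [← Nat.cast_list_sum]; exact Int.natCast_nonneg _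
      have h3 : (0 : ℤ) ≤ pB d p s := Int.natCast_nonneg _
      linarith)
    refine ⟨e, by linarith, fun hb => ?_, fun hN => by omega⟩
    exfalso
    have h3 : (e : ℤ) < pB d p s := by exact_mod_cast hb
    push_cast at hsum he
    have : (0 : ℤ) ≤ (List.map Nat.cast (C.map fun c => gap c d s (ss c) + ee c)).sum := by
      rw [← Nat.cast_list_sum]; exact Int.natCast_nonneg _
    linarith

theorem row9 (p : ℕ) (s : Bool) : pF 9 p s = -64 ∧ pB 9 p s = 0 ∧ pS 9 p s = [] := by
  rcases lt_or_ge p 10 with h | h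
  · cases s <;> interval_cases p <;> exact ⟨rfl, rfl, rfl⟩
  · cases s <;> refine ⟨List.getD_eq_default _ _ h, List.getD_eq_default _ _ h,
      List.getD_eq_default _ _ h⟩

theorem inv9_iff (p : ℕ) (s : Bool) (A N : ℕ) :
    Inv 9 p s A N ↔ (127 * A - 79 * N : ℤ) ≤ -64 ∧ 18 ≤ N := by
  obtain ⟨h1, h2, h3⟩ := row9 p s
  unfold Inv
  rw [h1, h2, h3]
  constructor
  · rintro ⟨e, he, -, h⟩
    refine ⟨by omega, ?_⟩
    by_contra h4
    simpa using h (by omega)
  · rintro ⟨h4, h5⟩
    exact ⟨(-64 - (127 * A - 79 * N : ℤ)).toNat, by omega, by omega, by omega⟩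

theorem local_big (p : ℕ) (s : Bool) (C : List ℕ) (hC : C.Sublist (cand 0)) (aa nn : ℕ → ℕ)
    (ss : ℕ → Bool) (hI : ∀ c ∈ C, Inv c 9 (ss c) (aa c) (nn c))
    (hs : ∀ c ∈ C, ¬ (s = true ∧ ss c = true)) (j A' N' : ℕ)
    (hbig : (127 * A' - 79 * N' : ℤ) ≤ -64 * j) (hbig' : 18 * j ≤ N')
    (hk : 8 ≤ C.length + j) :
    Inv 9 p s (s.toNat + (C.map aa).sum + A') (1 + (C.map nn).sum + N') := by
  have h3 := List.all_eq_true.1 check9 s (by cases s <;> simp)
  have hc := List.all_eq_true.1 h3 C (List.mem_sublists.2 hC)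
  simp only [Bool.and_eq_true, decide_eq_true_eq, Bool.or_eq_true, List.contains_iff_mem] at hc
  obtain ⟨ee, e1, -, e3⟩ := children_loss 9 s C aa nn ss hI hs
  have hsum := sum_eq C (fun c => pG c 9 s) aa nn (fun c => gap c 9 s (ss c) + ee c) e1
  have hw := wt_eq s
  rw [inv9_iff]
  constructor
  · have h4 : ((8 - C.length : ℕ) : ℤ) ≤ j := by omega
    have h5 := hc.1
    have : (0 : ℤ) ≤ ((C.map fun c => gap c 9 s (ss c) + ee c).sum : ℕ) := Int.natCast_nonneg _
    simp only [Nat.cast_add] at hsum ⊢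
    push_cast at hsum this h5 ⊢
    linarith
  · rcases hc.2 with h4 | h4
    · omega
    · have h5 : nn 8 ≤ (C.map nn).sum :=
        List.single_le_sum (fun _ _ => Nat.zero_le _) _ (List.mem_map_of_mem h4)
      by_contra h6
      obtain ⟨u, hu, -⟩ := e3 8 h4 (by omega)
      have : ∀ s', pS 8 9 s' = [] := fun s' => by cases s' <;> rfl
      rw [this] at hu
      simp at hu

end Pool.Agent.P.MP_913bbb_co
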