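import Mathlib
import Pool.Agent.P.MP_913bbb_co.Local
import Pool.Agent.P.MP_913bbb_co.Defs

namespace Pool.Agent.P.MP_913bbb_co

def resL : List ℕ := [2, 10, 18, 26, 39, 47, 55, 63, 108, 137, 145, 153, 182, 190, 219, 227, 235]
def excL : List ℕ := [14, 15, 17, 129, 203, 211, 285, 465, 539, 719, 793, 973, 1047, 1227, 1301]
def bad (n : ℕ) : Prop := (n % 254 ∈ resL ∧ n ∉ [2, 10, 26, 47]) ∨ n ∈ excL
instance (n : ℕ) : Decidable (bad n) := by unfold bad; infer_instance
def uu (n : ℕ) : ℕ := (79 * n + 105) % 127 + 22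

theorem bestBound_eq (n : ℕ) : bestBound n = (79 * n - 22) / 127 - if bad n then 1 else 0 := by
  unfold bestBound
  congr

theorem uu_bad {n : ℕ} (h : bad n) (hn : 18 ≤ n) : uu n ≤ 36 := by
  unfold uu
  rcases h with ⟨h, -⟩ | h
  · simp only [resL, List.mem_cons, List.not_mem_nil, or_false] at h
    omega
  · simp only [excL, List.mem_cons, List.not_mem_nil, or_false] at h
    omega

theorem le_bestBound {A n : ℕ} (hn : 1 ≤ n) (h1 : (127 * A - 79 * n : ℤ) ≤ -22)
    (h2 : bad n → (79 * n - 127 * A : ℤ) ≠ uu n) : A ≤ bestBound n := by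
  rw [bestBound_eq]
  unfold uu at h2
  split_ifs with h
  · have := h2 h
    omega
  · omega

def checkRoot (d : ℕ) : Bool :=
  decide (pF d 0 false ≤ -22) && decide (37 + pF d 0 false ≤ pB d 0 false) &&
  ((pS d 0 false).all fun u => decide (u.2 ∉ [3, 5, 6, 7, 11, 12, 13]) &&
    (decide (¬ bad u.2) || decide ((uu u.2 : ℤ) < u.1 - pF d 0 false))) &&
  ((pT d 0 false).all fun u =>
    if u.2.2 then
      (resL.all fun r => decide (r % 2 ≠ u.2.1 % 2) || decide ((uu r : ℤ) ≠ u.1 - pF d 0 false)) &&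
      (excL.all fun x => decide (x < u.2.1) || decide (x % 2 ≠ u.2.1 % 2) ||
        decide ((uu x : ℤ) ≠ u.1 - pF d 0 false))
    else decide (¬ bad u.2.1))

theorem checkRoot_all : (List.range 8).all (fun i => checkRoot (i + 1)) = true := by
  decide +kernel

theorem root_bound {d A n : ℕ} (h1 : 1 ≤ d) (h9 : d ≤ 9) (hn : 1 ≤ n) (h : Inv d 0 false A n) :
    A ≤ bestBound n ∧ n ∉ [3, 5, 6, 7, 11, 12, 13] := by
  rcases h9.eq_or_lt with rfl | h9
  · obtain ⟨h2, h3⟩ := (inv9_iff _ _ _ _).1 h
    refine ⟨le_bestBound hn (by omega) fun hb => ?_, by simp; omega⟩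
    have := uu_bad hb h3
    omega
  · have hc := List.all_eq_true.1 checkRoot_all (d - 1) (List.mem_range.2 (by omega))
    rw [Nat.sub_add_cancel h1] at hc
    simp only [checkRoot, Bool.and_eq_true, decide_eq_true_eq, List.all_eq_true,
      Bool.or_eq_true] at hc
    obtain ⟨⟨⟨c1, c2⟩, c3⟩, c4⟩ := hc
    obtain ⟨e, he, i1, i2⟩ := h
    refine ⟨le_bestBound hn (by omega) fun hb hs => ?_, fun hmem => ?_⟩
    · rcases le_or_gt n 17 with h17 | h17
      · obtain ⟨u, hu, m, rfl⟩ := i2 h17
        rcases (c3 u hu).2 with h4 | h4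
        · exact h4 hb
        · omega
      · have h36 := uu_bad hb h17
        obtain ⟨⟨e', a, f⟩, hu, m, hm⟩ := i1 (by omega)
        have h4 := c4 _ hu
        simp only at m hm h4
        subst m
        cases f
        · simp only [Bool.false_eq_true, if_false, decide_eq_true_eq] at hm h4
          exact h4 (hm ▸ hb)
        · simp only [if_true, Bool.and_eq_true, List.all_eq_true, Bool.or_eq_true,
            decide_eq_true_eq] at hm h4
          rcases hb with ⟨hb, -⟩ | hb
          · have h5 : uu (n % 254) = uu n := by unfold uu; omega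
            rcases h4.1 _ hb with h6 | h6 <;> omega
          · rcases h4.2 _ hb with (h6 | h6) | h6 <;> omega
    · have h17 : n ≤ 17 := by
        simp only [List.mem_cons, List.not_mem_nil, or_false] at hmem; omega
      obtain ⟨u, hu, -, rfl⟩ := i2 h17
      exact (c3 u hu).1 hmem

end Pool.Agent.P.MP_913bbb_co
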