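import Mathlib
import Pool.Agent.P.MP_913bbb_co.Root

namespace Pool.Agent.P.MP_913bbb_co

open Finset

variable {V : Type}

theorem exists_parent {G : SimpleGraph V} (hG : G.IsTree) (r : V) :
    ∃ par : V → V, (∀ v ≠ r, G.Adj v (par v) ∧ G.dist r v = G.dist r (par v) + 1) ∧
      ∀ v u, G.Adj v u → (v ≠ r ∧ u = par v) ∨ (u ≠ r ∧ par u = v) := by
  have hex : ∀ v, ∃ u, v ≠ r → G.Adj v u ∧ G.dist r v = G.dist r u + 1 := by
    intro v
    by_cases hv : v = r
    · exact ⟨v, fun h => absurd hv h⟩
    obtain ⟨p, hp⟩ := hG.connected.exists_walk_length_eq_dist v r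
    cases p with
    | nil => exact absurd rfl hv
    | @cons _ u _ h q =>
      refine ⟨u, fun _ => ⟨h, ?_⟩⟩
      have h1 : G.dist u r ≤ q.length := SimpleGraph.dist_le q
      rw [SimpleGraph.Walk.length_cons] at hp
      have h2 := hG.dist_eq_dist_add_one_of_adj r h
      rw [SimpleGraph.dist_comm] at hp h1
      omega
  choose par hpar using hex
  have huniq : ∀ v u u', G.Adj v u → G.Adj v u' → G.dist r v = G.dist r u + 1 →
      G.dist r v = G.dist r u' + 1 → u = u' := by
    intro v u u' h h' e e'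
    obtain ⟨q, hq⟩ := hG.connected.exists_walk_length_eq_dist r u
    obtain ⟨q', hq'⟩ := hG.connected.exists_walk_length_eq_dist r u'
    have p1 : (q.concat h.symm).IsPath :=
      SimpleGraph.Walk.isPath_of_length_eq_dist _ (by rw [SimpleGraph.Walk.length_concat]; omega)
    have p2 : (q'.concat h'.symm).IsPath :=
      SimpleGraph.Walk.isPath_of_length_eq_dist _ (by rw [SimpleGraph.Walk.length_concat]; omega)
    have := (hG.existsUnique_path r v).unique p1 p2
    have h3 := congrArg SimpleGraph.Walk.penultimate this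
    rwa [SimpleGraph.Walk.penultimate_concat, SimpleGraph.Walk.penultimate_concat] at h3
  refine ⟨par, fun v hv => hpar v hv, fun v u h => ?_⟩
  rcases hG.dist_eq_dist_add_one_of_adj r h with h1 | h1
  · have hv : v ≠ r := by rintro rfl; simp at h1
    exact Or.inl ⟨hv, huniq v _ _ h (hpar v hv).1 h1 (hpar v hv).2⟩
  · have hu : u ≠ r := by rintro rfl; simp at h1
    exact Or.inr ⟨hu, huniq u _ _ (hpar u hu).1 h.symm (hpar u hu).2 h1⟩

theorem exists_subtree_sum [Fintype V] [DecidableEq V] (r : V) (par : V → V) (dep : V → ℕ)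
    (hdep : ∀ v ≠ r, dep v = dep (par v) + 1) (w : V → ℕ) :
    ∃ W : V → ℕ, (∀ v, W v = w v + ∑ c ∈ univ.filter (fun c => c ≠ r ∧ par c = v), W c) ∧
      W r = ∑ v, w v := by
  have wf : WellFounded (fun c v : V => dep v < dep c) :=
    @Finite.wellFounded_of_trans_of_irrefl _ _ _ ⟨fun _ _ _ h h' => h'.trans h⟩
      ⟨fun _ => lt_irrefl _⟩
  have hlt : ∀ v, ∀ c ∈ univ.filter (fun c => c ≠ r ∧ par c = v), dep v < dep c := by
    intro v c hc
    obtain ⟨h1, rfl⟩ := (mem_filter.1 hc).2
    rw [hdep c h1]; omega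
  let W : V → ℕ := wf.fix fun v ih =>
    w v + ∑ c ∈ (univ.filter (fun c => c ≠ r ∧ par c = v)).attach, ih c.1 (hlt v c.1 c.2)
  have hW : ∀ v, W v = w v + ∑ c ∈ univ.filter (fun c => c ≠ r ∧ par c = v), W c := by
    intro v
    rw [← sum_attach (univ.filter (fun c => c ≠ r ∧ par c = v)) W]
    exact wf.fix_eq _ v
  refine ⟨W, hW, ?_⟩
  have h1 : ∑ v, W v = ∑ v, w v + ∑ c ∈ univ.erase r, W c := by
    rw [sum_congr rfl fun v _ => hW v, sum_add_distrib,
      ← sum_fiberwise (s := univ.erase r) (g := par)]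
    congr 1
    refine sum_congr rfl fun v _ => sum_congr ?_ fun _ _ => rfl
    ext c
    simp
  rw [← add_sum_erase _ _ (mem_univ r)] at h1
  omega

theorem upper [Fintype V] {G : SimpleGraph V} (hG : G.IsTree) (hH : HighlyIrregular G)
    (hn : 2 ≤ Fintype.card V) (I : Finset V) (hI : G.IsIndepSet I) :
    #I ≤ bestBound (Fintype.card V) ∧ Fintype.card V ∉ [3, 5, 6, 7, 11, 12, 13] := by
  classical
  have : Nontrivial V := Fintype.one_lt_card_iff_nontrivial.1 hn
  have hnb : ∀ v, ∃ u, G.Adj v u := fun v => hG.connected.preconnected.exists_adj_of_nontrivial v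
  obtain ⟨r, hr⟩ : ∃ r, r ∉ I := by
    obtain ⟨v⟩ : Nonempty V := inferInstance
    obtain ⟨u, hu⟩ := hnb v
    by_contra h
    push Not at h
    exact hI (h v) (h u) hu.ne hu
  obtain ⟨par, hpar, hadj⟩ := exists_parent hG r
  let ch : V → Finset V := fun v => univ.filter (fun c => c ≠ r ∧ par c = v)
  let deg : V → ℕ := fun v => (G.neighborSet v).ncard
  have hch : ∀ v, ∀ c ∈ ch v, c ≠ r ∧ par c = v := fun v c hc => (mem_filter.1 hc).2
  have hchadj : ∀ v, ∀ c ∈ ch v, G.Adj v c := by
    intro v c hc
    obtain ⟨h1, rfl⟩ := hch v c hc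
    exact (hpar c h1).1.symm
  have hparch : ∀ v ≠ r, par v ∉ ch v := by
    intro v hv h
    obtain ⟨h1, h2⟩ := hch _ _ h
    have a := (hpar v hv).2
    have b := (hpar _ h1).2
    rw [h2] at b
    omega
  have hdeg : ∀ v, deg v = #(ch v) + if v = r then 0 else 1 := by
    intro v
    by_cases hv : v = r
    · have : G.neighborSet v = ↑(ch v) := by
        ext u
        refine ⟨fun h => ?_, fun h => hchadj v u h⟩
        rcases hadj v u h with h1 | h1
        · exact absurd hv h1.1
        · exact mem_filter.2 ⟨mem_univ _, h1⟩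
      simp only [deg, this, Set.ncard_coe_finset, if_pos hv, add_zero]
    · have : G.neighborSet v = ↑(insert (par v) (ch v)) := by
        ext u
        simp only [SimpleGraph.mem_neighborSet, coe_insert, Set.mem_insert_iff, mem_coe]
        refine ⟨fun h => ?_, fun h => ?_⟩
        · rcases hadj v u h with h1 | h1
          · exact Or.inl h1.2
          · exact Or.inr (mem_filter.2 ⟨mem_univ _, h1⟩)
        · rcases h with rfl | h
          · exact (hpar v hv).1
          · exact hchadj v u h
      simp only [deg, this, Set.ncard_coe_finset, if_neg hv, card_insert_of_notMem (hparch v hv)]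
  have hpos : ∀ v, 1 ≤ deg v := by
    intro v
    obtain ⟨u, hu⟩ := hnb v
    exact (Set.ncard_pos (Set.toFinite _)).2 ⟨u, hu⟩
  have hinj : ∀ v, Set.InjOn deg (ch v) := by
    intro v c hc c' hc' h
    by_contra hne
    exact hH v c c' (hchadj v c hc) (hchadj v c' hc') hne h
  have hne : ∀ v ≠ r, ∀ c ∈ ch v, deg c ≠ deg (par v) := fun v hv c hc =>
    hH v c (par v) (hchadj v c hc) (hpar v hv).1 fun h => hparch v hv (h ▸ hc)
  obtain ⟨N, hN, hNr⟩ := exists_subtree_sum r par (G.dist r) (fun v hv => (hpar v hv).2)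
    fun _ => 1
  obtain ⟨A, hA, hAr⟩ := exists_subtree_sum r par (G.dist r) (fun v hv => (hpar v hv).2)
    fun v => (decide (v ∈ I)).toNat
  let st : V → Bool := fun v => decide (v ∈ I)
  let pc : V → ℕ := fun v => if v = r then 0 else min (deg (par v)) 9
  have wf : WellFounded (fun c v : V => G.dist r v < G.dist r c) :=
    @Finite.wellFounded_of_trans_of_irrefl _ _ _ ⟨fun _ _ _ h h' => h'.trans h⟩
      ⟨fun _ => lt_irrefl _⟩
  have main : ∀ v, Inv (min (deg v) 9) (pc v) (st v) (A v) (N v) := by
    intro v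
    induction v using wf.induction with
    | _ v ih =>
    have ih' : ∀ c ∈ ch v, Inv (min (deg c) 9) (min (deg v) 9) (st c) (A c) (N c) := by
      intro c hc
      obtain ⟨h1, h2⟩ := hch v c hc
      have := ih c (by rw [(hpar c h1).2, h2]; omega)
      simpa only [pc, if_neg h1, h2] using this
    let S := (ch v).filter (fun c => deg c ≤ 8)
    let B := (ch v).filter (fun c => ¬ deg c ≤ 8)
    have hκ : ∀ k, ∃ c, k ∈ S.image deg → c ∈ S ∧ deg c = k := by
      intro k
      by_cases hk : k ∈ S.image deg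
      · obtain ⟨c, h1, h2⟩ := mem_image.1 hk
        exact ⟨c, fun _ => ⟨h1, h2⟩⟩
      · exact ⟨v, fun h => absurd h hk⟩
    choose κ hκ using hκ
    have hSinj : Set.InjOn deg S := (hinj v).mono (by
      intro c hc; exact (mem_filter.1 hc).1)
    have hκ' : ∀ c ∈ S, κ (deg c) = c := by
      intro c hc
      obtain ⟨h1, h2⟩ := hκ _ (mem_image_of_mem deg hc)
      exact hSinj h1 hc h2
    have key : ∀ p, (∀ c ∈ S, deg c ≠ p) → ∃ C : List ℕ, C.Sublist (cand p) ∧
        (∀ k ∈ C, k ∈ S.image deg) ∧ C.length = #S ∧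
        ∀ W : V → ℕ, (C.map fun k => W (κ k)).sum = ∑ c ∈ S, W c := by
      intro p hp
      let C := (cand p).filter (fun k => decide (k ∈ S.image deg))
      have hnd : C.Nodup := (List.Nodup.filter _ (by decide)).filter _
      have hC : C.toFinset = S.image deg := by
        ext k
        simp only [C, List.mem_toFinset, List.mem_filter, decide_eq_true_eq, and_iff_right_iff_imp]
        intro hk
        obtain ⟨c, hc, rfl⟩ := mem_image.1 hk
        have h1 := hp c hc
        have h2 := (mem_filter.1 hc).2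
        have h3 := hpos c
        simp only [cand, List.mem_filter, List.mem_cons, List.not_mem_nil, or_false, bne_iff_ne]
        exact ⟨by omega, h1⟩
      refine ⟨C, List.filter_sublist, fun k hk => hC ▸ List.mem_toFinset.2 hk, ?_, fun W => ?_⟩
      · rw [← List.toFinset_card_of_nodup hnd, hC, card_image_of_injOn hSinj]
      · rw [← List.sum_toFinset _ hnd, hC, sum_image hSinj]
        exact sum_congr rfl fun c hc => by rw [hκ' c hc]
    have hsplit : ∀ W : V → ℕ, ∑ c ∈ ch v, W c = ∑ c ∈ S, W c + ∑ c ∈ B, W c := fun W =>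
      (sum_filter_add_sum_filter_not _ _ _).symm
    have hcard : #(ch v) = #S + #B := (card_filter_add_card_filter_not _).symm
    have hB : ∀ c ∈ B, (127 * A c - 79 * N c : ℤ) ≤ -64 ∧ 18 ≤ N c := by
      intro c hc
      obtain ⟨h1, h2⟩ := mem_filter.1 hc
      have := ih' c h1
      rw [min_eq_right (by omega)] at this
      exact (inv9_iff _ _ _ _).1 this
    have hB1 : (127 * (∑ c ∈ B, A c : ℕ) - 79 * (∑ c ∈ B, N c : ℕ) : ℤ) ≤ -64 * (#B : ℕ) := by
      push_cast
      rw [mul_sum, mul_sum, ← sum_sub_distrib]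
      refine (sum_le_sum fun c hc => (hB c hc).1).trans (le_of_eq ?_)
      simp [mul_comm]
    have hB2 : 18 * #B ≤ ∑ c ∈ B, N c := by
      have := card_nsmul_le_sum B N 18 fun c hc => (hB c hc).2
      rwa [smul_eq_mul, mul_comm] at this
    have hIC : ∀ k ∈ S.image deg,
        Inv k (min (deg v) 9) (st (κ k)) (A (κ k)) (N (κ k)) ∧
          ¬ (st v = true ∧ st (κ k) = true) := by
      intro k hk
      obtain ⟨h1, h2⟩ := hκ k hk
      obtain ⟨h3, h4⟩ := mem_filter.1 h1
      have := ih' _ h3
      rw [min_eq_left (by omega), h2] at this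
      refine ⟨this, fun h => ?_⟩
      simp only [st, decide_eq_true_eq] at h
      exact hI h.1 h.2 (hchadj v _ h3).ne (hchadj v _ h3)
    rw [hA v, hN v]
    change Inv _ _ _ ((st v).toNat + ∑ c ∈ ch v, A c) (1 + ∑ c ∈ ch v, N c)
    rw [hsplit A, hsplit N, ← add_assoc, ← add_assoc]
    have hd := hdeg v
    rcases le_or_gt (deg v) 8 with h8 | h8
    · obtain ⟨C, c1, c2, c3, c4⟩ := key (pc v) (by
        intro c hc
        obtain ⟨h1, h2⟩ := mem_filter.1 hc
        have h3 := hpos c
        by_cases hv : v = r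
        · simp only [pc, if_pos hv]; omega
        · have := hne v hv c h1
          simp only [pc, if_neg hv]; omega)
      rw [← c4 A, ← c4 N]
      rw [min_eq_left (by omega)] at hIC ⊢
      have hpc : pc v = 0 ↔ v = r := by
        by_cases hv : v = r
        · simp [pc, hv]
        · have := hpos (par v)
          simp only [pc, if_neg hv, hv, iff_false]; omega
      refine local_small _ _ _ (hpos v) h8 ?_ ?_ C c1 (fun k => A (κ k)) (fun k => N (κ k))
        (fun k => st (κ k)) (fun k hk => (hIC k (c2 k hk)).1) (fun k hk => (hIC k (c2 k hk)).2)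
        (#B) _ _ hB1 hB2 ?_ ?_
      · simp only [pc]; split_ifs <;> omega
      · intro h
        rw [hpc.1 h]
        simpa [st] using hr
      · intro h
        rw [card_eq_zero.1 h]
        simp
      · simp only [hpc]
        omega
    · obtain ⟨C, c1, c2, c3, c4⟩ := key 0 (fun c _ => by have := hpos c; omega)
      rw [← c4 A, ← c4 N]
      rw [min_eq_right (by omega)] at hIC ⊢
      refine local_big _ _ C c1 (fun k => A (κ k)) (fun k => N (κ k))
        (fun k => st (κ k)) (fun k hk => (hIC k (c2 k hk)).1) (fun k hk => (hIC k (c2 k hk)).2)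
        (#B) _ _ hB1 hB2 ?_
      split_ifs at hd <;> omega
  have h := main r
  have e1 : pc r = 0 := by simp [pc]
  have e2 : st r = false := by simpa [st] using hr
  have e3 : N r = Fintype.card V := by rw [hNr]; simp
  have e4 : A r = #I := by
    rw [hAr, card_eq_sum_ones, ← sum_subset (subset_univ I) (by intro x _ hx; simp [hx])]
    exact sum_congr rfl fun x hx => by simp [hx]
  rw [e1, e2, e3, e4] at h
  exact root_bound (by have := hpos r; omega) (min_le_right _ _) (by omega) h

end Pool.Agent.P.MP_913bbb_co
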