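import Mathlib
import Pool.Agent.P.MP_913bbb_co.Upper
import Pool.Agent.P.MP_913bbb_co.Cover

namespace Pool.Agent.P.MP_913bbb_co

theorem ok_of_pumped {n : ℕ} (h : pumped n = true) (j : ℕ) :
    Ok (n + 254 * j) (bestBound n + 158 * j) := by
  obtain ⟨x, hx, h1⟩ := List.any_eq_true.1 h
  simp only [Bool.and_eq_true, decide_eq_true_eq, beq_iff_eq] at h1
  have := hpumpList x hx ((n - x.1) / 254 + j)
  convert this using 1 <;> omega

theorem bestBound_add {n : ℕ} (hn : 1556 ≤ n) (j : ℕ) :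
    bestBound (n + 254 * j) = bestBound n + 158 * j := by
  have hb : ∀ m, 1556 ≤ m → (bad m ↔ m % 254 ∈ resL) := by
    intro m hm
    have h1 : m ∉ [2, 10, 26, 47] := by simp; omega
    have h2 : m ∉ excL := by simp [excL]; omega
    simp [bad, h1, h2]
  rw [bestBound_eq, bestBound_eq]
  have h1 : (n + 254 * j) % 254 = n % 254 := by omega
  simp only [hb n hn, hb (n + 254 * j) (by omega), h1]
  split_ifs <;> omega

theorem lower {n : ℕ} (h2 : 2 ≤ n) (hn : n ∉ [3, 5, 6, 7, 11, 12, 13]) : Ok n (bestBound n) := by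
  rcases lt_or_ge n 1556 with h | h
  · have h1 := List.all_eq_true.1 check_low n (List.mem_range.2 h)
    simp only [Bool.or_eq_true, decide_eq_true_eq, List.contains_iff_mem] at h1
    rcases h1 with ((h1 | h1) | h1) | h1
    · omega
    · exact absurd h1 hn
    · exact ok_of_pumped h1 0
    · exact hexactList _ h1
  · have h1 := List.all_eq_true.1 check_high ((n - 1556) % 254)
      (List.mem_range.2 (Nat.mod_lt _ (by norm_num)))
    have h3 := ok_of_pumped h1 ((n - 1556) / 254)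
    rw [← bestBound_add (Nat.le_add_right _ _)] at h3
    have h4 : 1556 + (n - 1556) % 254 + 254 * ((n - 1556) / 254) = n := by omega
    rwa [h4] at h3

theorem upper' {n a : ℕ} (h2 : 2 ≤ n) (h : a ∈ alphaSet n) :
    a ≤ bestBound n ∧ n ∉ [3, 5, 6, 7, 11, 12, 13] := by
  obtain ⟨G, h1, h3, rfl⟩ := h
  obtain ⟨I, hI⟩ := G.exists_isNIndepSet_indepNum
  have := upper h1 h3 (by simpa using h2) I hI.isIndepSet
  rwa [Fintype.card_fin, hI.card_eq] at this

theorem isGreatest {n : ℕ} (h2 : 2 ≤ n) (hn : n ∉ [3, 5, 6, 7, 11, 12, 13]) :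
    IsGreatest (alphaSet n) (bestBound n) := by
  refine ⟨?_, fun a ha => (upper' h2 ha).1⟩
  obtain ⟨G, h1, h3, h4⟩ := lower h2 hn
  exact ⟨G, h1, h3, le_antisymm (upper' h2 ⟨G, h1, h3, rfl⟩).1 h4⟩

theorem alphaSet_empty {n : ℕ} (hn : n ∈ [3, 5, 6, 7, 11, 12, 13]) : alphaSet n = ∅ := by
  refine Set.eq_empty_of_forall_notMem fun a ha => (upper' ?_ ha).2 hn
  simp only [List.mem_cons, List.not_mem_nil, or_false] at hn
  omega

theorem isLUB : IsLUB {x : ℝ | ∃ n : ℕ, 2 ≤ n ∧ ∃ a ∈ alphaSet n, x = (a : ℝ) / n} (79 / 127) := by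
  constructor
  · rintro _ ⟨n, h2, a, ha, rfl⟩
    have h1 := (upper' h2 ha).1
    have h3 : 127 * a ≤ 79 * n := by
      rw [bestBound_eq] at h1
      omega
    have h4 : (0 : ℝ) < n := by exact_mod_cast (by omega : 0 < n)
    rw [div_le_div_iff₀ h4 (by norm_num)]
    have h5 : (127 * a : ℝ) ≤ 79 * n := by exact_mod_cast h3
    linarith
  · intro b hb
    refine le_of_forall_pos_le_add fun ε hε => ?_
    obtain ⟨m, hm⟩ := exists_nat_gt (3 / ε)
    obtain ⟨n, hn1, hn2⟩ : ∃ n : ℕ, m ≤ n ∧ 14 ≤ n := ⟨m + 14, by omega, by omega⟩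
    have h1 := hb ⟨n, by omega, _, (isGreatest (n := n) (by omega) (by simp; omega)).1, rfl⟩
    have h2 : 79 * n ≤ 127 * (bestBound n + 3) := by
      rw [bestBound_eq]
      split_ifs <;> omega
    generalize bestBound n = a at h1 h2
    have h3 : (79 * (n : ℝ)) ≤ 127 * (a + 3) := by exact_mod_cast h2
    have h4 : (0 : ℝ) < n := by exact_mod_cast (by omega : 0 < n)
    rw [div_le_iff₀ h4] at h1
    rw [div_lt_iff₀ hε] at hm
    have h5 : (m : ℝ) ≤ n := by exact_mod_cast hn1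
    have h6 : (3 : ℝ) ≤ ε * n := by nlinarith
    by_contra h7
    push Not at h7
    nlinarith

end Pool.Agent.P.MP_913bbb_co
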